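import Pool.Agent.MP_c1b6d0_co.V2.Basic

/-! Row B4: every port reaches the base triangle. -/

open Finset
open scoped Classical

namespace Pool.Agent.MP_c1b6d0_co.H73.V2

namespace B4x

theorem level_le {e h : ℝ} (he : 0 < e) (h0 : 0 < h) (h1 : h ≤ 1 / 1000) (heh : e ≤ h ^ 5) :
    lam h + 1 + ⌈1 / h⌉₊ * lam h ≤ kap e := by
  have hy : 1000 ≤ 1 / h := by rw [le_div_iff₀ h0]; linarith
  set y : ℝ := 1 / h with hy'
  have a1 : (⌈1 / h⌉₊ : ℝ) ≤ y + 1 := (Nat.ceil_lt_add_one (by positivity)).le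
  have a2 : (lam h : ℝ) ≤ 2 * y ^ 2 + 7 := by
    have t : (⌈2 / h ^ 2⌉₊ : ℝ) ≤ 2 / h ^ 2 + 1 := (Nat.ceil_lt_add_one (by positivity)).le
    have t2 : 2 / h ^ 2 = 2 * y ^ 2 := by rw [hy']; field_simp
    unfold lam; push_cast; linarith
  have a3 : y ^ 5 ≤ (kap e : ℝ) := by
    have t := one_le_kap_mul he
    have t2 : (kap e : ℝ) * e ≤ kap e * h ^ 5 :=
      mul_le_mul_of_nonneg_left heh (Nat.cast_nonneg _)
    have t3 : y ^ 5 = 1 / h ^ 5 := by rw [hy']; field_simp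
    rw [t3, div_le_iff₀ (by positivity)]; linarith
  have a4 : (⌈1 / h⌉₊ : ℝ) * lam h ≤ (y + 1) * (2 * y ^ 2 + 7) :=
    mul_le_mul a1 a2 (Nat.cast_nonneg _) (by linarith)
  have b1 : 1000 * y ≤ y ^ 2 := by nlinarith
  have b2 : 1000 * y ^ 2 ≤ y ^ 3 := by nlinarith
  have b3 : 1000 * y ^ 3 ≤ y ^ 4 := by nlinarith
  have b4 : 1000 * y ^ 4 ≤ y ^ 5 := by nlinarith
  have a5 : (lam h : ℝ) + 1 + (⌈1 / h⌉₊ : ℝ) * lam h ≤ kap e := by nlinarith
  exact_mod_cast a5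

theorem climb (h2 : K2_stmt) {V : Type} [Fintype V] {G : SimpleGraph V} {e b h : ℝ}
    (c : Ctx2 G e b h) {u a a' : V} (hB : Base G e u a a') (i : ℕ) :
    ∀ w, w ∉ ({u, a, a'} : Finset V) → Big G e b w → FineV G e w → NotExc G e w →
      nn V - i * (h * nn V) ≤ dg G w →
      ∀ x, x ∉ ({u, a, a'} : Finset V) → FineE G e w x →
        EE G e {u, a, a'} (lam h + 1 + i * lam h) w x := by
  induction i with
  | zero =>
    intro w _ _ _ _ hd
    have := dg_le (G := G) w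
    simp only [Nat.cast_zero, zero_mul, sub_zero] at hd
    linarith
  | succ i ih =>
    intro w hw hb hf hn hd x hx hwx
    have key := h2 V G e b h c u a a' hB (lam h + 1 + i * lam h) (nn V - i * (h * nn V))
      (by omega) ih w hw hb hf hn (by push_cast at hd; linarith) x hx hwx
    have e1 : lam h + 1 + (i + 1) * lam h = lam h + 1 + i * lam h + lam h := by ring
    rw [e1]; exact key

theorem all (h2 : K2_stmt) {V : Type} [Fintype V] {G : SimpleGraph V} {e b h : ℝ}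
    (c : Ctx2 G e b h) {u a a' : V} (hB : Base G e u a a') {g k p : V}
    (hg : g ∉ ({u, a, a'} : Finset V)) (hk : k ∉ ({u, a, a'} : Finset V))
    (hp : p ∉ ({u, a, a'} : Finset V)) (hP : PortA G e b g k p) :
    Reach G e {u, a, a'} (10 + 2 * kap e) {g, k, p} := by
  obtain ⟨p1, p2, p3, p4, p5⟩ := hP
  have hd : nn V - (⌈1 / h⌉₊ : ℕ) * (h * nn V) ≤ dg G g := by
    have t1 : 1 / h ≤ (⌈1 / h⌉₊ : ℝ) := Nat.le_ceil _
    rw [div_le_iff₀ c.h_pos] at t1
    have t2 := mul_le_mul_of_nonneg_right t1 c.n_pos.le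
    have t3 : 0 ≤ dg G g := cnt_nonneg _
    nlinarith
  have key := climb h2 c hB ⌈1 / h⌉₊ g hg p1 p2 p3 hd k hk p4 p hp p5
  have hl := level_le c.e_pos c.h_pos c.h_le c.e_h
  exact key.mono (by omega)

end B4x

theorem B4 (h2 : K2_stmt) : B4_stmt := by
  intro V _ G e b hc u a a' hB g k p hg hk hp hP
  obtain ⟨h, c⟩ := hc
  rcases hP with hP | hP
  · exact B4x.all h2 c hB hg hk hp hP
  · rw [← tri_rot p g k]
    exact B4x.all h2 c hB hp hg hk hP

end Pool.Agent.MP_c1b6d0_co.H73.V2
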