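import Pool.Agent.MP_c1b6d0_co.V2.Spec

/-! Part 2: consequences of `Ctx2` and `Ctx`. -/

open Finset
open scoped Classical

namespace Pool.Agent.MP_c1b6d0_co.H73.V2

variable {V : Type} [Fintype V] {G : SimpleGraph V} {e b h : ℝ}

theorem Port.nice {g k p : V} (hp : Port G e b g k p) : Nice G e g k p :=
  hp.elim (fun a => a.2.2.2.2) fun a => a.2.2.2.2.rot

theorem cnt_ge_le {m : ℝ} (hm : 0 ≤ m) :
    cnt (fun x => cnt (fun z => dg G x ≤ dg G z) ≤ m) ≤ m := by
  by_cases hne : (univ.filter fun x => cnt (fun z => dg G x ≤ dg G z) ≤ m).Nonempty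
  · obtain ⟨z0, hz0, hmin⟩ := exists_min_image _ (dg G) hne
    refine le_trans (cnt_mono fun z hz => ?_) (mem_filter.1 hz0).2
    exact hmin z (mem_filter.2 ⟨mem_univ _, hz⟩)
  · have : cnt (fun x => cnt (fun z => dg G x ≤ dg G z) ≤ m) ≤ cnt (fun _ : V => False) :=
      cnt_mono fun z hz => hne ⟨z, mem_filter.2 ⟨mem_univ _, hz⟩⟩
    rw [cnt_false] at this
    linarith

/-- few exceptional vertices -/
theorem cnt_exc (he : 0 < e) : cnt (fun x => ¬ NotExc G e x) ≤ 2 * e ^ 61 * nn V :=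
  le_trans (cnt_mono fun _ hx => not_lt.1 hx)
    (cnt_ge_le (by have := nn_nonneg (α := V); positivity))

theorem NotExc.le_top {y u : V} (hy : NotExc G e y) (hu : TopU G e u) : dg G y ≤ dg G u := by
  by_contra hc
  have : cnt (fun z => dg G y ≤ dg G z) ≤ cnt (fun z => dg G u < dg G z) :=
    cnt_mono fun z hz => lt_of_lt_of_le (not_le.1 hc) hz
  unfold NotExc at hy; unfold TopU at hu
  linarith

/-- many top vertices -/
theorem cnt_topU (hn : 2 * e ^ 61 * nn V < nn V) : 2 * e ^ 61 * nn V < cnt (TopU G e) := by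
  by_contra hc
  have hc' := not_lt.1 hc
  have h1 := cnt_not (TopU G e)
  have hne : (univ.filter fun x => ¬ TopU G e x).Nonempty := by
    obtain ⟨x, hx⟩ := exists_of_cnt_pos (p := fun x => ¬ TopU G e x) (by linarith)
    exact ⟨x, mem_filter.2 ⟨mem_univ _, hx⟩⟩
  obtain ⟨w, hw, hmax⟩ := exists_max_image _ (dg G) hne
  refine (mem_filter.1 hw).2 (le_trans (cnt_mono fun z hz => ?_) hc')
  by_contra hz'
  exact absurd (hmax z (mem_filter.2 ⟨mem_univ _, hz'⟩)) (not_le.2 hz)

/-- pigeonhole: a monotone bounded sequence has a short step -/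
theorem exists_short_step (f : ℕ → ℝ) (n ρ : ℝ) (k N : ℕ) (h0 : ∀ j, 0 ≤ f j) (hn : ∀ j, f j ≤ n)
    (hN : n < (N + 1) * ρ) : ∃ j, k ≤ j ∧ j ≤ k + N ∧ f (j + 1) ≤ f j + ρ := by
  by_contra hc
  push Not at hc
  have key : ∀ i : ℕ, i ≤ N + 1 → f k + i * ρ ≤ f (k + i) := by
    intro i hi
    induction i with
    | zero => simp
    | succ i ih =>
      have h1 := ih (by omega)
      have h2 := hc (k + i) (by omega) (by omega)
      rw [← add_assoc]; push_cast; linarith
  have h1 := key (N + 1) le_rfl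
  have h2 := hn (k + (N + 1))
  have h3 := h0 k
  push_cast at h1
  linarith

namespace Ctx2
variable (c : Ctx2 G e b h)
include c

theorem h5_le : h ^ 5 ≤ h / 1000 := by
  have := pow_gap c.h_pos c.h_le (a := 1) (c := 5) (by norm_num)
  rw [pow_one] at this; linarith

theorem e_le : e ≤ 1 / 1000 := by linarith [c.e_h, c.h5_le, c.h_le]

theorem n_pos : 0 < nn V := pos_of_large c.e_pos c.large

theorem scale {a : ℕ} (ha : a < 10000) : 1000 ≤ e ^ a * nn V :=
  large_scale c.e_pos c.e_le c.large ha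

theorem gap {a d : ℕ} (had : a < d) : 1000 * (e ^ d * nn V) ≤ e ^ a * nn V :=
  pow_gap_mul c.e_pos c.e_le c.n_pos.le had

theorem gap1 {d : ℕ} (hd : 1 < d) : 1000 * (e ^ d * nn V) ≤ e * nn V :=
  pow_gap_one c.e_pos c.e_le c.n_pos.le hd

theorem s_large : 1000 ≤ e * nn V := by
  have := c.scale (a := 1) (by norm_num)
  rwa [pow_one] at this

theorem hgap {a d : ℕ} (had : a < d) : 1000 * (h ^ d * nn V) ≤ h ^ a * nn V :=
  pow_gap_mul c.h_pos c.h_le c.n_pos.le had

theorem hgap1 {d : ℕ} (hd : 1 < d) : 1000 * (h ^ d * nn V) ≤ h * nn V :=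
  pow_gap_one c.h_pos c.h_le c.n_pos.le hd

theorem en_le_h5 : e * nn V ≤ h ^ 5 * nn V := mul_le_mul_of_nonneg_right c.e_h c.n_pos.le

theorem en_le : 1000 * (e * nn V) ≤ h * nn V := by
  linarith [c.en_le_h5, c.hgap1 (d := 5) (by norm_num)]

theorem hn_le : 1000 * (h * nn V) ≤ nn V := by
  have := mul_le_mul_of_nonneg_right c.h_le c.n_pos.le
  linarith

theorem nonempty : Nonempty V := by
  have := c.n_pos
  unfold nn at this
  exact Fintype.card_pos_iff.1 (by exact_mod_cast this)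

theorem big_nbrs (x : V) : 50 * (h * nn V) ≤ cnt fun y => G.Adj x y ∧ Big G e b y := by
  have h1 : dg G x ≤ cnt (fun y => G.Adj x y ∧ Big G e b y) + cnt (fun y => ¬ Big G e b y) :=
    cnt_le_add fun y hy => by by_cases hb : Big G e b y <;> simp [hy, hb]
  linarith [c.mindeg x, c.small]

theorem codeg_big {y : V} (hy : Big G e b y) (x : V) :
    50 * (h * nn V) ≤ cnt fun z => G.Adj x z ∧ G.Adj y z := by
  have h1 := codeg_ge (G := G) x y
  unfold Big at hy
  linarith [c.mindeg x, c.s_large]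

/-- the number of steps in one stabilisation -/
theorem steps : nn V < ((⌈2 / h ^ 2⌉₊ : ℕ) + 1) * (h ^ 2 * nn V / 2) := by
  have h1 : 2 / h ^ 2 ≤ (⌈2 / h ^ 2⌉₊ : ℝ) := Nat.le_ceil _
  have h2 : 0 < h ^ 2 := pow_pos c.h_pos 2
  rw [div_le_iff₀ h2] at h1
  have h3 := mul_le_mul_of_nonneg_right h1 c.n_pos.le
  have h4 := mul_pos h2 c.n_pos
  nlinarith

end Ctx2

namespace Ctx
variable (c : Ctx G e b)
include c

theorem e_pos : 0 < e := c.elim fun _ d => d.e_pos

theorem e_le : e ≤ 1 / 1000 := c.elim fun _ d => d.e_le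

theorem large : 1 ≤ e ^ 10000 * nn V := c.elim fun _ d => d.large

theorem n_pos : 0 < nn V := c.elim fun _ d => d.n_pos

theorem scale {a : ℕ} (ha : a < 10000) : 1000 ≤ e ^ a * nn V := c.elim fun _ d => d.scale ha

theorem gap {a d : ℕ} (had : a < d) : 1000 * (e ^ d * nn V) ≤ e ^ a * nn V :=
  c.elim fun _ d => d.gap had

theorem gap1 {d : ℕ} (hd : 1 < d) : 1000 * (e ^ d * nn V) ≤ e * nn V :=
  c.elim fun _ d => d.gap1 hd

theorem s_large : 1000 ≤ e * nn V := c.elim fun _ d => d.s_large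

theorem s_le : 1000 * (e * nn V) ≤ nn V := c.elim fun _ d => by
  linarith [d.en_le, d.hn_le, d.s_large]

theorem nonempty : Nonempty V := c.elim fun _ d => d.nonempty

theorem big_nbrs (x : V) : e * nn V ≤ cnt fun y => G.Adj x y ∧ Big G e b y :=
  c.elim fun _ d => by linarith [d.big_nbrs x, d.en_le, d.s_large]

theorem codeg_big {y : V} (hy : Big G e b y) (x : V) :
    2 * (e * nn V) ≤ cnt fun z => G.Adj x z ∧ G.Adj y z :=
  c.elim fun _ d => by linarith [d.codeg_big hy x, d.en_le, d.s_large]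

theorem top : 2 * e ^ 61 * nn V < cnt (TopU G e) :=
  cnt_topU (by linarith [c.gap1 (d := 61) (by norm_num), c.s_le, c.s_large])

theorem exc : cnt (fun x => ¬ NotExc G e x) ≤ 2 * e ^ 61 * nn V := cnt_exc c.e_pos

end Ctx

end Pool.Agent.MP_c1b6d0_co.H73.V2
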