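import Pool.Agent.MP_c1b6d0_co.H73.C1
import Pool.Agent.MP_c1b6d0_co.V2.Basic

/-! Part 2, row C1: every vertex has few candidate neighbours that are not good. -/

open Finset
open scoped Classical

namespace Pool.Agent.MP_c1b6d0_co.H73.V2

namespace C1x

variable {V : Type} [Fintype V] {G : SimpleGraph V} {e b : ℝ}

theorem port {g k p : V} (hb : Big G e b g ∨ Big G e b p) (g1 : FineV G e g) (p1 : FineV G e p)
    (g2 : NotExc G e g) (p2 : NotExc G e p) (gk : FineE G e g k) (pg : FineE G e p g)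
    (hn : Nice G e g k p) : Port G e b g k p :=
  hb.elim (fun a => Or.inl ⟨a, g1, g2, gk, hn⟩) fun a => Or.inr ⟨a, p1, p2, pg, hn.rot'⟩

theorem many_u (h : Ctx G e b) {x y : V} (hy : Cand G e b x y) :
    e * nn V ≤ cnt fun u => G.Adj x u ∧ G.Adj y u ∧ (Big G e b y ∨ Big G e b u) := by
  rcases hy.2 with a | a
  · have h1 := h.codeg_big a x
    have h2 := h.s_large
    refine le_trans (by linarith) (h1.trans (cnt_mono fun u hu => ⟨hu.1, hu.2, Or.inl a⟩))
  · exact a.trans (cnt_mono fun u hu => ⟨hu.1, hu.2.1, Or.inr hu.2.2⟩)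

theorem many_w (h : Ctx G e b) {y u : V} (hb : Big G e b y ∨ Big G e b u) :
    2 * (e * nn V) ≤ cnt fun w => G.Adj u w ∧ G.Adj y w := by
  rcases hb with a | a
  · exact h.codeg_big a u
  · exact (h.codeg_big a y).trans (cnt_mono fun w hw => ⟨hw.2, hw.1⟩)

end C1x

open H73.C1x in
theorem C1 (hA : A1_stmt) (h2 : A2_stmt) : C1_stmt := by
  intro V _ G e b h x
  by_contra hc
  rw [not_le] at hc
  have := h.nonempty
  have he := h.e_pos
  have hn := h.n_pos
  obtain ⟨A3, A2, A1⟩ := hA V G e he h.e_le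
  have s0 : 0 ≤ 2 * (e * nn V) := by positivity
  have s1 : 0 ≤ e * nn V := by positivity
  have t1 := tri_lower (q := fun y u => G.Adj x u ∧ G.Adj y u ∧ (Big G e b y ∨ Big G e b u))
    (r := fun y u w => G.Adj u w ∧ G.Adj y w) s1 s0 hc.le
    (fun y hy => C1x.many_u h hy.1) fun y u _ hu => C1x.many_w h hu.2.2
  have t2 := h2 V (fun y u w => (Cand G e b x y ∧ ¬ Good G e b x y) ∧
    (G.Adj x u ∧ G.Adj y u ∧ (Big G e b y ∨ Big G e b u)) ∧ G.Adj u w ∧ G.Adj y w) (e ^ 5) 7
    {3, 5, 6} {0, 1} {2, 4}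
    (by positivity) (by decide) (by decide) (by decide) (le_trans (by
      have : 0 ≤ e ^ 5 * nn V ^ 3 := by positivity
      have e1 : 2 * e ^ 3 * nn V * (e * nn V * (2 * (e * nn V))) = 4 * (e ^ 5 * nn V ^ 3) := by
        ring
      linarith) t1)
  rw [show ({3, 5, 6} : Finset (Fin 7)).card * ({0, 1} : Finset (Fin 7)).card *
    ({2, 4} : Finset (Fin 7)).card = 12 by decide, ← pow_mul] at t2
  have f1 := fib4 (m := 7) hn (i := 0) (j := 0) (k := 0) (l := 3) (by decide) (by decide)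
    (by decide) (fun _ _ _ y => ¬ FineV G e y) fun _ _ _ => A1
  have f10 := fib4 (m := 7) hn (i := 3) (j := 3) (k := 3) (l := 0) (by decide) (by decide)
    (by decide) (fun _ _ _ y => ¬ FineV G e y) fun _ _ _ => A1
  have f11 := fib4 (m := 7) hn (i := 3) (j := 3) (k := 3) (l := 1) (by decide) (by decide)
    (by decide) (fun _ _ _ y => ¬ FineV G e y) fun _ _ _ => A1
  have f12 := fib4 (m := 7) hn (i := 0) (j := 0) (k := 0) (l := 3) (by decide) (by decide)
    (by decide) (fun _ _ _ y => ¬ NotExc G e y) fun _ _ _ => h.exc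
  have f13 := fib4 (m := 7) hn (i := 3) (j := 3) (k := 3) (l := 0) (by decide) (by decide)
    (by decide) (fun _ _ _ y => ¬ NotExc G e y) fun _ _ _ => h.exc
  have f14 := fib4 (m := 7) hn (i := 3) (j := 3) (k := 3) (l := 1) (by decide) (by decide)
    (by decide) (fun _ _ _ y => ¬ NotExc G e y) fun _ _ _ => h.exc
  have f15 := fibk (m := 7) hn ![0, 3] (by decide) A2
  have f16 := fibk (m := 7) hn ![1, 3] (by decide) A2
  have f2 := fibk (m := 7) hn ![3, 4] (by decide) A2
  have f3 := fibk (m := 7) hn ![3, 4, 0] (by decide) A3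
  have f4 := fibk (m := 7) hn ![3, 4, 1] (by decide) A3
  have f5 := fib4 (m := 7) hn (i := 0) (j := 1) (k := 2) (l := 6) (by decide) (by decide)
    (by decide) _ fun u v w => small_codeg G (c := e ^ 61 * nn V) (by positivity) u v w
  have f6 := fib4 (m := 7) hn (i := 0) (j := 1) (k := 3) (l := 2) (by decide) (by decide)
    (by decide) _ (bad_centre G he hn)
  have f7 := fib4 (m := 7) hn (i := 0) (j := 1) (k := 5) (l := 2) (by decide) (by decide)
    (by decide) _ (bad_centre G he hn)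
  have f8 := fib4 (m := 7) hn (i := 0) (j := 1) (k := 6) (l := 2) (by decide) (by decide)
    (by decide) _ (bad_centre G he hn)
  have f9 : cnt (fun f : Fin 7 → V => ¬ Good G e b x (f 6) ∧
      ColT G e b (fun j => f j.castSucc) ∧ Hit G e (fun j => f j.castSucc) x (f 6)) ≤
      e ^ 61 * nn V ^ 7 := by
    have g1 := pairs_le_nn_mul (R := fun (y : V) (g : Fin 6 → V) => ¬ Good G e b x y ∧
      ColT G e b g ∧ Hit G e g x y) (c := e ^ 61 * nn V ^ 6) fun y => by
        by_cases hy : Good G e b x y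
        · refine le_trans (cnt_mono (q := fun _ => False) fun g hg => hg.1 hy) ?_
          rw [cnt_false]
          positivity
        · exact le_trans (cnt_mono fun g hg => hg.2) (not_le.1 hy).le
    refine le_trans (cnt_le_of_inj (fun f => (f 6, fun j : Fin 6 => f j.castSucc))
      (fun f hf => hf) fun f g _ _ hfg => ?_) (g1.trans_eq (by ring))
    funext i
    refine Fin.lastCases ?_ (fun j => ?_) i
    · exact congrArg Prod.fst hfg
    · exact congrFun (congrArg Prod.snd hfg) j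
  have g1 := (cnt_or_le _ _).trans (add_le_add f7 f8)
  have g2 := (cnt_or_le _ _).trans (add_le_add f6 g1)
  have g3 := (cnt_or_le _ _).trans (add_le_add f5 g2)
  have g4 := (cnt_or_le _ _).trans (add_le_add f4 g3)
  have g5 := (cnt_or_le _ _).trans (add_le_add f3 g4)
  have g6 := (cnt_or_le _ _).trans (add_le_add f2 g5)
  have g7 := (cnt_or_le _ _).trans (add_le_add f1 g6)
  have g8 := (cnt_or_le _ _).trans (add_le_add f9 g7)
  have g9 := (cnt_or_le _ _).trans (add_le_add f10 g8)
  have g10 := (cnt_or_le _ _).trans (add_le_add f11 g9)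
  have g11 := (cnt_or_le _ _).trans (add_le_add f12 g10)
  have g12 := (cnt_or_le _ _).trans (add_le_add f13 g11)
  have g13 := (cnt_or_le _ _).trans (add_le_add f14 g12)
  have g14 := (cnt_or_le _ _).trans (add_le_add f15 g13)
  have g15 := (cnt_or_le _ _).trans (add_le_add f16 g14)
  have key := t2.trans ((cnt_mono fun f hf => ?_).trans g15)
  · have p7 := (pow_pos hn 7).le
    have a1 := pow_gap_mul he h.e_le p7 (show 5 * 12 < 61 by norm_num)
    have a2 := pow_gap_mul he h.e_le p7 (show 61 < 62 by norm_num)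
    have a3 := pow_gap_mul he h.e_le p7 (show 61 < 65 by norm_num)
    have a4 := pow_gap_mul he h.e_le p7 (show 61 < 69 by norm_num)
    have a5 : 0 < e ^ 61 * nn V ^ 7 := by positivity
    linarith
  · obtain ⟨-, ⟨x0, a30, b0⟩, a02, a32⟩ := hf 3 (by decide) 0 (by decide) 2 (by decide)
    obtain ⟨-, ⟨x1, a31, b1⟩, a14, a34⟩ := hf 3 (by decide) 1 (by decide) 4 (by decide)
    obtain ⟨-, ⟨-, a50, -⟩, a04, a54⟩ := hf 5 (by decide) 0 (by decide) 4 (by decide)
    obtain ⟨-, ⟨-, a51, -⟩, a12, a52⟩ := hf 5 (by decide) 1 (by decide) 2 (by decide)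
    obtain ⟨⟨-, ng⟩, ⟨-, a60, -⟩, -, a62⟩ := hf 6 (by decide) 0 (by decide) 2 (by decide)
    obtain ⟨-, ⟨-, a61, -⟩, -, -⟩ := hf 6 (by decide) 1 (by decide) 2 (by decide)
    by_contra hno
    simp only [not_or] at hno
    obtain ⟨n16, n15, n14, n13, n12, n11, n10, n9, n1, n2, n3, n4, n5, n6, n7, n8⟩ := hno
    have k1 : FineV G e (f 3) := not_not.1 n1
    have k10 : FineV G e (f 0) := not_not.1 n10
    have k11 : FineV G e (f 1) := not_not.1 n11
    have k12 : NotExc G e (f 3) := not_not.1 n12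
    have k13 : NotExc G e (f 0) := not_not.1 n13
    have k14 : NotExc G e (f 1) := not_not.1 n14
    have k15 : FineE G e (f 0) (f 3) := by
      by_contra a
      exact n15 ⟨a30.symm, a⟩
    have k16 : FineE G e (f 1) (f 3) := by
      by_contra a
      exact n16 ⟨a31.symm, a⟩
    have k2 : FineE G e (f 3) (f 4) := by
      by_contra a
      exact n2 ⟨a34, a⟩
    have k3 : Nice G e (f 3) (f 4) (f 0) := by
      by_contra a
      exact n3 ⟨a34, a30, a04.symm, a⟩
    have k4 : Nice G e (f 3) (f 4) (f 1) := by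
      by_contra a
      exact n4 ⟨a34, a31, a14.symm, a⟩
    have k5 : e ^ 61 * nn V ≤ cnt fun z => G.Adj (f 0) z ∧ G.Adj (f 1) z ∧ G.Adj (f 2) z :=
      not_lt.1 fun a => n5 ⟨⟨a60.symm, a61.symm, a62.symm⟩, a⟩
    have k6 : Cl G e (f 0) (f 1) (f 2) (f 3) := by
      by_contra a
      exact n6 ⟨a30.symm, a31.symm, a02, a12, a32, a⟩
    have k7 : Cl G e (f 0) (f 1) (f 2) (f 5) := by
      by_contra a
      exact n7 ⟨a50.symm, a51.symm, a02, a12, a52, a⟩
    have k8 : Cl G e (f 0) (f 1) (f 2) (f 6) := by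
      by_contra a
      exact n8 ⟨a60.symm, a61.symm, a02, a12, a62, a⟩
    exact n9 ⟨ng, ⟨C1x.port b0 k1 k10 k12 k13 k2 k15 k3, C1x.port b1 k1 k11 k12 k14 k2 k16 k4,
      a54.symm, k5, k6, k7⟩, x0.symm, x1.symm, k8⟩

end Pool.Agent.MP_c1b6d0_co.H73.V2
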