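import Pool.Agent.MP_c1b6d0_co.V2.Basic

/-! Row CLQ: the clique lemma. -/

open Finset
open scoped Classical

namespace Pool.Agent.MP_c1b6d0_co.H73.V2

namespace CLQx

variable {V : Type} [Fintype V]

theorem union_le (P : V → V → Prop) (K : Finset V) :
    cnt (fun z => ∃ x ∈ K, P x z) ≤ ∑ x ∈ K, cnt (P x) := by
  induction K using Finset.induction_on with
  | empty =>
    rw [sum_empty, ← cnt_false (α := V)]
    exact cnt_mono fun z hz => by simp at hz
  | insert a K ha ih =>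
    rw [sum_insert ha]
    have h1 : cnt (fun z => ∃ x ∈ insert a K, P x z) ≤
        cnt (P a) + cnt (fun z => ∃ x ∈ K, P x z) :=
      cnt_le_add fun z hz => by
        obtain ⟨x, hx, hp⟩ := hz
        rcases mem_insert.1 hx with rfl | hx
        · exact Or.inl hp
        · exact Or.inr ⟨x, hx, hp⟩
    linarith

theorem bonf (D : V → V → Prop) (c : ℝ) (hc : 0 ≤ c) (K : Finset V)
    (hK : ∀ x ∈ K, ∀ y ∈ K, x ≠ y → cnt (fun z => D x z ∧ D y z) ≤ c) :
    ∑ x ∈ K, cnt (D x) - (K.card : ℝ) ^ 2 * c ≤ cnt (fun z => ∃ x ∈ K, D x z) := by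
  induction K using Finset.induction_on with
  | empty =>
    have := cnt_nonneg (fun z => ∃ x ∈ (∅ : Finset V), D x z)
    simpa using this
  | insert a K ha ih =>
    have ih' := ih fun x hx y hy hxy => hK x (mem_insert_of_mem hx) y (mem_insert_of_mem hy) hxy
    rw [sum_insert ha, card_insert_of_notMem ha]
    have h1 := cnt_and_add_or (D a) (fun z => ∃ x ∈ K, D x z)
    have h2 : cnt (fun z => D a z ∨ ∃ x ∈ K, D x z) ≤ cnt (fun z => ∃ x ∈ insert a K, D x z) :=
      cnt_mono fun z hz => by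
        rcases hz with hz | ⟨x, hx, hz⟩
        · exact ⟨a, mem_insert_self _ _, hz⟩
        · exact ⟨x, mem_insert_of_mem hx, hz⟩
    have h3 : cnt (fun z => D a z ∧ ∃ x ∈ K, D x z) ≤
        cnt (fun z => ∃ x ∈ K, D a z ∧ D x z) :=
      cnt_mono fun z hz => by
        obtain ⟨h0, x, hx, hz⟩ := hz
        exact ⟨x, hx, h0, hz⟩
    have h4 := union_le (fun x z => D a z ∧ D x z) K
    have h5 : ∑ x ∈ K, cnt (fun z => D a z ∧ D x z) ≤ (K.card : ℝ) * c := by
      have := sum_le_card_nsmul K (fun x => cnt (fun z => D a z ∧ D x z)) c fun x hx =>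
        hK a (mem_insert_self _ _) x (mem_insert_of_mem hx) (fun h => ha (h ▸ hx))
      simpa [nsmul_eq_mul] using this
    have h6 : (0 : ℝ) ≤ (K.card : ℝ) * c := mul_nonneg (Nat.cast_nonneg _) hc
    push_cast
    nlinarith

end CLQx

theorem CLQ : CLQ_stmt := by
  intro V _ A J D Z n h τ hn h0 h1 hA hsym hirr hZ hJ hτ hD
  have hn1 : (1 : ℝ) ≤ n := by
    obtain ⟨a, _⟩ := hA
    have := one_le_cnt (p := fun _ : V => True) (x := a) trivial
    rw [cnt_true] at this
    linarith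
  have hn0 : (0 : ℝ) < n := by linarith
  have hc : 0 ≤ h ^ 5 * n := by positivity
  have hhn : 0 < h * n := by positivity
  set F : Finset (Finset V) :=
    A.powerset.filter (fun K => ∀ x ∈ K, ∀ y ∈ K, x ≠ y → J x y) with hF
  have hmem : ∀ K, K ∈ F ↔ K ⊆ A ∧ ∀ x ∈ K, ∀ y ∈ K, x ≠ y → J x y := by
    intro K; simp [hF]
  obtain ⟨a, ha⟩ := hA
  have hFa : ({a} : Finset V) ∈ F := by
    rw [hmem]
    refine ⟨by simpa using ha, fun x hx y hy hxy => ?_⟩
    rw [mem_singleton] at hx hy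
    exact absurd (hx.trans hy.symm) hxy
  obtain ⟨K, hKF, hmax⟩ := exists_max_image F card ⟨_, hFa⟩
  obtain ⟨hKA, hKJ⟩ := (hmem K).1 hKF
  have hk1 : (1 : ℝ) ≤ K.card := by
    have := hmax _ hFa
    rw [card_singleton] at this
    exact_mod_cast this
  have hDτ : ∀ x ∈ A, τ ≤ cnt (D x) := fun x hx => by
    have := hD x hx
    have := cnt_nonneg (fun y => y ∈ A ∧ ¬ J x y)
    linarith
  have hh2 : h ^ 2 ≤ 1 / 1000000 := by nlinarith
  have hh3 : h ^ 3 ≤ h / 1000000 := by nlinarith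
  have hk2 : (K.card : ℝ) * h ≤ 2 := by
    by_contra hcon
    push Not at hcon
    have hlt : 2 / h ≤ (K.card : ℝ) := by
      rw [div_le_iff₀ h0]; exact hcon.le
    obtain ⟨K0, hK0, hcard⟩ := exists_subset_card_eq (Nat.ceil_le.2 hlt)
    have hb := CLQx.bonf D (h ^ 5 * n) hc K0 fun x hx y hy hxy =>
      hJ x (hKA (hK0 hx)) y (hKA (hK0 hy)) (hKJ x (hK0 hx) y (hK0 hy) hxy)
    have hs : (K0.card : ℝ) * τ ≤ ∑ x ∈ K0, cnt (D x) := by
      have := card_nsmul_le_sum K0 (fun x => cnt (D x)) τ fun x hx => hDτ x (hKA (hK0 hx))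
      simpa [nsmul_eq_mul] using this
    have hle := cnt_le_nn (fun z => ∃ x ∈ K0, D x z)
    have hlo : 2 ≤ (K0.card : ℝ) * h := by
      rw [hcard, ← div_le_iff₀ h0]; exact Nat.le_ceil _
    have hhi : (K0.card : ℝ) * h ≤ 3 := by
      have h2 : (0 : ℝ) ≤ 2 / h := by positivity
      have h3 := (Nat.ceil_lt_add_one h2).le
      rw [← hcard] at h3
      have h4 : (K0.card : ℝ) * h ≤ (2 / h + 1) * h := mul_le_mul_of_nonneg_right h3 h0.le
      have h5 : (2 / h + 1) * h = 2 + h := by field_simp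
      linarith
    have hk0 : (0 : ℝ) ≤ K0.card := Nat.cast_nonneg _
    have e1 : (K0.card : ℝ) * (h * n) ≤ K0.card * τ := mul_le_mul_of_nonneg_left hτ hk0
    have e2 : 2 * n ≤ (K0.card : ℝ) * (h * n) := by nlinarith
    have e3 : ((K0.card : ℝ) * h) ^ 2 ≤ 9 := by nlinarith
    have e4 : (K0.card : ℝ) ^ 2 * (h ^ 5 * n) = ((K0.card : ℝ) * h) ^ 2 * (h ^ 3 * n) := by ring
    have e5 : ((K0.card : ℝ) * h) ^ 2 * (h ^ 3 * n) ≤ 9 * (h ^ 3 * n) :=
      mul_le_mul_of_nonneg_right e3 (by positivity)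
    have e6 : h ^ 3 * n ≤ 1 / 1000 * n := mul_le_mul_of_nonneg_right (by linarith) hn0.le
    linarith
  have hb := CLQx.bonf D (h ^ 5 * n) hc K fun x hx y hy hxy =>
    hJ x (hKA hx) y (hKA hy) (hKJ x hx y hy hxy)
  have hZ' : cnt (fun z => ∃ x ∈ K, D x z) ≤ cnt Z :=
    cnt_mono fun z hz => by
      obtain ⟨x, hx, hz⟩ := hz
      exact hZ x (hKA hx) z hz
  have hcov : (A.card : ℝ) ≤ cnt (fun y => ∃ x ∈ K, y ∈ A ∧ ¬ J x y) := by
    refine card_le_cnt A fun y hy => ?_
    by_cases hyK : y ∈ K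
    · exact ⟨y, hyK, hy, hirr y⟩
    · by_contra hcon
      push Not at hcon
      have hin : insert y K ∈ F := by
        rw [hmem]
        refine ⟨insert_subset hy hKA, fun u hu v hv huv => ?_⟩
        rcases mem_insert.1 hu with rfl | hu'
        · rcases mem_insert.1 hv with rfl | hv'
          · exact absurd rfl huv
          · exact hsym _ _ (hcon v hv' hy)
        · rcases mem_insert.1 hv with rfl | hv'
          · exact hcon u hu' hy
          · exact hKJ u hu' v hv' huv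
      have := hmax _ hin
      rw [card_insert_of_notMem hyK] at this
      omega
  have hu := CLQx.union_le (fun x y => y ∈ A ∧ ¬ J x y) K
  have hs : ∑ x ∈ K, cnt (fun y => y ∈ A ∧ ¬ J x y) + (K.card : ℝ) * τ ≤
      ∑ x ∈ K, cnt (D x) := by
    have := sum_le_sum (s := K) (f := fun x => cnt (fun y => y ∈ A ∧ ¬ J x y) + τ)
      (g := fun x => cnt (D x)) fun x hx => hD x (hKA hx)
    rw [sum_add_distrib, sum_const, nsmul_eq_mul] at this
    exact this
  have hτ0 : 0 ≤ τ := by linarith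
  have e1 : τ ≤ (K.card : ℝ) * τ := by nlinarith
  have hkh : 0 ≤ (K.card : ℝ) * h := by positivity
  have e3 : ((K.card : ℝ) * h) ^ 2 ≤ 4 := by nlinarith
  have e4 : (K.card : ℝ) ^ 2 * (h ^ 5 * n) = ((K.card : ℝ) * h) ^ 2 * (h ^ 3 * n) := by ring
  have e5 : ((K.card : ℝ) * h) ^ 2 * (h ^ 3 * n) ≤ 4 * (h ^ 3 * n) :=
    mul_le_mul_of_nonneg_right e3 (by positivity)
  have e6 : h ^ 3 * n ≤ h / 1000000 * n := mul_le_mul_of_nonneg_right hh3 hn0.le
  have e7 : h / 1000000 * n = (h * n) / 1000000 := by ring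
  linarith

end Pool.Agent.MP_c1b6d0_co.H73.V2
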