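import Pool.Agent.MP_c1b6d0_co.H73.EUL

/-! Row CONV: the equality case of the sweep proof of the Euler bound. In a straight-line drawing
with `3n - 6` edges, an independent set does not separate the graph. -/

open Finset
open scoped Classical

namespace Pool.Agent.MP_c1b6d0_co.H73.V2

namespace CONVx

open EULaux

variable {V : Type} {H : SimpleGraph V} {X Y : V → ℝ}

lemma ln_flip (Y : V → ℝ) {a b : V} (h : X a < X b) (t : ℝ) :
    ln (fun v => - X v) Y b a t = ln X Y a b (- t) := by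
  have h1 : X b - X a ≠ 0 := by linarith
  have h2 : - X a - - X b ≠ 0 := by linarith
  have h3 : - X a - - X b = X b - X a := by ring
  unfold ln sl
  rw [h3]
  field_simp
  ring

lemma sw_flip (h : Sw H X Y) : Sw H (fun v => - X v) Y := by
  refine ⟨fun a b e => h.inj (neg_injective e), fun a b z h1 h2 h3 e => ?_,
    fun a b c d t h1 h2 h3 h4 h5 h6 e => ?_⟩
  · rw [ln_flip Y (show X b < X a by linarith), neg_neg] at e
    exact h.n1 b a z h1.symm (by linarith) (by linarith) e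
  · rw [ln_flip Y (show X b < X a by linarith), ln_flip Y (show X d < X c by linarith)] at e
    have := h.n2 b a d c (- t) h1.symm h2.symm (by linarith) (by linarith) (by linarith)
      (by linarith) e
    exact ⟨this.2, this.1⟩

/-- `v u` is the edge directly below `z` -/
def Below (H : SimpleGraph V) (X Y : V → ℝ) (z v u : V) : Prop :=
  H.Adj v u ∧ X v < X z ∧ X z < X u ∧ ln X Y v u (X z) < Y z ∧
    ∀ a b, H.Adj a b → X a < X z → X z < X b → ln X Y a b (X z) < Y z →
      ln X Y v u (X z) ≤ ln X Y a b (X z) → a = v ∧ b = u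

lemma Below.unique {z v u v' u' : V} (h : Below H X Y z v u) (h' : Below H X Y z v' u') :
    v' = v ∧ u' = u := by
  obtain ⟨f0, f1, f2, f3, f4⟩ := h
  obtain ⟨g0, g1, g2, g3, g4⟩ := h'
  rcases le_total (ln X Y v u (X z)) (ln X Y v' u' (X z)) with k | k
  · exact f4 v' u' g0 g1 g2 g3 k
  · have := g4 v u f0 f1 f2 f3 k
    exact ⟨this.1.symm, this.2.symm⟩

lemma Below.flip {z v u : V} (h : Below H X Y z v u) : Below H (fun v => - X v) Y z u v := by
  obtain ⟨f0, f1, f2, f3, f4⟩ := h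
  have hvu : X v < X u := by linarith
  refine ⟨f0.symm, by linarith, by linarith, ?_, fun a b a0 a1 a2 a3 a4 => ?_⟩
  · rw [ln_flip Y hvu, neg_neg]; exact f3
  · have hba : X b < X a := by linarith
    rw [ln_flip Y hba, neg_neg] at a3
    rw [ln_flip Y hvu, ln_flip Y hba, neg_neg] at a4
    have := f4 b a a0.symm (by linarith) (by linarith) a3 a4
    exact ⟨this.2, this.1⟩

/-- every vertex that is not rightmost has a right neighbour -/
def HasR (H : SimpleGraph V) (X : V → ℝ) : Prop :=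
  ∀ v w, X v < X w → ∃ u, H.Adj v u ∧ X v < X u

/-- every vertex that is not leftmost has a left neighbour -/
def HasL (H : SimpleGraph V) (X : V → ℝ) : Prop :=
  ∀ v w, X w < X v → ∃ u, H.Adj v u ∧ X u < X v

lemma empty_wedge [Fintype V] (h : Sw H X Y) (hL : HasL H X) {v w u : V}
    (hw : Wd H X Y v w u) (hx : X w < X u) (a : V) (a1 : X v < X a) (a2 : X a ≤ X w)
    (a3 : ln X Y v u (X a) ≤ Y a) (a4 : Y a ≤ ln X Y v w (X a)) : X w ≤ X a := by
  obtain ⟨h1, h2, h3, h4, h5, h6⟩ := hw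
  obtain ⟨z, hz, hmin⟩ := exists_min_image
    (univ.filter fun z => X v < X z ∧ X z ≤ X w ∧ ln X Y v u (X z) ≤ Y z ∧ Y z ≤ ln X Y v w (X z))
    X ⟨a, by
      simp only [mem_filter, mem_univ, true_and]
      exact ⟨a1, a2, a3, a4⟩⟩
  simp only [mem_filter, mem_univ, true_and] at hz hmin
  obtain ⟨z1, z2, z3, z4⟩ := hz
  have hza := hmin a ⟨a1, a2, a3, a4⟩
  by_contra hc
  have z5 : X z < X w := by linarith
  have z6 : X z < X u := by linarith
  have z7 : ln X Y v u (X z) < Y z := lt_of_le_of_ne z3 (h.n1 v u z h2 z1 z6).symm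
  have z8 : Y z < ln X Y v w (X z) := lt_of_le_of_ne z4 (h.n1 v w z h1 z1 z5)
  obtain ⟨y, y1, y2⟩ := hL z v z1
  have hyz : H.Adj y z := y1.symm
  have e1 : ln X Y y z (X z) = Y z := ln_right Y y2
  rcases lt_trichotomy (X y) (X v) with hl | hl | hl
  · rcases lt_or_gt_of_ne (h.n1 y z v hyz hl z1) with k | k
    · exact h.cross h1 hyz le_rfl hl.le z1 z2 le_rfl (by rw [ln_left]; exact k)
        (by rw [e1]; exact z8)
    · exact h.cross hyz h2 hl.le le_rfl z1 le_rfl z6.le (by rw [ln_left]; exact k)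
        (by rw [e1]; exact z7)
  · obtain rfl := h.inj hl
    rw [← e1] at z7 z8
    unfold ln at z7 z8
    exact h6 z hyz z1 (by nlinarith) (by nlinarith)
  · by_cases k1 : ln X Y v u (X y) ≤ Y y
    · by_cases k2 : Y y ≤ ln X Y v w (X y)
      · have := hmin y ⟨hl, by linarith, k1, k2⟩
        linarith
      · exact h.cross h1 hyz hl.le le_rfl y2 z2 le_rfl (by rw [ln_left]; linarith)
          (by rw [e1]; exact z8)
    · exact h.cross hyz h2 le_rfl hl.le y2 le_rfl z6.le (by rw [ln_left]; linarith)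
        (by rw [e1]; exact z7)

lemma wd_below [Fintype V] (h : Sw H X Y) (hL : HasL H X) {v w u : V}
    (hw : Wd H X Y v w u) (hx : X w < X u) : Below H X Y w v u := by
  have hmin := empty_wedge h hL hw hx
  obtain ⟨h1, h2, h3, h4, h5, h6⟩ := hw
  have e1 : ln X Y v w (X w) = Y w := ln_right Y h3
  refine ⟨h2, h3, hx, ?_, ?_⟩
  · rw [← e1]; unfold ln; nlinarith
  intro a b hab a1 a2 a3 a4
  rcases a4.eq_or_lt with e | a4
  · exact h.n2 a b v u _ hab h2 a1 a2 h3 hx e.symm
  exfalso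
  have a5 : ln X Y a b (X w) < ln X Y v w (X w) := by linarith
  rcases lt_trichotomy (X a) (X v) with hl | hl | hl
  · rcases lt_or_gt_of_ne (h.n1 a b v hab hl (by linarith)) with k | k
    · exact h.cross h1 hab le_rfl hl.le h3 le_rfl a2.le (by rw [ln_left]; exact k) a5
    · exact h.cross hab h2 hl.le le_rfl h3 a2.le hx.le (by rw [ln_left]; exact k) a4
  · obtain rfl := h.inj hl
    unfold ln at a4 a5
    exact h6 b hab (by linarith) (by nlinarith) (by nlinarith)
  · by_cases k1 : ln X Y v u (X a) ≤ Y a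
    · by_cases k2 : Y a ≤ ln X Y v w (X a)
      · have := hmin a hl a1.le k1 k2
        linarith
      · exact h.cross h1 hab hl.le le_rfl a1 le_rfl a2.le (by rw [ln_left]; linarith) a5
    · exact h.cross hab h2 le_rfl hl.le a1 a2.le hx.le (by rw [ln_left]; linarith) a4

lemma card_edges' [Fintype V] (h : Sw H X Y) :
    (univ.filter fun t : V × V => H.Adj t.1 t.2 ∧ X t.1 < X t.2).card ≤
      (univ.filter fun v => ∃ u, H.Adj v u ∧ X v < X u).card +
      (univ.filter fun t : V × V × V => Wd H X Y t.1 t.2.1 t.2.2).card := by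
  rw [← card_filter_add_card_filter_not
    (s := univ.filter fun t : V × V => H.Adj t.1 t.2 ∧ X t.1 < X t.2)
    (fun t => ¬ ∃ w, Wd H X Y t.1 w t.2)]
  refine add_le_add ?_ ?_
  · have top : ∀ v u u', H.Adj v u → X v < X u → H.Adj v u' → X v < X u' →
        sl X Y v u < sl X Y v u' → ∃ w, Wd H X Y v w u := by
      intro v u u' h1 h2 h3 h4 h5
      obtain ⟨w, hw, hmin⟩ := exists_min_image
        (univ.filter fun w => H.Adj v w ∧ X v < X w ∧ sl X Y v u < sl X Y v w) (sl X Y v)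
        ⟨u', by simp [h3, h4, h5]⟩
      simp only [mem_filter, mem_univ, true_and] at hw hmin
      exact ⟨w, hw.1, h1, hw.2.1, h2, hw.2.2, fun b b1 b2 b3 b4 => by
        have := hmin b ⟨b1, b2, b3⟩; linarith⟩
    refine card_le_card_of_injOn Prod.fst ?_ ?_
    · intro t ht
      simp only [coe_filter, mem_filter, mem_univ, true_and, Set.mem_setOf_eq] at ht ⊢
      exact ⟨t.2, ht.1⟩
    · rintro ⟨v, u⟩ ht ⟨v', u'⟩ ht' e
      simp only [coe_filter, mem_filter, mem_univ, true_and, Set.mem_setOf_eq] at ht ht' e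
      subst e
      have : u = u' := by
        rcases lt_trichotomy (sl X Y v u) (sl X Y v u') with k | k | k
        · exact absurd (top v u u' ht.1.1 ht.1.2 ht'.1.1 ht'.1.2 k) ht.2
        · exact h.sl_inj ht.1.1 ht'.1.1 ht.1.2 ht'.1.2 k
        · exact absurd (top v u' u ht'.1.1 ht'.1.2 ht.1.1 ht.1.2 k) ht'.2
      rw [this]
  · refine le_trans (card_le_card (t := (univ.filter fun t : V × V × V =>
      Wd H X Y t.1 t.2.1 t.2.2).image fun t => (t.1, t.2.2)) ?_) card_image_le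
    rintro ⟨v, u⟩ ht
    simp only [mem_filter, not_not] at ht
    obtain ⟨w, hw⟩ := ht.2
    exact mem_image.2 ⟨(v, w, u), by simpa using hw, rfl⟩

/-- some edge passes below `z` -/
def Dn (H : SimpleGraph V) (X Y : V → ℝ) (z : V) : Prop :=
  ∃ a b, H.Adj a b ∧ X a < X z ∧ X z < X b ∧ ln X Y a b (X z) < Y z

lemma tight [Fintype V] (h : Sw H X Y) (h3 : 3 ≤ Fintype.card V)
    (he : H.edgeSet.ncard + 6 = 3 * Fintype.card V) :
    HasR H X ∧
    (univ.filter fun z => ∃ a b, H.Adj a b ∧ X a < X z ∧ X z < X b ∧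
        ln X Y a b (X z) < Y z).card ≤
      (univ.filter fun t : V × V × V => Wd H X Y t.1 t.2.1 t.2.2 ∧ X t.2.1 < X t.2.2).card ∧
    ∀ z a b, X a < X z → X z < X b → Dn H X Y z ∨ Dn H X (fun v => - Y v) z := by
  haveI : Nonempty V := Fintype.card_pos_iff.1 (by omega)
  obtain ⟨p, _, hp⟩ := exists_min_image univ X univ_nonempty
  obtain ⟨q, _, hq⟩ := exists_max_image univ X univ_nonempty
  have hp' : ∀ v, X p ≤ X v := fun v => hp v (mem_univ v)
  have hq' : ∀ v, X v ≤ X q := fun v => hq v (mem_univ v)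
  have hpq : X p < X q := by
    by_contra hc
    have : Fintype.card V ≤ 1 := Fintype.card_le_one_iff.2 fun a b =>
      h.inj (by linarith [hp' a, hp' b, hq' a, hq' b])
    omega
  have hne : q ≠ p := fun e => by rw [e] at hpq; exact lt_irrefl _ hpq
  have c1 : (univ.erase q).card + 1 = Fintype.card V := card_erase_add_one (mem_univ q)
  have c2 : (univ.erase p).card + 1 = Fintype.card V := card_erase_add_one (mem_univ p)
  have c3 : ((univ.erase p).erase q).card + 1 = (univ.erase p).card :=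
    card_erase_add_one (by simp [hne])
  obtain ⟨z₀, h0⟩ : ((univ.erase p).erase q).Nonempty := card_pos.1 (by omega)
  have e1 : H.edgeSet.ncard ≤
      (univ.filter fun t : V × V => H.Adj t.1 t.2 ∧ X t.1 < X t.2).card := by
    rw [← Set.ncard_coe_finset]
    refine le_trans (Set.ncard_le_ncard (t := (fun t : V × V => s(t.1, t.2)) ''
      (univ.filter fun t : V × V => H.Adj t.1 t.2 ∧ X t.1 < X t.2 : Finset (V × V))) ?_)
      (Set.ncard_image_le (Finset.finite_toSet _))
    intro e he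
    induction e using Sym2.ind with
    | _ a b =>
      have hab : H.Adj a b := he
      rcases lt_or_gt_of_ne (fun e => hab.ne (h.inj e)) with k | k
      · exact ⟨(a, b), by simp [hab, k], rfl⟩
      · exact ⟨(b, a), by simp [hab.symm, k], Sym2.eq_swap⟩
  have e2 := card_edges' h
  have e3 : (univ.filter fun t : V × V × V => Wd H X Y t.1 t.2.1 t.2.2).card ≤
      (univ.filter fun t : V × V × V => Wd H X Y t.1 t.2.1 t.2.2 ∧ X t.2.1 < X t.2.2).card +
      (univ.filter fun t : V × V × V =>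
        Wd H X (fun v => - Y v) t.1 t.2.1 t.2.2 ∧ X t.2.1 < X t.2.2).card := by
    rw [← card_filter_add_card_filter_not
      (s := univ.filter fun t : V × V × V => Wd H X Y t.1 t.2.1 t.2.2)
      (fun t => X t.2.1 < X t.2.2)]
    refine add_le_add (le_of_eq (by rw [filter_filter])) ?_
    refine card_le_card_of_injOn (fun t => (t.1, t.2.2, t.2.1)) ?_ ?_
    · rintro ⟨v, w, u⟩ ht
      simp only [coe_filter, mem_filter, mem_univ, true_and, Set.mem_setOf_eq] at ht ⊢
      refine ⟨ht.1.neg, lt_of_le_of_ne (not_lt.1 ht.2) fun e => ?_⟩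
      have := ht.1.2.2.2.2.1
      rw [h.inj e] at this
      exact lt_irrefl _ this
    · rintro ⟨v, w, u⟩ _ ⟨v', w', u'⟩ _ e
      simp only [Prod.mk.injEq] at e ⊢
      tauto
  have d1 := card_down h
  have d2 := card_down h.neg
  have t1 := card_D H X Y hp' hq'
  have t2 := card_D H X (fun v => - Y v) hp' hq'
  have s1 := card_le_card t1
  have s2 := card_le_card t2
  have r1 : (univ.filter fun v => ∃ u, H.Adj v u ∧ X v < X u) ⊆ univ.erase q := by
    intro v hv
    simp only [mem_filter, mem_univ, true_and] at hv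
    obtain ⟨u, _, hu⟩ := hv
    simp only [mem_erase, mem_univ, and_true]
    rintro rfl
    linarith [hq' u]
  have r2 := card_le_card r1
  have hmem : ∀ z a b, X a < X z → X z < X b → z ∈ (univ.erase p).erase q := by
    intro z a b k1 k2
    simp only [mem_erase, mem_univ, and_true]
    constructor
    · rintro rfl; linarith [hq' b]
    · rintro rfl; linarith [hp' a]
  have fin1 : (univ.erase q).card ≤ (univ.filter fun v => ∃ u, H.Adj v u ∧ X v < X u).card →
      HasR H X := by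
    intro hc v w hvw
    have := eq_of_subset_of_card_le r1 hc
    have hv : v ∈ univ.erase q := by
      simp only [mem_erase, mem_univ, and_true]
      rintro rfl
      linarith [hq' w]
    rw [← this] at hv
    exact (mem_filter.1 hv).2
  rcases le_total (Y z₀) (ln X Y p q (X z₀)) with k | k
  · have := card_D' H X Y hp' hq' hpq h0 k
    refine ⟨fin1 (by omega), by omega, fun z a b k1 k2 => Or.inr ?_⟩
    have e := eq_of_subset_of_card_le t2 (by omega)
    have hz := hmem z a b k1 k2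
    rw [← e] at hz
    exact (mem_filter.1 hz).2
  · have := card_D' H X (fun v => - Y v) hp' hq' hpq h0 (by rw [ln_neg]; linarith)
    refine ⟨fin1 (by omega), by omega, fun z a b k1 k2 => Or.inl ?_⟩
    have e := eq_of_subset_of_card_le t1 (by omega)
    have hz := hmem z a b k1 k2
    rw [← e] at hz
    exact (mem_filter.1 hz).2

lemma hasL [Fintype V] (h : Sw H X Y) (h3 : 3 ≤ Fintype.card V)
    (he : H.edgeSet.ncard + 6 = 3 * Fintype.card V) : HasL H X := by
  intro v w hw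
  obtain ⟨u, u1, u2⟩ := (tight (sw_flip h) h3 he).1 v w (by simpa using hw)
  exact ⟨u, u1, by simpa using u2⟩

lemma onto [Fintype V] (h : Sw H X Y) (h3 : 3 ≤ Fintype.card V)
    (he : H.edgeSet.ncard + 6 = 3 * Fintype.card V) {z : V} (hz : Dn H X Y z) :
    ∃ v u, Wd H X Y v z u ∧ X z < X u := by
  have hL := hasL h h3 he
  have hc := (tight h h3 he).2.1
  have hsub : (univ.filter fun t : V × V × V =>
      Wd H X Y t.1 t.2.1 t.2.2 ∧ X t.2.1 < X t.2.2).image (fun t => t.2.1) ⊆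
      univ.filter fun z => ∃ a b, H.Adj a b ∧ X a < X z ∧ X z < X b ∧
        ln X Y a b (X z) < Y z := by
    intro w hw
    obtain ⟨t, ht, rfl⟩ := mem_image.1 hw
    obtain ⟨f0, f1, f2, f3, _⟩ := wd_below h hL (mem_filter.1 ht).2.1 (mem_filter.1 ht).2.2
    exact mem_filter.2 ⟨mem_univ _, t.1, t.2.2, f0, f1, f2, f3⟩
  have hinj : ((univ.filter fun t : V × V × V =>
      Wd H X Y t.1 t.2.1 t.2.2 ∧ X t.2.1 < X t.2.2).image (fun t => t.2.1)).card =
      (univ.filter fun t : V × V × V =>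
        Wd H X Y t.1 t.2.1 t.2.2 ∧ X t.2.1 < X t.2.2).card := by
    refine card_image_of_injOn ?_
    rintro ⟨v, w, u⟩ ht ⟨v', w', u'⟩ ht' e
    simp only [coe_filter, mem_univ, true_and, Set.mem_setOf_eq] at ht ht' e
    subst e
    obtain ⟨rfl, rfl⟩ := (wd_below h hL ht.1 ht.2).unique (wd_below h hL ht'.1 ht'.2)
    rfl
  have e := eq_of_subset_of_card_le hsub (by rw [hinj]; exact hc)
  have hz' : z ∈ univ.filter fun z => ∃ a b, H.Adj a b ∧ X a < X z ∧ X z < X b ∧
        ln X Y a b (X z) < Y z := mem_filter.2 ⟨mem_univ _, hz⟩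
  rw [← e] at hz'
  obtain ⟨t, ht, rfl⟩ := mem_image.1 hz'
  exact ⟨t.1, t.2.2, (mem_filter.1 ht).2⟩

lemma below_left [Fintype V] (h : Sw H X Y) (h3 : 3 ≤ Fintype.card V)
    (he : H.edgeSet.ncard + 6 = 3 * Fintype.card V) {z v u : V} (hb : Below H X Y z v u) :
    H.Adj v z := by
  obtain ⟨v', u', hw, hx⟩ := onto h h3 he ⟨v, u, hb.1, hb.2.1, hb.2.2.1, hb.2.2.2.1⟩
  obtain ⟨rfl, rfl⟩ := hb.unique (wd_below h (hasL h h3 he) hw hx)
  exact hw.1

lemma below_right [Fintype V] (h : Sw H X Y) (h3 : 3 ≤ Fintype.card V)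
    (he : H.edgeSet.ncard + 6 = 3 * Fintype.card V) {z v u : V} (hb : Below H X Y z v u) :
    H.Adj u z := below_left (sw_flip h) h3 he hb.flip

lemma wd_adj [Fintype V] (h : Sw H X Y) (h3 : 3 ≤ Fintype.card V)
    (he : H.edgeSet.ncard + 6 = 3 * Fintype.card V) {v w u : V} (hw : Wd H X Y v w u) :
    H.Adj w u := by
  rcases lt_trichotomy (X w) (X u) with k | k | k
  · exact (below_right h h3 he (wd_below h (hasL h h3 he) hw k)).symm
  · have := hw.2.2.2.2.1
    rw [h.inj k] at this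
    exact absurd this (lt_irrefl _)
  · exact below_right h.neg h3 he (wd_below h.neg (hasL h h3 he) hw.neg k)

lemma dn_tri [Fintype V] (h : Sw H X Y) (h3 : 3 ≤ Fintype.card V)
    (he : H.edgeSet.ncard + 6 = 3 * Fintype.card V) {z : V} (hz : Dn H X Y z) :
    ∃ a b, H.Adj z a ∧ H.Adj z b ∧ H.Adj a b ∧ X a < X z ∧ X z < X b := by
  obtain ⟨v, u, hw, hx⟩ := onto h h3 he hz
  exact ⟨v, u, hw.1.symm, wd_adj h h3 he hw, hw.2.1, hw.2.2.1, hx⟩

lemma mid_tri [Fintype V] (h : Sw H X Y) (h3 : 3 ≤ Fintype.card V)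
    (he : H.edgeSet.ncard + 6 = 3 * Fintype.card V) {z x y : V} (h1 : X x < X z)
    (h2 : X z < X y) : ∃ a b, H.Adj z a ∧ H.Adj z b ∧ H.Adj a b ∧ X a < X z ∧ X z < X b := by
  rcases (tight h h3 he).2.2 z x y h1 h2 with k | k
  · exact dn_tri h h3 he k
  · exact dn_tri h.neg h3 he k

lemma right_aux [Fintype V] (h : Sw H X Y) (h3 : 3 ≤ Fintype.card V)
    (he : H.edgeSet.ncard + 6 = 3 * Fintype.card V) {P Q : V → Prop} {c u0 w0 : V}
    (hPQ : ∀ x y, P x → Q y → ¬ H.Adj x y) (hc : ∀ b, H.Adj c b → P b ∨ Q b)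
    (u1 : H.Adj c u0) (u2 : X c < X u0) (u3 : P u0) (w1 : H.Adj c w0) (w2 : X c < X w0)
    (w3 : Q w0) (hs : sl X Y c u0 < sl X Y c w0) : False := by
  obtain ⟨w, hw, hmin⟩ := exists_min_image
    (univ.filter fun w => H.Adj c w ∧ X c < X w ∧ Q w ∧ sl X Y c u0 < sl X Y c w) (sl X Y c)
    ⟨w0, mem_filter.2 ⟨mem_univ _, w1, w2, w3, hs⟩⟩
  simp only [mem_filter, mem_univ, true_and] at hw hmin
  obtain ⟨u, hu, hmax⟩ := exists_max_image
    (univ.filter fun u => H.Adj c u ∧ X c < X u ∧ sl X Y c u < sl X Y c w) (sl X Y c)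
    ⟨u0, mem_filter.2 ⟨mem_univ _, u1, u2, hw.2.2.2⟩⟩
  simp only [mem_filter, mem_univ, true_and] at hu hmax
  have hwd : Wd H X Y c w u := ⟨hw.1, hu.1, hw.2.1, hu.2.1, hu.2.2, fun b b1 b2 b3 b4 => by
    have := hmax b ⟨b1, b2, b4⟩; linarith⟩
  have hP : P u := by
    rcases (hmax u0 ⟨u1, u2, hw.2.2.2⟩).eq_or_lt with k | k
    · rw [← h.sl_inj u1 hu.1 u2 hu.2.1 k]; exact u3
    · rcases hc u hu.1 with k' | k'
      · exact k'
      · have := hmin u ⟨hu.1, hu.2.1, k', k⟩
        linarith [hu.2.2]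
  exact hPQ u w hP hw.2.2.1 (wd_adj h h3 he hwd).symm

lemma right_same [Fintype V] (h : Sw H X Y) (h3 : 3 ≤ Fintype.card V)
    (he : H.edgeSet.ncard + 6 = 3 * Fintype.card V) {P Q : V → Prop} {c u0 w0 : V}
    (hd : ∀ x, P x → ¬ Q x) (hPQ : ∀ x y, P x → Q y → ¬ H.Adj x y)
    (hc : ∀ b, H.Adj c b → P b ∨ Q b)
    (u1 : H.Adj c u0) (u2 : X c < X u0) (u3 : P u0) (w1 : H.Adj c w0) (w2 : X c < X w0)
    (w3 : Q w0) : False := by
  rcases lt_trichotomy (sl X Y c u0) (sl X Y c w0) with k | k | k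
  · exact right_aux h h3 he hPQ hc u1 u2 u3 w1 w2 w3 k
  · rw [h.sl_inj u1 w1 u2 w2 k] at u3
    exact hd _ u3 w3
  · exact right_aux (P := Q) (Q := P) h h3 he (fun x y hx hy a => hPQ y x hy hx a.symm)
      (fun b hb => (hc b hb).symm) w1 w2 w3 u1 u2 u3 k

lemma left_same [Fintype V] (h : Sw H X Y) (h3 : 3 ≤ Fintype.card V)
    (he : H.edgeSet.ncard + 6 = 3 * Fintype.card V) {P Q : V → Prop} {c u0 w0 : V}
    (hd : ∀ x, P x → ¬ Q x) (hPQ : ∀ x y, P x → Q y → ¬ H.Adj x y)
    (hc : ∀ b, H.Adj c b → P b ∨ Q b)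
    (u1 : H.Adj c u0) (u2 : X u0 < X c) (u3 : P u0) (w1 : H.Adj c w0) (w2 : X w0 < X c)
    (w3 : Q w0) : False :=
  right_same (sw_flip h) h3 he hd hPQ hc u1 (by simpa using u2) u3 w1 (by simpa using w2) w3

lemma all_same [Fintype V] (h : Sw H X Y) (h3 : 3 ≤ Fintype.card V)
    (he : H.edgeSet.ncard + 6 = 3 * Fintype.card V) {P Q : V → Prop} {c x y : V}
    (hd : ∀ x, P x → ¬ Q x) (hPQ : ∀ x y, P x → Q y → ¬ H.Adj x y)
    (hc : ∀ b, H.Adj c b → P b ∨ Q b)
    (x1 : H.Adj c x) (x3 : P x) (y1 : H.Adj c y) (y3 : Q y) : False := by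
  rcases lt_or_gt_of_ne (fun e => x1.ne (h.inj e)) with kx | kx <;>
    rcases lt_or_gt_of_ne (fun e => y1.ne (h.inj e)) with ky | ky
  · exact right_same h h3 he hd hPQ hc x1 kx x3 y1 ky y3
  · obtain ⟨a, b, a1, b1, ab, a2, b2⟩ := mid_tri h h3 he ky kx
    rcases hc a a1 with ka | ka
    · exact left_same h h3 he hd hPQ hc a1 a2 ka y1 ky y3
    · rcases hc b b1 with kb | kb
      · exact hPQ b a kb ka ab.symm
      · exact right_same h h3 he hd hPQ hc x1 kx x3 b1 b2 kb
  · obtain ⟨a, b, a1, b1, ab, a2, b2⟩ := mid_tri h h3 he kx ky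
    rcases hc a a1 with ka | ka
    · rcases hc b b1 with kb | kb
      · exact right_same h h3 he hd hPQ hc b1 b2 kb y1 ky y3
      · exact hPQ a b ka kb ab
    · exact left_same h h3 he hd hPQ hc x1 kx x3 a1 a2 ka
  · exact left_same h h3 he hd hPQ hc x1 kx x3 y1 ky y3

lemma main' [Fintype V] (h : Sw H X Y) (h3 : 3 ≤ Fintype.card V)
    (he : H.edgeSet.ncard + 6 = 3 * Fintype.card V) (A B : V → Prop) (hA : ∃ x, A x)
    (hB : ∃ x, B x) (hAB : ∀ x, A x → ¬ B x) (h1 : ∀ x y, A x → B y → ¬ H.Adj x y)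
    (h2 : ∀ x y, H.Adj x y → A x ∨ B x ∨ A y ∨ B y) : False := by
  let S : V → Prop := fun x => A x ∨ (¬ A x ∧ ¬ B x ∧ ∃ y, H.Adj x y ∧ A y)
  have hS : ∀ x y, H.Adj x y → S x → S y := by
    intro x y hxy hx
    rcases hx with hx | ⟨x1, x2, y0, y1, y2⟩
    · by_cases hy : A y
      · exact Or.inl hy
      · exact Or.inr ⟨hy, fun hb => h1 x y hx hb hxy, x, hxy.symm, hx⟩
    · have hc : ∀ b, H.Adj x b → A b ∨ B b := fun b hb => by
        have := h2 x b hb
        tauto
      rcases hc y hxy with k | k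
      · exact Or.inl k
      · exact (all_same h h3 he hAB h1 hc y1 y2 hxy k).elim
  obtain ⟨a, ha⟩ := hA
  obtain ⟨b, hb⟩ := hB
  haveI : Nonempty V := ⟨a⟩
  obtain ⟨q, _, hq⟩ := exists_max_image univ X univ_nonempty
  have hall : ∀ x, S x ↔ S q := by
    by_contra hc
    obtain ⟨x0, hx0⟩ := not_forall.1 hc
    obtain ⟨x, hx, hmax⟩ := exists_max_image (univ.filter fun x => ¬ (S x ↔ S q)) X
      ⟨x0, mem_filter.2 ⟨mem_univ _, hx0⟩⟩
    have hx' := (mem_filter.1 hx).2
    have hlt : X x < X q := lt_of_le_of_ne (hq x (mem_univ _)) fun e => hx' (by rw [h.inj e])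
    obtain ⟨u, u1, u2⟩ := (tight h h3 he).1 x q hlt
    have hu : S u ↔ S q := by
      by_contra hu
      have := hmax u (mem_filter.2 ⟨mem_univ _, hu⟩)
      linarith
    exact hx' (Iff.trans ⟨hS x u u1, hS u x u1.symm⟩ hu)
  have hSb : S b := (hall b).2 ((hall a).1 (Or.inl ha))
  rcases hSb with k | k
  · exact hAB b k hb
  · exact k.2.1 hb

lemma exists_sw [Fintype V] {pos : V → ℝ × ℝ} (hd : PlaneDrawing H pos) :
    ∃ X Y : V → ℝ, Sw H X Y := by
  obtain ⟨hinj, hv, he⟩ := hd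
  obtain ⟨c, hc⟩ := Infinite.exists_notMem_finset
    (univ.image fun t : V × V => ((pos t.2).1 - (pos t.1).1) / ((pos t.1).2 - (pos t.2).2))
  refine ⟨fun v => (pos v).1 + c * (pos v).2, fun v => (pos v).2, ?_, ?_, ?_⟩
  · intro a b e
    simp only at e
    by_cases hy : (pos a).2 = (pos b).2
    · apply hinj
      ext
      · rw [hy] at e; linarith
      · exact hy
    · exfalso
      apply hc
      refine mem_image.2 ⟨(a, b), mem_univ _, ?_⟩
      have : (pos a).2 - (pos b).2 ≠ 0 := sub_ne_zero.2 hy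
      simp only
      field_simp
      linarith
  · intro a b z hab h1 h2 e
    have := seg pos c h1 h2
    rw [← e] at this
    have e2 : ((pos z).1 + c * (pos z).2 - c * (pos z).2, (pos z).2) = pos z := by
      ext <;> simp
    rw [e2] at this
    rcases hv a b z hab this with rfl | rfl
    · exact lt_irrefl _ h1
    · exact lt_irrefl _ h2
  · intro a b a' b' t hab hab' h1 h2 h3 h4 e
    by_cases hs : s(a, b) = s(a', b')
    · rcases Sym2.eq_iff.1 hs with k | ⟨rfl, rfl⟩
      · exact k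
      · linarith
    · exfalso
      have k1 := seg pos c h1 h2
      have k2 := seg pos c h3 h4
      rw [← e] at k2
      obtain ⟨z, hz, z1, _⟩ := he a b a' b' hab hab' hs _ ⟨k1, k2⟩
      have ht : t = (pos z).1 + c * (pos z).2 := by rw [← hz]; simp
      rcases z1 with rfl | rfl <;> linarith

end CONVx

theorem CONV {V : Type} [Fintype V] (H : SimpleGraph V) (pos : V → ℝ × ℝ)
    (hp : PlaneDrawing H pos) (h3 : 3 ≤ Fintype.card V)
    (he : H.edgeSet.ncard + 6 = 3 * Fintype.card V) (A B : V → Prop) (hA : ∃ x, A x)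
    (hB : ∃ x, B x) (hAB : ∀ x, A x → ¬ B x) (h1 : ∀ x y, A x → B y → ¬ H.Adj x y)
    (h2 : ∀ x y, H.Adj x y → A x ∨ B x ∨ A y ∨ B y) : False := by
  obtain ⟨X, Y, h⟩ := CONVx.exists_sw hp
  exact CONVx.main' h h3 he A B hA hB hAB h1 h2

end Pool.Agent.MP_c1b6d0_co.H73.V2
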