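import Pool.Agent.MP_c1b6d0_co.V2.Basic

/-! Row COUNT: the degree-counting contradiction of the band step. -/

open Finset
open scoped Classical

namespace Pool.Agent.MP_c1b6d0_co.H73.V2

namespace COUNTx

variable {V : Type} [Fintype V] {G : SimpleGraph V} {e b h : ℝ}

/-- the clique lemma applied to a subset of `R` -/
theorem tool (hq : CLQ_stmt) (c : Ctx2 G e b h) (y : V) (D : ℝ) (R : Finset V)
    (h1 : ∀ x ∈ R, cnt (fun z => G.Adj x z ∧ G.Adj y z ∧ z ∉ R) ≤ h * nn V)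
    (h2 : ∀ x ∈ R, cnt (fun x' => x' ∈ R ∧ G.Adj x x' ∧
      e * nn V < cnt fun w => G.Adj x w ∧ G.Adj x' w ∧ D ≤ dg G w) ≤ e * nn V)
    (A : Finset V) (hA : A ⊆ R) (hne : A.Nonempty) (τ : ℝ) (hτ : h * nn V ≤ τ)
    (hd : ∀ x ∈ A, τ + R.card + cnt (fun z => ¬ G.Adj y z ∧ dg G z < D) + 2 * (h * nn V) ≤ dg G x) :
    A.card + τ - h * nn V ≤ cnt (fun z => ¬ G.Adj y z ∧ D ≤ dg G z) := by
  refine hq V A
    (fun x x' => G.Adj x x' ∧ cnt (fun w => G.Adj x w ∧ G.Adj x' w ∧ D ≤ dg G w) ≤ e * nn V)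
    (fun x z => G.Adj x z ∧ ¬ G.Adj y z ∧ D ≤ dg G z) (fun z => ¬ G.Adj y z ∧ D ≤ dg G z)
    (nn V) h τ le_rfl c.h_pos c.h_le hne ?_ ?_ ?_ ?_ hτ ?_
  · intro x x' hx
    refine ⟨hx.1.symm, le_trans (cnt_mono fun w hw => ?_) hx.2⟩
    exact ⟨hw.2.1, hw.1, hw.2.2⟩
  · intro x hx
    exact G.irrefl hx.1
  · intro x _ z hz
    exact hz.2
  · intro x _ x' _ hx
    refine le_trans (le_trans (cnt_mono fun w hw => ?_) hx.2) c.en_le_h5
    exact ⟨hw.1.1, hw.2.1, hw.1.2.2⟩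
  · intro x hx
    have hxR := hA hx
    have a1 : dg G x ≤ cnt (fun z => G.Adj x z ∧ z ∈ R) +
        cnt (fun z => G.Adj x z ∧ G.Adj y z ∧ z ∉ R) + cnt (fun z => ¬ G.Adj y z ∧ dg G z < D) +
        cnt (fun z => G.Adj x z ∧ ¬ G.Adj y z ∧ D ≤ dg G z) := by
      refine cnt_le_add4 fun z hz => ?_
      by_cases r : z ∈ R
      · exact Or.inl ⟨hz, r⟩
      by_cases a : G.Adj y z
      · exact Or.inr (Or.inl ⟨hz, a, r⟩)
      rcases lt_or_ge (dg G z) D with d | d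
      · exact Or.inr (Or.inr (Or.inl ⟨a, d⟩))
      · exact Or.inr (Or.inr (Or.inr ⟨hz, a, d⟩))
    have a2 := cnt_and_add_or (fun z => G.Adj x z ∧ z ∈ R) (fun x' => x' ∈ A ∧ ¬ (G.Adj x x' ∧
      cnt (fun w => G.Adj x w ∧ G.Adj x' w ∧ D ≤ dg G w) ≤ e * nn V))
    have a3 : cnt (fun z => (G.Adj x z ∧ z ∈ R) ∧ (z ∈ A ∧ ¬ (G.Adj x z ∧
        cnt (fun w => G.Adj x w ∧ G.Adj z w ∧ D ≤ dg G w) ≤ e * nn V))) ≤ e * nn V := by
      refine le_trans (cnt_mono fun z hz => ?_) (h2 x hxR)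
      exact ⟨hz.1.2, hz.1.1, not_le.1 fun q => hz.2.2 ⟨hz.1.1, q⟩⟩
    have a4 : cnt (fun z => (G.Adj x z ∧ z ∈ R) ∨ (z ∈ A ∧ ¬ (G.Adj x z ∧
        cnt (fun w => G.Adj x w ∧ G.Adj z w ∧ D ≤ dg G w) ≤ e * nn V))) ≤ R.card :=
      cnt_le_card R fun z hz => hz.elim (fun q => q.2) fun q => hA q.1
    have a5 := h1 x hxR
    have a6 := hd x hx
    have a7 := c.en_le
    have a8 := c.s_large
    linarith

/-- every nonempty set has a vertex of large degree once the low class is large -/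
theorem star (h2 : F2_stmt) (c : Ctx2 G e b h) (u : V) (hu : TopU G e u) (D : ℝ) (mu m : ℕ)
    (hmu : (mu : ℝ) = nn V - dg G u) (hmu1 : 1 ≤ mu) (hsum : (mu + m : ℝ) ≤ 9 * nn V / 10)
    (hD : D ≤ nn V - m + h * nn V) (hL : (mu + m : ℝ) ≤ cnt (fun z => dg G z < D))
    (S : Finset V) (hS : S.Nonempty) :
    ∃ v ∈ S, ((min S.card mu : ℕ) : ℝ) + m + 50 * (h * nn V) < dg G v := by
  by_contra hc
  push Not at hc
  obtain ⟨A, hAS, hA⟩ := exists_subset_card_eq (s := S) (n := min S.card mu) (min_le_left _ _)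
  have hAmu : A.card ≤ mu := hA ▸ min_le_right _ _
  have hL' : mu + m ≤ (univ.filter fun z => dg G z < D).card := by
    have := hL.trans (cnt_le_card (univ.filter fun z => dg G z < D) fun z hz =>
      mem_filter.2 ⟨mem_univ _, hz⟩)
    exact_mod_cast this
  have hm : m ≤ ((univ.filter fun z => dg G z < D) \ A).card := by
    have := le_card_sdiff A (univ.filter fun z => dg G z < D)
    omega
  obtain ⟨C, hCL, hC⟩ := exists_subset_card_eq hm
  have hs : 0 ≤ h * nn V := by linarith [c.en_le, c.s_large]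
  have hAmu' : (A.card : ℝ) ≤ mu := by exact_mod_cast hAmu
  refine h2 V G e b h c u A C hu ?_ ?_ (by linarith) (by rw [hC]; linarith) ?_ ?_
  · have := hS.card_pos
    exact card_pos.1 (by rw [hA]; omega)
  · exact disjoint_left.2 fun x hx hx' => (mem_sdiff.1 (hCL hx')).2 hx
  · intro v hv
    have := hc v (hAS hv)
    rw [hA, hC]
    linarith
  · intro v hv
    have := (mem_filter.1 (mem_sdiff.1 (hCL hv)).1).2
    rw [hC]
    linarith

end COUNTx

open COUNTx in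
theorem COUNT (h2 : F2_stmt) (h4 : F4_stmt) (hq : CLQ_stmt) : COUNT_stmt := by
  intro V _ G e b h c u y D R hu hy hyu hD hR hRy k1 k2 k3 k4
  have tl := tool hq c y D R k1 k2
  have s1 := c.en_le
  have s2 := c.s_large
  have s3 := c.hn_le
  have s4 := c.b_le
  have f4 := (h4 V G e b h c u hu).1
  unfold Big at hy
  -- the natural numbers `m`, `mu`, `mH`, `mL`
  obtain ⟨mu, hmu⟩ : ∃ mu : ℕ, (mu : ℝ) = cnt (fun z => ¬ G.Adj u z) := ⟨_, rfl⟩
  obtain ⟨m, hm⟩ : ∃ m : ℕ, (m : ℝ) = cnt (fun z => ¬ G.Adj y z) := ⟨_, rfl⟩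
  obtain ⟨mH, hmH⟩ : ∃ m : ℕ, (m : ℝ) = cnt (fun z => ¬ G.Adj y z ∧ D ≤ dg G z) := ⟨_, rfl⟩
  obtain ⟨ML, hML⟩ : ∃ ML : Finset V, ML = univ.filter fun z => ¬ G.Adj y z ∧ dg G z < D :=
    ⟨_, rfl⟩
  have hMLm : ∀ z, z ∈ ML ↔ ¬ G.Adj y z ∧ dg G z < D := by
    intro z; rw [hML]; simp
  have hMLc : cnt (fun z => ¬ G.Adj y z ∧ dg G z < D) = ML.card := by
    rw [← cnt_mem]; exact cnt_congr fun z => (hMLm z).symm
  have hmu' : (mu : ℝ) = nn V - dg G u := by rw [hmu]; exact cnt_not _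
  have hm' : (m : ℝ) = nn V - dg G y := by rw [hm]; exact cnt_not _
  have hmu1 : (1 : ℝ) ≤ mu := by rw [hmu]; exact one_le_cnt (x := u) G.irrefl
  have hsplit : (m : ℝ) = mH + ML.card := by
    have : cnt (fun z => ¬ G.Adj y z ∧ ¬ D ≤ dg G z) = cnt (fun z => ¬ G.Adj y z ∧ dg G z < D) :=
      cnt_congr fun z => by rw [not_le]
    rw [hm, hmH, ← hMLc, cnt_split (fun z => ¬ G.Adj y z) (fun z => D ≤ dg G z), this]
  rw [← hmH, hMLc] at tl
  by_cases ha : (R.card : ℝ) - mH ≤ 10 * (h * nn V)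
  · have := tl R Subset.rfl hR (b + 48 * (h * nn V) - R.card - ML.card) (by linarith)
      fun x _ => by linarith [c.mindeg x]
    linarith
  push Not at ha
  have hle : mH ≤ R.card := by
    have : (mH : ℝ) ≤ R.card := by linarith
    exact_mod_cast this
  obtain ⟨R', hR'⟩ : ∃ R' : Finset V,
      R' = R.filter fun x => (R.card : ℝ) + ML.card + 3 * (h * nn V) ≤ dg G x := ⟨_, rfl⟩
  have hR'm : ∀ x, x ∈ R' ↔ x ∈ R ∧ (R.card : ℝ) + ML.card + 3 * (h * nn V) ≤ dg G x := by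
    intro x; rw [hR']; simp
  have hR'c : R'.card ≤ mH := by
    rcases R'.eq_empty_or_nonempty with q | q
    · rw [q]; simp
    · have := tl R' (fun x hx => ((hR'm x).1 hx).1) q (h * nn V) le_rfl
        fun x hx => by linarith [((hR'm x).1 hx).2]
      have : (R'.card : ℝ) ≤ mH := by linarith
      exact_mod_cast this
  have hdisj : Disjoint R ML :=
    disjoint_left.2 fun x hx hx' => ((hMLm x).1 hx').1 (hRy x hx).1
  by_cases hb : (R.card : ℝ) - mH ≤ mu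
  · have hk : R.card - mH ≤ (R \ R').card := by
      have := le_card_sdiff R' R
      omega
    obtain ⟨A, hAR, hA⟩ := exists_subset_card_eq hk
    have hA' : (A.card : ℝ) = R.card - mH := by rw [hA]; push_cast [hle]; ring
    have hAR' : A ⊆ R := fun x hx => (mem_sdiff.1 (hAR hx)).1
    have hC : (((R \ A) ∪ ML).card : ℝ) = m := by
      rw [card_union_of_disjoint (hdisj.mono_left sdiff_subset), card_sdiff_of_subset hAR']
      have := card_le_card hAR'
      push_cast [this]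
      linarith
    refine h2 V G e b h c u A ((R \ A) ∪ ML) hu ?_ ?_ (by linarith) (by rw [hC]; linarith) ?_ ?_
    · have : (0 : ℝ) < A.card := by linarith
      exact card_pos.1 (by exact_mod_cast this)
    · exact disjoint_union_right.2 ⟨disjoint_sdiff, hdisj.mono_left hAR'⟩
    · intro v hv
      have q := mem_sdiff.1 (hAR hv)
      have : dg G v < (R.card : ℝ) + ML.card + 3 * (h * nn V) :=
        not_le.1 fun r => q.2 ((hR'm v).2 ⟨q.1, r⟩)
      rw [hC]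
      linarith
    · intro v hv
      have : dg G v < D := by
        rcases mem_union.1 hv with q | q
        · exact (hRy v (mem_sdiff.1 q).1).2
        · exact ((hMLm v).1 q).2
      rw [hC]
      linarith
  push Not at hb
  have hL : (mu + m : ℝ) ≤ cnt (fun z => dg G z < D) := by
    have a1 : ((R ∪ ML).card : ℝ) ≤ cnt (fun z => dg G z < D) :=
      card_le_cnt _ fun v hv => by
        rcases mem_union.1 hv with q | q
        · exact (hRy v q).2
        · exact ((hMLm v).1 q).2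
    rw [card_union_of_disjoint hdisj] at a1
    push_cast at a1
    linarith
  have st := star h2 c u hu D mu m hmu' (by exact_mod_cast hmu1) (by linarith) (by linarith) hL
  obtain ⟨x, hxR, hx⟩ := st R hR
  have hmuR : mu ≤ R.card := by
    have h0 : (0 : ℝ) ≤ mH := Nat.cast_nonneg _
    have : (mu : ℝ) ≤ R.card := by linarith
    exact_mod_cast this
  rw [min_eq_right hmuR] at hx
  have dsp : ∀ v, dg G v ≤ mu + cnt (fun w => G.Adj v w ∧ G.Adj y w ∧ G.Adj u w) +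
      cnt (fun w => G.Adj v w ∧ G.Adj u w ∧ ¬ G.Adj y w) := by
    intro v
    rw [hmu]
    refine cnt_le_add3 fun w hw => ?_
    by_cases a : G.Adj u w
    · by_cases a' : G.Adj y w
      · exact Or.inr (Or.inl ⟨hw, a', a⟩)
      · exact Or.inr (Or.inr ⟨hw, a, a'⟩)
    · exact Or.inl a
  have dle : ∀ v, cnt (fun w => G.Adj v w ∧ G.Adj u w ∧ ¬ G.Adj y w) ≤ m := by
    intro v
    rw [hm]
    exact cnt_mono fun w hw => hw.2.2
  obtain ⟨S, hS⟩ : ∃ S : Finset V, S = R.filter fun z => G.Adj x z ∧ G.Adj u z ∧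
      cnt (fun w => G.Adj x w ∧ G.Adj z w ∧ G.Adj u w) ≤ e * nn V := ⟨_, rfl⟩
  have hSm : ∀ z, z ∈ S ↔ z ∈ R ∧ G.Adj x z ∧ G.Adj u z ∧
      cnt (fun w => G.Adj x w ∧ G.Adj z w ∧ G.Adj u w) ≤ e * nn V := by
    intro z; rw [hS]; simp
  have hnu : cnt (fun w => G.Adj x w ∧ G.Adj y w ∧ G.Adj u w) ≤
      cnt (fun z => G.Adj x z ∧ G.Adj y z ∧ z ∉ R) +
      cnt (fun z => z ∈ R ∧ G.Adj x z ∧ G.Adj u z ∧
        e * nn V < cnt fun w => G.Adj x w ∧ G.Adj z w ∧ G.Adj u w) + cnt (fun z => z ∈ S) := by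
    refine cnt_le_add3 fun z hz => ?_
    by_cases r : z ∈ R
    · rcases lt_or_ge (e * nn V) (cnt fun w => G.Adj x w ∧ G.Adj z w ∧ G.Adj u w) with d | d
      · exact Or.inr (Or.inl ⟨r, hz.1, hz.2.2, d⟩)
      · exact Or.inr (Or.inr ((hSm z).2 ⟨r, hz.1, hz.2.2, d⟩))
    · exact Or.inl ⟨hz.1, hz.2.1, r⟩
  rw [cnt_mem] at hnu
  have b1 := k1 x hxR
  have b2 := k4 x hxR
  have b3 := dsp x
  have b4 := dle x
  have hSne : S.Nonempty := by
    have : (0 : ℝ) < S.card := by linarith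
    exact card_pos.1 (by exact_mod_cast this)
  obtain ⟨z, hzS, hz⟩ := st S hSne
  obtain ⟨hzR, -, huz, hzc⟩ := (hSm z).1 hzS
  have b5 := k3 z hzR huz
  have b6 := dsp z
  have b7 := dle z
  rcases le_total S.card mu with q | q
  · rw [min_eq_left q] at hz
    have b8 := cnt_and_add_or (fun w => G.Adj x w ∧ G.Adj u w ∧ ¬ G.Adj y w)
      (fun w => G.Adj z w ∧ G.Adj u w ∧ ¬ G.Adj y w)
    have b9 : cnt (fun w => (G.Adj x w ∧ G.Adj u w ∧ ¬ G.Adj y w) ∧
        (G.Adj z w ∧ G.Adj u w ∧ ¬ G.Adj y w)) ≤ e * nn V :=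
      le_trans (cnt_mono fun w hw => ⟨hw.1.1, hw.2.1, hw.1.2.1⟩) hzc
    have b10 : cnt (fun w => (G.Adj x w ∧ G.Adj u w ∧ ¬ G.Adj y w) ∨
        (G.Adj z w ∧ G.Adj u w ∧ ¬ G.Adj y w)) ≤ m := by
      rw [hm]
      exact cnt_mono fun w hw => hw.elim (fun q => q.2.2) fun q => q.2.2
    linarith
  · rw [min_eq_right q] at hz
    linarith

end Pool.Agent.MP_c1b6d0_co.H73.V2
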