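import Pool.Agent.MP_c1b6d0_co.H73.COV
import Pool.Agent.MP_c1b6d0_co.V2.Basic

/-! Part 2, row COV: cover the free vertices by few monochromatic paths. -/

open Finset
open scoped Classical

namespace Pool.Agent.MP_c1b6d0_co.H73.V2

namespace COVx

theorem not_free {V : Type} [Fintype V] {G : SimpleGraph V} {e b : ℝ} (σ : Sel G e b) :
    cnt (fun x => ¬ σ.Free x) ≤ e ^ 424 * nn V := by
  have h1 : cnt (fun x => ¬ σ.Free x) ≤
      cnt (fun x => x ∈ univ.image (Function.uncurry σ.col)) +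
      cnt (fun x => x ∈ univ.image (Function.uncurry σ.abs)) +
      cnt (fun x => x ∈ univ.image (Function.uncurry σ.res)) + cnt (fun x => x ∈ σ.Y) := by
    refine cnt_le_add4 fun x hx => ?_
    by_contra hc
    simp only [not_or, mem_image, mem_univ, true_and, not_exists] at hc
    exact hx ⟨fun j i h => hc.1 (j, i) h.symm, fun j i h => hc.2.1 (j, i) h.symm,
      fun j i h => hc.2.2.1 (j, i) h.symm, hc.2.2.2⟩
  simp only [cnt_mem, card_image_of_injective _ σ.colInj, card_image_of_injective _ σ.absInj,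
    card_image_of_injective _ σ.resInj, card_univ, Fintype.card_prod, Fintype.card_fin] at h1
  have h2 := σ.size
  push_cast at h1 h2
  linarith

end COVx

theorem COV (h1 : C1_stmt) (d1 : D1_stmt) (d2 : D2_stmt) (d3 : D3_stmt) (d4 : D4_stmt)
    (ht : TRIM_stmt) : COV_stmt := by
  have htr := ht
  clear ht
  intro V _ G e b h σ
  have he := h.e_pos
  have n0 := h.n_pos
  have hs := h.s_large
  have r0 : 0 < σ.r := by
    rcases Nat.eq_zero_or_pos σ.r with h0 | h0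
    · have := σ.rlarge
      rw [h0] at this
      norm_num at this
    · exact h0
  have r0' : (0 : ℝ) < σ.r := by exact_mod_cast r0
  have hne : Nonempty (Fin (σ.r ^ 2)) := ⟨⟨0, by positivity⟩⟩
  obtain ⟨D, hD⟩ : ∃ D : ℕ, D = ⌊e * nn V / 4⌋₊ := ⟨_, rfl⟩
  have D1 : (D : ℝ) ≤ e * nn V / 4 := by rw [hD]; exact Nat.floor_le (by positivity)
  have D2 : e * nn V / 5 ≤ D := by
    have := Nat.lt_floor_add_one (e * nn V / 4)
    rw [← hD] at this
    linarith
  have D3 : 1 ≤ D := by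
    have : (1 : ℝ) ≤ D := by linarith
    exact_mod_cast this
  obtain ⟨t, ht⟩ : ∃ t : ℕ, t = ⌈1 / e ^ 804⌉₊ := ⟨_, rfl⟩
  have e1 : e ^ 804 ≤ 1 := pow_le_one₀ he.le (by linarith [h.e_le])
  have e0 : 0 < e ^ 804 := by positivity
  have t1 : 1 / e ^ 804 ≤ t := by rw [ht]; exact Nat.le_ceil _
  have t0 : 1 ≤ 1 / e ^ 804 := by rw [le_div_iff₀ e0]; linarith
  have t2 : (t : ℝ) ≤ 2 / e ^ 804 := by
    have := Nat.ceil_lt_add_one (show 0 ≤ 1 / e ^ 804 by positivity)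
    rw [← ht] at this
    have h2 : 2 / e ^ 804 = 1 / e ^ 804 + 1 / e ^ 804 := by ring
    linarith
  have t3 : NeZero t := ⟨by
    have : (1 : ℝ) ≤ t := by linarith
    have : 1 ≤ t := by exact_mod_cast this
    omega⟩
  let H : {x // σ.Free x} → {x // σ.Free x} → Prop := fun x y =>
    G.Adj x y ∧ (Good G e b x y ∨ Good G e b y x)
  have Hs : ∀ x y, H x y → H y x := fun x y hxy => ⟨hxy.1.symm, hxy.2.symm⟩
  obtain ⟨w, w1, w2, w3, w4, w5⟩ := d1 _ H D Hs D3
    (d4 V G e b h (Good G e b) σ.Free D (h1 V G e b h) (COVx.not_free σ) D1)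
  let N : Fin (σ.r ^ 2) → {x // σ.Free x} → Prop := fun j x =>
    G.Adj (σ.col j 0) x ∧ G.Adj (σ.col j 1) x
  let C : Fin (σ.r ^ 2) → {x // σ.Free x} → Prop := fun j x =>
    Cl G e (σ.col j 0) (σ.col j 1) (σ.col j 2) x
  obtain ⟨l, hl⟩ := H73.COVx.labels H (fun x c => N c.1 x ∧ (c.2 = false → C c.1 x)) Hs
    (fun x y hxy hh => hxy.1.ne (congrArg Subtype.val hh)) (by
      rintro x y ⟨-, hg | hg⟩
      · obtain ⟨j, h1, h2, h3⟩ := σ.hit _ _ hg
        exact ⟨(j, true), ⟨⟨h1, h2⟩, by simp⟩, ⟨h3.1, h3.2.1⟩, fun _ => h3⟩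
      · obtain ⟨j, h1, h2, h3⟩ := σ.hit _ _ hg
        exact ⟨(j, false), ⟨⟨h3.1, h3.2.1⟩, fun _ => h3⟩, ⟨h1, h2⟩, by simp⟩)
  obtain ⟨lab, τ, ω, o1, o2, o3⟩ := d2 _ _ w l D (1 / (σ.r : ℝ) ^ 3) t (by linarith [h.gap1 (d := 2) (by norm_num)])
    (by positivity) w1 w2 w3 (fun x => by
      by_contra hx
      exact (w4 x x hx).1.ne rfl) w5
  have hN : nn {x // σ.Free x} ≤ nn V := by
    unfold nn
    exact_mod_cast Fintype.card_subtype_le _
  have hΛ : nn (Fin (σ.r ^ 2) × Bool) = (σ.r : ℝ) ^ 2 * 2 := by simp [nn]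
  rw [hΛ] at o3
  have o4 := o3.trans ((mul_le_mul_of_nonneg_left (H73.COVx.num he h.e_le σ.rlarge σ.r8 D2 t2)
    nn_nonneg).trans (mul_le_mul_of_nonneg_right hN e0.le))
  obtain ⟨P, p1, p2, p3, p4⟩ := d3 _ t τ ω _ o1 (fun x y hxy => (o2 x y hxy).2.2.2) o4
  have p5 : (P.length : ℝ) ≤ e ^ 803 * nn V := by
    have h1 : nn {x // σ.Free x} / t ≤ nn V * e ^ 804 := by
      calc nn {x // σ.Free x} / t ≤ nn V / (1 / e ^ 804) := by gcongr
        _ = _ := by field_simp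
    have h2 := h.gap (a := 803) (d := 804) (by norm_num)
    have h3 : 0 < e ^ 804 * nn V := by positivity
    linarith
  obtain ⟨Q, q1, q2, q3, q4⟩ := htr _ _ (fun x y => ω x y ≠ 0) (fun x y => G.Adj x y) N C lab P p1 p3
    (fun x y hxy => by
      obtain ⟨a1, a2, a3, -⟩ := o2 x y hxy
      obtain ⟨b1, b2, b3⟩ := hl x y (w4 x y a1)
      rw [a2, a3]
      exact ⟨(w4 x y a1).1, b1, b2.1, b3.1, b2.2, b3.2⟩)
  refine ⟨Q.map fun p => (p.1, p.2.map Subtype.val), ?_, ?_, ?_, ?_, ?_⟩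
  · rw [H73.COVx.flat_map]; exact q1.map Subtype.val_injective
  · rw [H73.COVx.flat_map]
    intro x hx
    obtain ⟨y, -, rfl⟩ := List.mem_map.1 hx
    exact y.2
  · intro p' hp'
    obtain ⟨p, hp, rfl⟩ := List.mem_map.1 hp'
    obtain ⟨a1, a2, a3, a4, a5⟩ := q2 p hp
    refine ⟨fun hh => a1 (List.map_eq_nil_iff.1 hh), (List.isChain_map _).2 a2, fun x hx => ?_, fun x hx => ?_,
      fun x hx => ?_⟩
    · obtain ⟨y, hy, rfl⟩ := List.mem_map.1 hx
      exact a3 y hy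
    · rw [List.head?_map] at hx
      obtain ⟨y, hy, rfl⟩ := Option.mem_map.1 hx
      exact a4 y hy
    · rw [List.getLast?_map] at hx
      obtain ⟨y, hy, rfl⟩ := Option.mem_map.1 hx
      exact a5 y hy
  · rw [List.length_map]
    exact le_trans (by exact_mod_cast q3) p5
  · rw [H73.COVx.flat_map, ← cnt_subtype σ.Free fun x => x ∉ (flat Q).map Subtype.val]
    refine le_trans (cnt_mono fun x hx => ⟨p2 x, fun hh => hx (List.mem_map.2 ⟨x, hh, rfl⟩)⟩)
      (q4.trans ?_)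
    linarith

end Pool.Agent.MP_c1b6d0_co.H73.V2
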