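import Pool.Agent.MP_c1b6d0_co.V2.Basic

/-! Row D4: the robust Hall condition for the good edges on a large vertex set. -/

open Finset
open scoped Classical

namespace Pool.Agent.MP_c1b6d0_co.H73.V2

namespace D4x

variable {V : Type} [Fintype V] {G : SimpleGraph V} {e b h : ℝ}

/-- few big vertices have many neighbours for which the pair is not good -/
theorem special (c : Ctx2 G e b h) {Gd : V → V → Prop}
    (hG : ∀ x, cnt (fun y => Cand G e b x y ∧ ¬ Gd x y) ≤ 2 * e ^ 3 * nn V) :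
    cnt (fun y => Big G e b y ∧ e ^ 2 * nn V < cnt fun x => G.Adj y x ∧ ¬ Gd x y) ≤
      2 * (e * nn V) := by
  have h1 := cnt_mul_le_pairs
    (p := fun y => Big G e b y ∧ e ^ 2 * nn V < cnt fun x => G.Adj y x ∧ ¬ Gd x y)
    (R := fun y x => Big G e b y ∧ G.Adj y x ∧ ¬ Gd x y) (c := e ^ 2 * nn V)
    (fun y hy => hy.2.le.trans (cnt_mono fun x hx => ⟨hy.1, hx⟩))
  have h2 := pairs_le_nn_mul' (R := fun y x => Big G e b y ∧ G.Adj y x ∧ ¬ Gd x y)
    (c := 2 * e ^ 3 * nn V)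
    (fun x => le_trans (cnt_mono fun y hy => ⟨⟨hy.2.1.symm, Or.inl hy.1⟩, hy.2.2⟩) (hG x))
  have h3 : 0 < e ^ 2 * nn V := mul_pos (pow_pos c.e_pos 2) c.n_pos
  refine le_of_mul_le_mul_right (h1.trans (h2.trans (le_of_eq ?_))) h3
  ring

theorem core (hq : CLQ_stmt) (c : Ctx2 G e b h) {Gd : V → V → Prop} {S : V → Prop} {D : ℝ}
    (hG : ∀ x, cnt (fun y => Cand G e b x y ∧ ¬ Gd x y) ≤ 2 * e ^ 3 * nn V)
    (hS : cnt (fun x => ¬ S x) ≤ e ^ 424 * nn V) (hD : D ≤ e * nn V / 4)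
    {K : V → V → Prop} (Kadj : ∀ x y, K x y → G.Adj x y)
    (del : ∀ x, S x →
      cnt (fun y => S y ∧ G.Adj x y ∧ (Gd x y ∨ Gd y x) ∧ ¬ K x y) ≤ 2 * D)
    (I : Finset V) (IS : ∀ x ∈ I, S x) (ind : ∀ x ∈ I, ∀ y ∈ I, ¬ K x y) :
    (I.card : ℝ) ≤ cnt fun y => ∃ x ∈ I, K x y := by
  have g2 := c.gap1 (d := 2) (by norm_num)
  have g3 := c.gap1 (d := 3) (by norm_num)
  have g4 := c.gap1 (d := 424) (by norm_num)
  have g5 := c.en_le
  have g6 := c.s_large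
  by_cases hA : ∃ y ∈ I, Big G e b y ∧ cnt (fun x => G.Adj y x ∧ ¬ Gd x y) ≤ e ^ 2 * nn V
  · obtain ⟨y, hy, hb, hns⟩ := hA
    have h1 : dg G y ≤ cnt (K y) + cnt (fun x => G.Adj y x ∧ ¬ Gd x y) + cnt (fun x => ¬ S x) +
        cnt (fun x => S x ∧ G.Adj y x ∧ (Gd y x ∨ Gd x y) ∧ ¬ K y x) :=
      cnt_le_add4 fun x hx => by
        by_cases h1 : K y x
        · exact Or.inl h1
        by_cases h2 : Gd x y
        · by_cases h3 : S x
          · exact Or.inr (Or.inr (Or.inr ⟨h3, hx, Or.inr h2, h1⟩))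
          · exact Or.inr (Or.inr (Or.inl h3))
        · exact Or.inr (Or.inl ⟨hx, h2⟩)
    have h2 := del y (IS y hy)
    have h3 : (I.card : ℝ) ≤ cnt fun x => ¬ K y x := card_le_cnt I fun x hx => ind y hy x hx
    have h4 := cnt_not (K y)
    have h5 : cnt (K y) ≤ cnt fun z => ∃ x ∈ I, K x z := cnt_mono fun z hz => ⟨y, hy, hz⟩
    unfold Big at hb
    linarith [c.b_le]
  have hsp := special c hG
  have hI : (I.card : ℝ) ≤ (I.filter fun y => ¬ Big G e b y).card + 2 * (e * nn V) := by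
    have h1 : cnt (fun y => y ∈ I) ≤ cnt (fun y => y ∈ I.filter fun y => ¬ Big G e b y) +
        cnt (fun y => Big G e b y ∧ e ^ 2 * nn V < cnt fun x => G.Adj y x ∧ ¬ Gd x y) :=
      cnt_le_add fun y hy => by
        by_cases hb : Big G e b y
        · exact Or.inr ⟨hb, not_le.1 fun hc => hA ⟨y, hy, hb, hc⟩⟩
        · exact Or.inl (mem_filter.2 ⟨hy, hb⟩)
    rw [cnt_mem, cnt_mem] at h1
    linarith
  have hbig : ∀ x, cnt (fun z => G.Adj x z ∧ Big G e b z) ≤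
      cnt (fun z => Big G e b z ∧ K x z) + cnt (fun z => Cand G e b x z ∧ ¬ Gd x z) +
        cnt (fun z => ¬ S z) +
        cnt (fun z => S z ∧ G.Adj x z ∧ (Gd x z ∨ Gd z x) ∧ ¬ K x z) := fun x =>
    cnt_le_add4 fun z hz => by
      by_cases h1 : K x z
      · exact Or.inl ⟨hz.2, h1⟩
      by_cases h2 : Gd x z
      · by_cases h3 : S z
        · exact Or.inr (Or.inr (Or.inr ⟨h3, hz.1, Or.inl h2, h1⟩))
        · exact Or.inr (Or.inr (Or.inl h3))
      · exact Or.inr (Or.inl ⟨⟨hz.1, Or.inl hz.2⟩, h2⟩)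
  rcases I.eq_empty_or_nonempty with rfl | ⟨x0, hx0⟩
  · simpa using cnt_nonneg _
  rcases (I.filter fun y => ¬ Big G e b y).eq_empty_or_nonempty with h0 | hne
  · rw [h0] at hI
    have h1 := hbig x0
    have h2 := del x0 (IS x0 hx0)
    have h3 := hG x0
    have h4 := c.big_nbrs x0
    have h5 : cnt (fun z => Big G e b z ∧ K x0 z) ≤ cnt fun z => ∃ x ∈ I, K x z :=
      cnt_mono fun z hz => ⟨x0, hx0, hz.2⟩
    simp only [card_empty, Nat.cast_zero] at hI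
    linarith
  have key := hq V (I.filter fun y => ¬ Big G e b y)
    (fun x y => G.Adj x y ∧ cnt (fun z => G.Adj x z ∧ G.Adj y z ∧ Big G e b z) < e * nn V)
    (fun x z => Big G e b z ∧ K x z) (fun z => ∃ x ∈ I, K x z) (nn V) h (49 * (h * nn V))
    le_rfl c.h_pos c.h_le hne
    (fun x y hxy => ⟨hxy.1.symm,
      lt_of_le_of_lt (cnt_mono fun z hz => ⟨hz.2.1, hz.1, hz.2.2⟩) hxy.2⟩)
    (fun x hx => G.irrefl hx.1)
    (fun x hx z hz => ⟨x, (mem_filter.1 hx).1, hz.2⟩)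
    (fun x _ y _ hxy => le_trans
      (cnt_mono fun z hz => ⟨Kadj _ _ hz.1.2, Kadj _ _ hz.2.2, hz.1.1⟩)
      (hxy.2.le.trans c.en_le_h5))
    (by linarith)
    (fun x hx => by
      have hxI := (mem_filter.1 hx).1
      have h1 := hbig x
      have h2 := del x (IS x hxI)
      have h3 := hG x
      have h4 := c.mindeg x
      have h5 : dg G x = _ := cnt_split (G.Adj x) (Big G e b)
      have h6 := cnt_split (fun y => ¬ Big G e b y) (G.Adj x)
      have h7 : cnt (fun y => G.Adj x y ∧ ¬ Big G e b y) ≤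
          cnt (fun y => ¬ Big G e b y ∧ G.Adj x y) := cnt_mono fun y hy => hy.symm
      have h8 : cnt (fun y => y ∈ (I.filter fun y => ¬ Big G e b y) ∧ ¬ (G.Adj x y ∧
            cnt (fun z => G.Adj x z ∧ G.Adj y z ∧ Big G e b z) < e * nn V)) ≤
          cnt (fun y => ¬ Big G e b y ∧ ¬ G.Adj x y) +
            cnt (fun y => Cand G e b x y ∧ ¬ Gd x y) +
            cnt (fun z => S z ∧ G.Adj x z ∧ (Gd x z ∨ Gd z x) ∧ ¬ K x z) :=
        cnt_le_add3 fun y hy => by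
          have hyI := mem_filter.1 hy.1
          by_cases a1 : G.Adj x y
          · by_cases a2 : Gd x y
            · exact Or.inr (Or.inr ⟨IS y hyI.1, a1, Or.inl a2, ind x hxI y hyI.1⟩)
            · exact Or.inr (Or.inl ⟨⟨a1, Or.inr (not_lt.1 fun hc => hy.2 ⟨a1, hc⟩)⟩, a2⟩)
          · exact Or.inl ⟨hyI.2, a1⟩
      linarith [c.small])
  linarith

end D4x

theorem D4 (hq : CLQ_stmt) : D4_stmt := by
  intro V _ G e b c Gd S D hG hS hD H' hsym hsub hdel I hI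
  obtain ⟨h, c⟩ := c
  have key := D4x.core hq c hG hS hD
    (K := fun x y => ∃ (hx : S x) (hy : S y), H' ⟨x, hx⟩ ⟨y, hy⟩)
    (fun x y ⟨hx, hy, hk⟩ => (hsub _ _ hk).1)
    (fun x hx => by
      refine le_trans ?_ (hdel ⟨x, hx⟩)
      rw [← cnt_subtype S fun y => G.Adj x y ∧ (Gd x y ∨ Gd y x) ∧
        ¬ ∃ (hx : S x) (hy : S y), H' ⟨x, hx⟩ ⟨y, hy⟩]
      exact cnt_mono fun y hy => ⟨⟨hy.1, hy.2.1⟩, fun hc => hy.2.2 ⟨hx, y.2, hc⟩⟩)
    (I.map (Function.Embedding.subtype S))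
    (fun x hx => by
      obtain ⟨x', _, rfl⟩ := mem_map.1 hx
      exact x'.2)
    (fun x hx y hy ⟨_, _, hk⟩ => by
      obtain ⟨x', hx', rfl⟩ := mem_map.1 hx
      obtain ⟨y', hy', rfl⟩ := mem_map.1 hy
      exact hI x' hx' y' hy' hk)
  rw [card_map] at key
  refine key.trans ?_
  have h1 : cnt (fun y => ∃ x ∈ I.map (Function.Embedding.subtype S),
        ∃ (hx : S x) (hy : S y), H' ⟨x, hx⟩ ⟨y, hy⟩) ≤
      cnt (fun y => S y ∧ ∃ x ∈ I, ∃ hy : S y, H' x ⟨y, hy⟩) :=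
    cnt_mono fun y ⟨x, hx, _, hy, hk⟩ => by
      obtain ⟨x', hx', rfl⟩ := mem_map.1 hx
      exact ⟨hy, x', hx', hy, hk⟩
  refine h1.trans ?_
  rw [← cnt_subtype S fun y => ∃ x ∈ I, ∃ hy : S y, H' x ⟨y, hy⟩]
  exact cnt_mono fun y ⟨x, hx, _, hk⟩ => ⟨x, hx, hk⟩

end Pool.Agent.MP_c1b6d0_co.H73.V2
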