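import Pool.Agent.MP_c1b6d0_co.V2.Basic

/-! Part 2: rows F2, F3, F4. -/

open Finset
open scoped Classical

namespace Pool.Agent.MP_c1b6d0_co.H73.V2

namespace Fx

variable {V : Type} [Fintype V] {G : SimpleGraph V} {e b h : ℝ}

/-- the vertices outside `S` whose degree is at most that of a top vertex -/
theorem rest (c : Ctx2 G e b h) {u : V} (hu : TopU G e u) (S : Finset V) :
    ∃ B : Finset V, Disjoint S B ∧ (∀ v ∈ B, dg G v ≤ dg G u) ∧
      nn V - S.card - h * nn V ≤ B.card ∧ (S.card : ℝ) + B.card ≤ nn V := by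
  have hd : Disjoint S (univ \ (S ∪ univ.filter fun z => dg G u < dg G z)) :=
    disjoint_sdiff.mono_left subset_union_left
  refine ⟨univ \ (S ∪ univ.filter fun z => dg G u < dg G z), hd, fun v hv => ?_, ?_, ?_⟩
  · simp only [mem_sdiff, mem_univ, mem_union, mem_filter, true_and, not_or, not_lt] at hv
    exact hv.2
  · have h1 := card_sdiff_add_card_eq_card
      (subset_univ (S ∪ univ.filter fun z => dg G u < dg G z))
    have h2 := card_union_le S (univ.filter fun z => dg G u < dg G z)
    have h3 : Fintype.card V ≤ (univ \ (S ∪ univ.filter fun z => dg G u < dg G z)).card +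
        (S.card + (univ.filter fun z => dg G u < dg G z).card) := by
      rw [card_univ] at h1
      omega
    have h4 : nn V ≤ ((univ \ (S ∪ univ.filter fun z => dg G u < dg G z)).card : ℝ) +
        (S.card + cnt fun z => dg G u < dg G z) := by
      unfold nn cnt
      exact_mod_cast h3
    unfold TopU at hu
    linarith [c.gap1 (d := 61) (by norm_num), c.en_le, c.s_large]
  · have h1 := card_le_univ (S ∪ (univ \ (S ∪ univ.filter fun z => dg G u < dg G z)))
    rw [card_union_of_disjoint hd] at h1
    unfold nn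
    exact_mod_cast h1

omit [Fintype V] in
theorem card_un {A C : Finset V} (hd : Disjoint A C) : ((A ∪ C).card : ℝ) = A.card + C.card := by
  rw [card_union_of_disjoint hd]
  push_cast
  rfl

end Fx

open Fx

theorem F2 : F2_stmt := by
  intro V _ G e b h c u A C hu hA hAC h1 h2 h3 h4
  obtain ⟨B, d, hB, k1, k2⟩ := rest c hu (A ∪ C)
  rw [card_un hAC] at k1 k2
  have hs : 0 < h * nn V := mul_pos c.h_pos c.n_pos
  have hne : B.Nonempty := by
    have : (0 : ℝ) < B.card := by linarith [c.hn_le]
    exact card_pos.1 (by exact_mod_cast this)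
  exact c.noBar ⟨A, B, C, hA, hne, d.mono_left subset_union_left, hAC,
    (d.mono_left subset_union_right).symm, by linarith, fun v hv => by linarith [h3 v hv],
    fun v hv => by linarith [hB v hv], h4⟩

theorem F3 : F3_stmt := by
  intro V _ G e b h c u P Q hu hP hQ hPQ h1 h2 h3
  obtain ⟨C, d, hC, k1, k2⟩ := rest c hu (P ∪ Q)
  rw [card_un hPQ] at k1 k2
  have hs : 0 < h * nn V := mul_pos c.h_pos c.n_pos
  exact c.noBar ⟨P, Q, C, hP, hQ, hPQ, d.mono_left subset_union_left,
    d.mono_left subset_union_right, by linarith, h2, h3, fun v hv => by linarith [hC v hv]⟩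

theorem F4 : F4_stmt := by
  intro V _ G e b h c u hu
  have hs : 1000 ≤ h * nn V := by linarith [c.en_le, c.s_large]
  have hn := c.hn_le
  have h1 : nn V - dg G u ≤ nn V / 3 := by
    by_contra hc
    push Not at hc
    obtain ⟨k, k1, k2⟩ : ∃ k : ℕ, (k : ℝ) ≤ nn V / 3 ∧ nn V / 3 < k + 1 :=
      ⟨⌊nn V / 3⌋₊, Nat.floor_le (by linarith), Nat.lt_floor_add_one _⟩
    obtain ⟨B, -, hB, b1, -⟩ := rest c hu ∅
    obtain ⟨A, hA, a1⟩ := exists_subset_card_eq (s := B) (n := k) (by
      have : (k : ℝ) ≤ B.card := by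
        simp only [card_empty, Nat.cast_zero] at b1
        linarith
      exact_mod_cast this)
    obtain ⟨B', d, hB', b2, -⟩ := rest c hu A
    obtain ⟨C, hC, c1⟩ := exists_subset_card_eq (s := B') (n := k) (by
      have : (k : ℝ) ≤ B'.card := by
        rw [a1] at b2
        linarith
      exact_mod_cast this)
    refine F2 V G e b h c u A C hu (card_pos.1 ?_) (d.mono_right hC) ?_ ?_ (fun v hv => ?_)
      fun v hv => ?_
    · have : (0 : ℝ) < k := by linarith
      rw [a1]
      exact_mod_cast this
    · rw [a1]; linarith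
    · rw [a1, c1]; linarith
    · rw [a1, c1]; linarith [hB v (hA hv)]
    · rw [c1]; linarith [hB' v (hC hv)]
  refine ⟨h1, fun x => ?_⟩
  by_contra hc
  push Not at hc
  obtain ⟨k, hk⟩ : ∃ k : ℕ, (k : ℝ) = nn V - dg G u := by
    unfold dg
    rw [← cnt_not (G.Adj u)]
    exact ⟨_, rfl⟩
  obtain ⟨B, d, hB, b1, -⟩ := rest c hu {x}
  obtain ⟨C, hC, c1⟩ := exists_subset_card_eq (s := B) (n := k) (by
    have : (k : ℝ) ≤ B.card := by
      simp only [card_singleton, Nat.cast_one] at b1
      linarith
    exact_mod_cast this)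
  refine F2 V G e b h c u {x} C hu (singleton_nonempty x) (d.mono_right hC) ?_ ?_
    (fun v hv => ?_) fun v hv => ?_
  · rw [card_singleton, Nat.cast_one]; linarith [dg_le (G := G) u]
  · rw [card_singleton, Nat.cast_one, c1]; linarith
  · rw [mem_singleton.1 hv, card_singleton, Nat.cast_one, c1]; linarith
  · rw [c1]; linarith [hB v (hC hv)]

end Pool.Agent.MP_c1b6d0_co.H73.V2
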