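import Pool.Agent.MP_c1b6d0_co.H73.FIN
import Pool.Agent.MP_c1b6d0_co.V2.Basic

/-! Row FIN: close the cycles, absorb the leftover, glue along the chain. -/

open Finset
open scoped Classical

namespace Pool.Agent.MP_c1b6d0_co.H73.V2

namespace FINx

open Pool.Agent.MP_c1b6d0_co.H73.FINx (hall gI gI_inj)

variable {V : Type} [Fintype V] {G : SimpleGraph V} {e b : ℝ}

theorem col_eq (σ : Sel G e b) {j j' : Fin (σ.r ^ 2)} {i i' : Fin 6}
    (h : σ.col j i = σ.col j' i') : j = j' ∧ i = i' := by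
  have := σ.colInj (a₁ := (j, i)) (a₂ := (j', i')) h
  exact Prod.ext_iff.1 this

theorem abs_eq (σ : Sel G e b) {j j' : Fin σ.mA} {i i' : Fin 8}
    (h : σ.abs j i = σ.abs j' i') : j = j' ∧ i = i' := by
  have := σ.absInj (a₁ := (j, i)) (a₂ := (j', i')) h
  exact Prod.ext_iff.1 this

/-- the double wheels of the colours -/
theorem colours (h4 : P4_stmt) (mg : MERGE_stmt) (h : Ctx G e b) (σ : Sel G e b)
    (Q : List (Fin (σ.r ^ 2) × List V)) (hQ : Cover σ Q) :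
    ∃ U1 : Fin (σ.r ^ 2) → Finset V, (∀ j j', j ≠ j' → Disjoint (U1 j) (U1 j')) ∧
      (∀ j, ∀ x ∈ U1 j, (∃ i, x = σ.col j i) ∨ x ∈ flat Q ∨ ∃ k l, x = σ.res k l) ∧
      (∀ j i, i ≠ 2 → σ.col j i ∈ U1 j) ∧ (∀ x ∈ flat Q, ∃ j, x ∈ U1 j) ∧
      ∀ j, Piece G (U1 j) {{σ.col j 3, σ.col j 4, σ.col j 0}, {σ.col j 3, σ.col j 4, σ.col j 1}} := by
  obtain ⟨q1, q2, q3, q4, _⟩ := hQ
  have hN : ∀ j (i : Fin 3), G.Adj (σ.col j 0) (σ.col j (gI i)) ∧
      G.Adj (σ.col j 1) (σ.col j (gI i)) := by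
    intro j i
    obtain ⟨p0, p1, _, _, c3, c5⟩ := σ.colT j
    fin_cases i
    · exact ⟨c3.1, c3.2.1⟩
    · exact ⟨p0.nice.2.2.1.symm, p1.nice.2.2.1.symm⟩
    · exact ⟨c5.1, c5.2.1⟩
  obtain ⟨tl, t1, t2, t3⟩ := mg V (Fin (σ.r ^ 2)) (Fin σ.mR) G
    (fun j x => G.Adj (σ.col j 0) x ∧ G.Adj (σ.col j 1) x)
    (fun j => Cl G e (σ.col j 0) (σ.col j 1) (σ.col j 2)) (fun j i => σ.col j (gI i)) σ.res Q
    (fun p p' hp => by
      obtain ⟨a1, a2⟩ := col_eq σ (j := p.1) (j' := p'.1) (i := gI p.2) (i' := gI p'.2) hp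
      exact Prod.ext a1 (gI_inj a2))
    σ.resInj (fun j i k l => σ.col_res j _ k l)
    (fun j i hx => (q2 _ hx).1 j _ rfl) (fun k l hx => (q2 _ hx).2.2.1 k l rfl) q1
    (fun j => ⟨(σ.colT j).1.nice.1, (σ.colT j).2.2.1⟩) hN
    (fun j => ⟨(σ.colT j).2.2.2.2.1, (σ.colT j).2.2.2.2.2⟩) q3
    (fun j z z' hz hz' => by
      refine le_trans ?_ (σ.resC j z z' hz hz')
      have a1 := σ.size3
      have a2 := h.gap (a := 801) (d := 803) (by norm_num)
      have a3 := h.scale (a := 803) (by norm_num)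
      rw [nn_fin]
      linarith)
  have g0 : gI 0 = 3 := rfl
  have g1 : gI 1 = 4 := rfl
  have g2 : gI 2 = 5 := rfl
  simp only [g0, g1, g2] at t1
  have ncol : ∀ j j' i, σ.col j' i ∉ tl j := by
    intro j j' i hx
    rcases (t1 j).2.2.2 _ hx with hf | ⟨k, l, hk⟩
    · exact (q2 _ hf).1 j' i rfl
    · exact σ.col_res _ _ _ _ hk
  have hmem : ∀ j x, x ∈ insert (σ.col j 0) (insert (σ.col j 1)
      (σ.col j 3 :: σ.col j 4 :: σ.col j 5 :: tl j).toFinset) ↔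
      (∃ i, i ≠ 2 ∧ x = σ.col j i) ∨ x ∈ tl j := by
    intro j x
    simp only [mem_insert, List.mem_toFinset, List.mem_cons]
    constructor
    · rintro (h | h | h | h | h | h)
      · exact Or.inl ⟨0, by decide, h⟩
      · exact Or.inl ⟨1, by decide, h⟩
      · exact Or.inl ⟨3, by decide, h⟩
      · exact Or.inl ⟨4, by decide, h⟩
      · exact Or.inl ⟨5, by decide, h⟩
      · exact Or.inr h
    · rintro (⟨i, hi, h⟩ | h)
      · fin_cases i
        · exact Or.inl h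
        · exact Or.inr (Or.inl h)
        · exact absurd rfl hi
        · exact Or.inr (Or.inr (Or.inl h))
        · exact Or.inr (Or.inr (Or.inr (Or.inl h)))
        · exact Or.inr (Or.inr (Or.inr (Or.inr (Or.inl h))))
      · exact Or.inr (Or.inr (Or.inr (Or.inr (Or.inr h))))
  refine ⟨fun j => insert (σ.col j 0) (insert (σ.col j 1)
    (σ.col j 3 :: σ.col j 4 :: σ.col j 5 :: tl j).toFinset), ?_, ?_, ?_, ?_, ?_⟩
  · intro j j' hj
    rw [disjoint_left]
    intro x hx hx'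
    rcases (hmem j x).1 hx with ⟨i, _, a⟩ | a <;> rcases (hmem j' x).1 hx' with ⟨i', _, a'⟩ | a'
    · exact hj (col_eq σ (a.symm.trans a')).1
    · exact ncol j' j i (a ▸ a')
    · exact ncol j j' i' (a' ▸ a)
    · exact t2 j j' hj x a a'
  · intro j x hx
    rcases (hmem j x).1 hx with ⟨i, _, a⟩ | a
    · exact Or.inl ⟨i, a⟩
    · exact Or.inr ((t1 j).2.2.2 x a)
  · intro j i hi
    exact (hmem j _).2 (Or.inl ⟨i, hi, rfl⟩)
  · intro x hx
    obtain ⟨j, hj⟩ := t3 x hx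
    exact ⟨j, (hmem j x).2 (Or.inr hj)⟩
  · intro j
    have pole : ∀ i : Fin 6, i ≠ 3 → i ≠ 4 → i ≠ 5 →
        σ.col j i ∉ σ.col j 3 :: σ.col j 4 :: σ.col j 5 :: tl j := by
      intro i a3 a4 a5 hx
      simp only [List.mem_cons] at hx
      rcases hx with a | a | a | a
      · exact a3 (col_eq σ a).2
      · exact a4 (col_eq σ a).2
      · exact a5 (col_eq σ a).2
      · exact ncol j j i a
    refine h4 V G (σ.col j 0) (σ.col j 1) (σ.col j 3) (σ.col j 4 :: σ.col j 5 :: tl j) _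
      (fun a => absurd (col_eq σ a).2 (by decide)) (t1 j).1
      (pole 0 (by decide) (by decide) (by decide)) (pole 1 (by decide) (by decide) (by decide))
      (by simp) (t1 j).2.1 ?_ ?_
    · intro x hx
      simp only [List.mem_cons] at hx
      rcases hx with rfl | rfl | rfl | a
      · exact hN j 0
      · exact hN j 1
      · exact hN j 2
      · exact (t1 j).2.2.1 x a
    · intro T hT
      refine ⟨[], σ.col j 3, σ.col j 4, σ.col j 5 :: (tl j ++ [σ.col j 3]), rfl, ?_⟩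
      simpa only [mem_insert, mem_singleton] using hT

end FINx

open Pool.Agent.MP_c1b6d0_co.H73.V2.FINx in
open Pool.Agent.MP_c1b6d0_co.H73.FINx (hall) in
theorem FIN (h4 : P4_stmt) (h3 : C3_stmt) (hm : MERGE_stmt) : FIN_stmt := by
  intro V _ G e b h σ Q hQ
  obtain ⟨U1, u1, u2, u3, u4, u5⟩ := colours h4 hm h σ Q hQ
  obtain ⟨_, q2, _, _, q5⟩ := hQ
  let Z : V → Prop := fun x => x ∉ σ.Y ∧ (∀ j, x ∉ U1 j) ∧ ∀ k l, x ≠ σ.abs k l
  have hZ : cnt Z ≤ e ^ 490 * nn V := by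
    have a1 : cnt Z ≤ cnt (fun x => ∃ j, x = σ.col j 2) + cnt (fun x => ∃ k l, x = σ.res k l) +
        cnt (fun x => σ.Free x ∧ x ∉ flat Q) := by
      refine cnt_le_add3 fun x hx => ?_
      by_cases b1 : ∃ j, x = σ.col j 2
      · exact Or.inl b1
      by_cases b2 : ∃ k l, x = σ.res k l
      · exact Or.inr (Or.inl b2)
      refine Or.inr (Or.inr ⟨⟨fun j i hi => ?_, hx.2.2, fun k l hk => b2 ⟨k, l, hk⟩, hx.1⟩,
        fun hf => ?_⟩)
      · by_cases hi2 : i = 2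
        · exact b1 ⟨j, hi2 ▸ hi⟩
        · exact hx.2.1 j (hi ▸ u3 j i hi2)
      · obtain ⟨j, hj⟩ := u4 x hf
        exact hx.2.1 j hj
    have a2 : cnt (fun x => ∃ j, x = σ.col j 2) ≤ ((σ.r ^ 2 : ℕ) : ℝ) := by
      refine (cnt_le_card (univ.image fun j => σ.col j 2) fun x ⟨j, hj⟩ =>
        mem_image.2 ⟨j, mem_univ _, hj.symm⟩).trans ?_
      have := card_image_le (s := (univ : Finset (Fin (σ.r ^ 2)))) (f := fun j => σ.col j 2)
      rw [card_univ, Fintype.card_fin] at this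
      exact_mod_cast this
    have a3 : cnt (fun x => ∃ k l, x = σ.res k l) ≤ 3 * (σ.mR : ℝ) := by
      refine (cnt_le_card (univ.image (Function.uncurry σ.res)) fun x ⟨k, l, hj⟩ =>
        mem_image.2 ⟨(k, l), mem_univ _, hj.symm⟩).trans ?_
      have := card_image_le (s := (univ : Finset (Fin σ.mR × Fin 3))) (f := Function.uncurry σ.res)
      rw [card_univ, Fintype.card_prod, Fintype.card_fin, Fintype.card_fin, mul_comm] at this
      exact_mod_cast this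
    have a4 := σ.size2
    have a5 := h.gap (a := 490) (d := 491) (by norm_num)
    have a6 := h.gap (a := 490) (d := 803) (by norm_num)
    have a7 := h.scale (a := 490) (by norm_num)
    linarith
  obtain ⟨φ, φ1, φ2⟩ := hall Z (fun x k => AbsT G e b x (σ.abs k))
    fun x _ => hZ.trans (σ.absC x)
  have hU2 : ∀ k, ∃ U : Finset V,
      Piece G U {{σ.abs k 6, σ.abs k 7, σ.abs k 0}, {σ.abs k 6, σ.abs k 7, σ.abs k 1}} ∧
      ∀ x, x ∈ U ↔ (∃ l, x = σ.abs k l) ∨ ∃ hz : Z x, φ ⟨x, hz⟩ = k := by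
    intro k
    have inj : Function.Injective (σ.abs k) := fun i i' a => (abs_eq σ a).2
    obtain ⟨c1, c2⟩ := h3 V G e b (σ.abs k) inj
    by_cases hk : ∃ z, φ z = k
    · obtain ⟨z, hz⟩ := hk
      refine ⟨_, c2 z.1 (hz ▸ φ2 z) (fun i => z.2.2.2 k i), fun x => ?_⟩
      rw [mem_insert, mem_image]
      constructor
      · rintro (a | ⟨l, _, a⟩)
        · subst a
          exact Or.inr ⟨z.2, hz⟩
        · exact Or.inl ⟨l, a.symm⟩
      · rintro (⟨l, a⟩ | ⟨hx, a⟩)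
        · exact Or.inr ⟨l, mem_univ _, a.symm⟩
        · exact Or.inl (congrArg Subtype.val (φ1 (a.trans hz.symm)))
    · refine ⟨_, c1 (σ.absV k), fun x => ?_⟩
      rw [mem_image]
      constructor
      · rintro ⟨l, _, a⟩
        exact Or.inl ⟨l, a.symm⟩
      · rintro (⟨l, a⟩ | ⟨hx, a⟩)
        · exact ⟨l, mem_univ _, a.symm⟩
        · exact absurd ⟨_, a⟩ hk
  choose U2 v1 v2 using hU2
  obtain ⟨T, hT⟩ := σ.chain U1 U2 u1
    (fun k k' hk => disjoint_left.2 fun x hx hx' => by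
      rcases (v2 k x).1 hx with ⟨l, a⟩ | ⟨z, a⟩ <;> rcases (v2 k' x).1 hx' with ⟨l', a'⟩ | ⟨z', a'⟩
      · exact hk (abs_eq σ (a.symm.trans a')).1
      · exact z'.2.2 k l a
      · exact z.2.2 k' l' a'
      · exact hk (a.symm.trans a'))
    (fun j k => disjoint_left.2 fun x hx hx' => by
      rcases (v2 k x).1 hx' with ⟨l, a⟩ | ⟨z, _⟩
      · rcases u2 j x hx with ⟨i, a'⟩ | a' | ⟨k', l', a'⟩
        · exact σ.col_abs j i k l (a'.symm.trans a)
        · exact (q2 x a').2.1 k l a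
        · exact σ.abs_res k l k' l' (a.symm.trans a')
      · exact z.2.1 j hx)
    (fun j => disjoint_left.2 fun x hx hx' => by
      rcases u2 j x hx with ⟨i, a'⟩ | a' | ⟨k', l', a'⟩
      · exact σ.col_Y j i (a' ▸ hx')
      · exact (q2 x a').2.2.2 hx'
      · exact σ.res_Y k' l' (a' ▸ hx'))
    (fun k => disjoint_left.2 fun x hx hx' => by
      rcases (v2 k x).1 hx with ⟨l, a⟩ | ⟨z, _⟩
      · exact σ.abs_Y k l (a ▸ hx')
      · exact z.1 hx')
    u5 v1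
  refine ⟨T, ?_⟩
  have hu : σ.Y ∪ univ.biUnion U1 ∪ univ.biUnion U2 = univ := by
    refine eq_univ_of_forall fun x => ?_
    rw [mem_union, mem_union, mem_biUnion, mem_biUnion]
    by_cases b1 : x ∈ σ.Y
    · exact Or.inl (Or.inl b1)
    by_cases b2 : ∃ j, x ∈ U1 j
    · obtain ⟨j, hj⟩ := b2
      exact Or.inl (Or.inr ⟨j, mem_univ _, hj⟩)
    by_cases b3 : ∃ k l, x = σ.abs k l
    · obtain ⟨k, l, hk⟩ := b3
      exact Or.inr ⟨k, mem_univ _, (v2 k x).2 (Or.inl ⟨l, hk⟩)⟩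
    have hz : Z x := ⟨b1, fun j hj => b2 ⟨j, hj⟩, fun k l hk => b3 ⟨k, l, hk⟩⟩
    exact Or.inr ⟨φ ⟨x, hz⟩, mem_univ _, (v2 _ x).2 (Or.inr ⟨hz, rfl⟩)⟩
  rwa [hu] at hT

end Pool.Agent.MP_c1b6d0_co.H73.V2
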