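import Pool.Agent.MP_c1b6d0_co.V2.Basic

/-! Row K0: all fine edges at the top vertex of the base triangle reach the base triangle. -/

open Finset
open scoped Classical

namespace Pool.Agent.MP_c1b6d0_co.H73.V2

namespace K0x

theorem exists_set {V : Type} [Fintype V] (p : V → Prop) :
    ∃ S : Finset V, (∀ x, x ∈ S ↔ p x) ∧ (S.card : ℝ) = cnt p :=
  ⟨univ.filter p, fun x => by simp, rfl⟩

theorem cnt_tri {V : Type} [Fintype V] (u a a' : V) :
    cnt (fun z => z ∈ ({u, a, a'} : Finset V)) ≤ 3 := by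
  rw [cnt_mem]
  exact_mod_cast (card_le_three : ({u, a, a'} : Finset V).card ≤ 3)

end K0x

theorem K0 (h3 : F3_stmt) (h4 : F4_stmt) : K0_stmt := by
  intro V _ G e b h c u a a' hB x0 hx0 hf0
  obtain ⟨hN, hT, hV, hE⟩ := hB
  set T : Finset V := {u, a, a'} with hTdef
  have hT3 : cnt (fun z => z ∈ T) ≤ 3 := K0x.cnt_tri u a a'
  have E1 : EE G e T 1 u a := EE.of_mem (k := 0) (z := a') (by simp [hTdef]) hN rfl
  have E2 : ∀ z, z ∉ T → Nice G e u a z → EE G e T 2 u z := fun z hz hn =>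
    EE.of_mem (k := 1) (z := a) (by simp [hTdef]) hn.swap23
      (by rw [tri_swap23]; exact E1 z hz hn)
  let Q : ℕ → V → Prop := fun j z => z ∉ T ∧ G.Adj u z ∧ EE G e T j u z
  have hQm : ∀ j l z, j ≤ l → Q j z → Q l z := fun j l z hjl hq =>
    ⟨hq.1, hq.2.1, hq.2.2.mono hjl⟩
  have hs1 := c.s_large
  have hs2 := c.en_le
  have hs3 := c.gap1 (d := 4) (by norm_num)
  have hs4 := c.gap1 (d := 5) (by norm_num)
  have hs5 := c.en_le_h5
  have hs6 := c.hgap (a := 2) (d := 5) (by norm_num)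
  have hs7 := c.hgap1 (d := 2) (by norm_num)
  have hQ2 : 99 * (h * nn V) ≤ cnt (Q 2) := by
    have a1 := codeg_ge (G := G) u a
    have a2 := (h4 V G e b h c u hT).2 a
    have a3 : cnt (fun z => G.Adj u z ∧ G.Adj a z) ≤ cnt (Q 2) +
        cnt (fun z => G.Adj u z ∧ G.Adj a z ∧ ¬ Nice G e u a z) + cnt (fun z => z ∈ T) := by
      refine cnt_le_add3 fun z hz => ?_
      by_cases hzT : z ∈ T
      · exact Or.inr (Or.inr hzT)
      by_cases hn : Nice G e u a z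
      · exact Or.inl ⟨hzT, hz.1, E2 z hzT hn⟩
      · exact Or.inr (Or.inl ⟨hz.1, hz.2, hn⟩)
    have a4 := hE.2
    linarith
  obtain ⟨j, hj2, hjN, hstep⟩ := exists_short_step (fun j => cnt (Q j)) (nn V)
    (h ^ 2 * nn V / 2) 2 ⌈2 / h ^ 2⌉₊ (fun j => cnt_nonneg _) (fun j => cnt_le_nn _) c.steps
  have hstep' : cnt (Q (j + 1)) ≤ cnt (Q j) + h ^ 2 * nn V / 2 := hstep
  by_contra hcon
  let R : V → Prop := fun x => x ∉ T ∧ FineE G e u x ∧ ¬ EE G e T (j + 1) u x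
  have hR0 : R x0 := ⟨hx0, hf0, fun hh => hcon (hh.mono (by unfold lam; omega))⟩
  have hnew : cnt (fun z => Q (j + 1) z ∧ ¬ Q j z) ≤ h ^ 2 * nn V / 2 := by
    have a1 := cnt_split (Q (j + 1)) (Q j)
    have a2 : cnt (Q j) ≤ cnt (fun z => Q (j + 1) z ∧ Q j z) :=
      cnt_mono fun z hz => ⟨hQm j (j + 1) z (by omega) hz, hz⟩
    linarith
  have hA : ∀ x, R x → cnt (fun z => G.Adj x z ∧ Q (j + 1) z) ≤ h ^ 2 * nn V := by
    intro x hx
    have a1 : cnt (fun z => Nice G e u x z ∧ EE G e T j u z) < e ^ 5 * nn V := by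
      by_contra hc
      exact hx.2.2 (EE.of_many' hx.1 (not_lt.1 hc))
    have a2 : cnt (fun z => G.Adj x z ∧ Q (j + 1) z) ≤
        cnt (fun z => Nice G e u x z ∧ EE G e T j u z) +
        cnt (fun z => G.Adj u z ∧ G.Adj x z ∧ ¬ Nice G e u x z) +
        cnt (fun z => Q (j + 1) z ∧ ¬ Q j z) := by
      refine cnt_le_add3 fun z hz => ?_
      by_cases hq : Q j z
      · by_cases hn : Nice G e u x z
        · exact Or.inl ⟨hn, hq.2.2⟩
        · exact Or.inr (Or.inl ⟨hq.2.1, hz.1, hn⟩)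
      · exact Or.inr (Or.inr ⟨hz.2, hq⟩)
    have a3 := hx.2.1.2
    linarith
  let Bad : V → Prop := fun z => Q (j + 1) z ∧ h * nn V ≤ cnt (fun x => R x ∧ G.Adj x z)
  have hspos : 0 < h * nn V := by linarith
  have hBad : cnt Bad ≤ h * nn V := by
    have a1 : cnt Bad * (h * nn V) ≤
        cnt (fun p : V × V => Q (j + 1) p.1 ∧ R p.2 ∧ G.Adj p.2 p.1) :=
      cnt_mul_le_pairs (R := fun z x => Q (j + 1) z ∧ R x ∧ G.Adj x z) fun z hz =>
        hz.2.trans (cnt_mono fun x hx => ⟨hz.1, hx.1, hx.2⟩)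
    have a2 : cnt (fun p : V × V => Q (j + 1) p.1 ∧ R p.2 ∧ G.Adj p.2 p.1) ≤
        nn V * (h ^ 2 * nn V) := by
      refine pairs_le_nn_mul' (R := fun z x => Q (j + 1) z ∧ R x ∧ G.Adj x z) fun x => ?_
      by_cases hx : R x
      · exact le_trans (cnt_mono fun z hz => ⟨hz.2.2, hz.1⟩) (hA x hx)
      · have : cnt (fun z => Q (j + 1) z ∧ R x ∧ G.Adj x z) ≤ cnt (fun _ : V => False) :=
          cnt_mono fun z hz => hx hz.2.1
        rw [cnt_false] at this
        linarith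
    have a3 : nn V * (h ^ 2 * nn V) = (h * nn V) * (h * nn V) := by ring
    exact le_of_mul_le_mul_right (by linarith) hspos
  let Q' : V → Prop := fun z => Q (j + 1) z ∧ ¬ Bad z
  have hQ'1 : cnt (Q (j + 1)) ≤ cnt Q' + cnt Bad := by
    refine cnt_le_add fun z hz => ?_
    by_cases hb : Bad z
    · exact Or.inr hb
    · exact Or.inl ⟨hz, hb⟩
  have hQ'2 : cnt Q' ≤ cnt (Q (j + 1)) := cnt_mono fun z hz => hz.1
  have hQ2' : cnt (Q 2) ≤ cnt (Q (j + 1)) := cnt_mono fun z hz => hQm 2 (j + 1) z (by omega) hz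
  obtain ⟨z0, hz0⟩ := exists_of_cnt_pos (p := Q') (by linarith)
  obtain ⟨P, hP, hPc⟩ := K0x.exists_set R
  obtain ⟨S, hS, hSc⟩ := K0x.exists_set Q'
  refine h3 V G e b h c u P S hT ⟨x0, (hP _).2 hR0⟩ ⟨z0, (hS _).2 hz0⟩ ?_ ?_ ?_ ?_
  · rw [Finset.disjoint_left]
    intro x hx hx'
    exact ((hP _).1 hx).2.2 ((hS _).1 hx').1.2.2
  · have a1 : dg G u ≤ cnt R + cnt (Q (j + 1)) +
        cnt (fun y => G.Adj u y ∧ ¬ FineE G e u y) + cnt (fun z => z ∈ T) := by
      refine cnt_le_add4 fun y hy => ?_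
      by_cases hyT : y ∈ T
      · exact Or.inr (Or.inr (Or.inr hyT))
      by_cases hfy : FineE G e u y
      · by_cases hee : EE G e T (j + 1) u y
        · exact Or.inr (Or.inl ⟨hyT, hy, hee⟩)
        · exact Or.inl ⟨hyT, hfy, hee⟩
      · exact Or.inr (Or.inr (Or.inl ⟨hy, hfy⟩))
    have a2 : cnt (fun y => G.Adj u y ∧ ¬ FineE G e u y) ≤ e ^ 4 * nn V := hV
    rw [hPc, hSc]
    linarith
  · intro v hv
    have a1 : dg G v ≤ cnt (fun z => G.Adj v z ∧ Q (j + 1) z) + cnt (fun z => ¬ Q (j + 1) z) := by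
      refine cnt_le_add fun z hz => ?_
      by_cases hq : Q (j + 1) z
      · exact Or.inl ⟨hz, hq⟩
      · exact Or.inr hq
    have a2 := hA v ((hP _).1 hv)
    have a3 := cnt_not (Q (j + 1))
    rw [hSc]
    linarith
  · intro z hz
    have hz' := (hS _).1 hz
    have a1 : dg G z ≤ cnt (fun x => R x ∧ G.Adj x z) + cnt (fun x => ¬ R x) := by
      refine cnt_le_add fun x hx => ?_
      by_cases hr : R x
      · exact Or.inl ⟨hr, hx.symm⟩
      · exact Or.inr hr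
    have a2 : cnt (fun x => R x ∧ G.Adj x z) < h * nn V := by
      by_contra hc
      exact hz'.2 ⟨hz'.1, not_lt.1 hc⟩
    have a3 := cnt_not R
    rw [hPc]
    linarith

end Pool.Agent.MP_c1b6d0_co.H73.V2
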