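import Pool.Agent.MP_c1b6d0_co.V2.Basic

/-! Part 2: the band step. -/

open Finset
open scoped Classical

namespace Pool.Agent.MP_c1b6d0_co.H73.V2

theorem K2 (hA : A1_stmt) (h0 : K0_stmt) (hC : COUNT_stmt) : K2_stmt := by
  intro V _ G e b h c u a a' hB k D hk IH y hy yB yF yN hD x0 hx0 f0
  have hK0 := h0 V G e b h c u a a' hB
  obtain ⟨_, uT, uF, _⟩ := hB
  set T0 : Finset V := {u, a, a'} with hT0
  by_cases hDy : D ≤ dg G y
  · exact (IH y hy yB yF yN hDy x0 hx0 f0).mono (by omega)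
  have hDy' : dg G y < D := not_le.1 hDy
  have hi : ∀ w, D ≤ dg G w → Big G e b w := fun w hw => by
    unfold Big at yB ⊢; linarith
  have hT : T0.card ≤ 3 := card_le_three
  have t3 : cnt (fun z => z ∈ T0) ≤ 3 := by rw [cnt_mem]; exact_mod_cast hT
  have a1 := (hA V G e c.e_pos c.e_le).2.2
  have a2 : cnt (fun x => ¬ NotExc G e x) ≤ 2 * (e ^ 61 * nn V) := by
    have := cnt_exc (G := G) c.e_pos
    linarith
  have g4 := c.gap1 (d := 4) (by norm_num)
  have g5 := c.gap1 (d := 5) (by norm_num)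
  have g61 := c.gap1 (d := 61) (by norm_num)
  have gh := c.en_le
  have gh2 := c.hgap1 (d := 2) (by norm_num)
  have sl := c.s_large
  have yF' : cnt (fun z => G.Adj y z ∧ ¬ FineE G e y z) ≤ e ^ 4 * nn V := yF
  have uF' : cnt (fun z => G.Adj u z ∧ ¬ FineE G e u z) ≤ e ^ 4 * nn V := uF
  have K1 : ∀ z w, z ∉ T0 → w ∉ T0 → FineE G e u z → Nice G e u z w →
      EE G e T0 (lam h + 1) z w := fun z w hz hw hf hn =>
    EE.of_mem (z := u) (by simp [hT0]) hn.rot (by rw [← tri_rot]; exact hK0 z hz hf w hw hn)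
  obtain ⟨j, j1, j2, j3⟩ := exists_short_step
    (fun j => cnt fun z => G.Adj y z ∧ EE G e T0 j y z) (nn V) (h ^ 2 * nn V / 2) (k + 2)
    ⌈2 / h ^ 2⌉₊ (fun _ => cnt_nonneg _) (fun _ => cnt_le_nn _) c.steps
  have short : cnt (fun z => (G.Adj y z ∧ EE G e T0 (j + 1) y z) ∧
      ¬ (G.Adj y z ∧ EE G e T0 j y z)) ≤ h ^ 2 * nn V / 2 := by
    have s1 := cnt_split (fun z => G.Adj y z ∧ EE G e T0 (j + 1) y z)
      (fun z => G.Adj y z ∧ EE G e T0 j y z)
    have s2 : cnt (fun z => G.Adj y z ∧ EE G e T0 j y z) ≤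
        cnt (fun z => (G.Adj y z ∧ EE G e T0 (j + 1) y z) ∧ (G.Adj y z ∧ EE G e T0 j y z)) :=
      cnt_mono fun z hz => ⟨⟨hz.1, hz.2.mono (by omega)⟩, hz⟩
    linarith
  obtain ⟨R, hR⟩ : ∃ R : Finset V, ∀ x, x ∈ R ↔ (x ∉ T0 ∧ FineE G e y x ∧ FineV G e x ∧
      NotExc G e x ∧ (G.Adj u x → FineE G e u x) ∧ ¬ EE G e T0 (j + 1) y x) :=
    ⟨univ.filter fun x => x ∉ T0 ∧ FineE G e y x ∧ FineV G e x ∧ NotExc G e x ∧
      (G.Adj u x → FineE G e u x) ∧ ¬ EE G e T0 (j + 1) y x, fun x => by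
        rw [mem_filter]; exact ⟨fun hx => hx.2, fun hx => ⟨mem_univ _, hx⟩⟩⟩
  have bad : cnt (fun z => G.Adj y z ∧ z ∉ R ∧ ¬ EE G e T0 (j + 1) y z) ≤ e * nn V := by
    have c2 := cnt_le_add5 (p := fun z => G.Adj y z ∧ z ∉ R ∧ ¬ EE G e T0 (j + 1) y z)
      (q := fun z => z ∈ T0) (r := fun z => G.Adj y z ∧ ¬ FineE G e y z)
      (s := fun z => ¬ FineV G e z) (t := fun z => ¬ NotExc G e z)
      (u := fun z => G.Adj u z ∧ ¬ FineE G e u z) fun z hz => by
        by_contra hc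
        simp only [not_or, not_and, not_not] at hc
        exact hz.2.1 ((hR z).2 ⟨hc.1, hc.2.1 hz.1, hc.2.2.1, hc.2.2.2.1, hc.2.2.2.2, hz.2.2⟩)
    linarith
  have two : ∀ x ∈ R, ∀ l : ℕ, l ≤ j → ∀ P E : V → Prop, cnt E ≤ e ^ 4 * nn V + 3 →
      (∀ z, P z → ¬ E z → G.Adj x z ∧ G.Adj y z ∧ EE G e T0 l x z) → cnt P ≤ e * nn V := by
    intro x hx l hl P E hE hP
    obtain ⟨_, x2, _, _, _, x6⟩ := (hR x).1 hx
    by_contra hc
    refine x6 ((EE.of_many' (k := l) (p := x) hy ?_).symm.mono (by omega))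
    have c2 := cnt_le_add3 (p := P) (q := fun z => Nice G e x y z ∧ EE G e T0 l x z) (r := E)
      (s := fun z => G.Adj y z ∧ G.Adj x z ∧ ¬ Nice G e y x z) fun z hz => by
        by_contra hc'
        simp only [not_or, not_and, not_not] at hc'
        obtain ⟨p1, p2, p3⟩ := hP z hz hc'.2.1
        exact hc'.1 (hc'.2.2 p2 p1).swap12 p3
    linarith [x2.2, not_le.1 hc]
  by_cases hne : R.Nonempty
  · exfalso
    refine hC V G e b h c u y D R uT yB (yN.le_top uT) hD hne (fun x hx => ?_) (fun x hx => ?_)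
      (fun x hx => ?_) (fun x hx hux => ?_) (fun x hx => ?_)
    · obtain ⟨x1, x2, x3, x4, _, x6⟩ := (hR x).1 hx
      refine ⟨x2.1, not_le.1 fun hd => x6 ?_⟩
      exact (IH x x1 (hi x hd) x3 x4 hd y hy x2.symm).symm.mono (by omega)
    · obtain ⟨x1, x2, _, _, _, x6⟩ := (hR x).1 hx
      have c1 : cnt (fun z => Nice G e y x z ∧ EE G e T0 j y z) < e ^ 5 * nn V :=
        not_le.1 fun hc => x6 (EE.of_many' x1 hc)
      have c2 := cnt_le_add4 (p := fun z => G.Adj x z ∧ G.Adj y z ∧ z ∉ R)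
        (q := fun z => Nice G e y x z ∧ EE G e T0 j y z)
        (r := fun z => G.Adj y z ∧ z ∉ R ∧ ¬ EE G e T0 (j + 1) y z)
        (s := fun z => (G.Adj y z ∧ EE G e T0 (j + 1) y z) ∧ ¬ (G.Adj y z ∧ EE G e T0 j y z))
        (t := fun z => G.Adj y z ∧ G.Adj x z ∧ ¬ Nice G e y x z) fun z hz => by
          by_contra hc
          simp only [not_or, not_and, not_not] at hc
          have e1 := hc.2.1 hz.2.1 hz.2.2
          have e2 := hc.2.2.1
          simp only [and_imp] at e2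
          exact hc.1 (hc.2.2.2 hz.2.1 hz.1) (by
            by_contra e3
            exact e2 hz.2.1 e1 (fun _ => e3))
      linarith [x2.2]
    · obtain ⟨x1, _, x3, _, _, _⟩ := (hR x).1 hx
      have x3' : cnt (fun z => G.Adj x z ∧ ¬ FineE G e x z) ≤ e ^ 4 * nn V := x3
      refine two x hx (k + 1) (by omega) _ (fun z => G.Adj x z ∧ ¬ FineE G e x z) (by linarith) ?_
      rintro z ⟨zR, zx, zc⟩ hE
      obtain ⟨z1, z2, -⟩ := (hR z).1 zR
      have fz : FineE G e x z := by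
        by_contra hf
        exact hE ⟨zx, hf⟩
      refine ⟨zx, z2.1, EE.of_many' z1 ?_⟩
      have c2 := cnt_le_add6 (p := fun w => G.Adj x w ∧ G.Adj z w ∧ D ≤ dg G w)
        (q := fun w => Nice G e x z w ∧ EE G e T0 k x w) (r := fun w => w ∈ T0)
        (s := fun w => ¬ FineV G e w) (t := fun w => ¬ NotExc G e w)
        (u := fun w => G.Adj x w ∧ ¬ FineE G e x w)
        (v := fun w => G.Adj x w ∧ G.Adj z w ∧ ¬ Nice G e x z w) fun w hw => by
          by_contra hc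
          simp only [not_or, not_and, not_not] at hc
          exact hc.1 (hc.2.2.2.2.2 hw.1 hw.2.1)
            (IH w hc.2.1 (hi w hw.2.2) hc.2.2.1 hc.2.2.2.1 hw.2.2 x x1
              (hc.2.2.2.2.1 hw.1).symm).symm
      linarith [fz.2]
    · obtain ⟨x1, _, _, _, x5, _⟩ := (hR x).1 hx
      have fu := x5 hux
      refine two x hx (lam h + 1) (by omega) _
        (fun w => (G.Adj u w ∧ G.Adj x w ∧ ¬ Nice G e u x w) ∨ w ∈ T0) ?_ ?_
      · have := cnt_or_le (fun w => G.Adj u w ∧ G.Adj x w ∧ ¬ Nice G e u x w) (fun w => w ∈ T0)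
        linarith [fu.2]
      · rintro w ⟨w1, w2, w3⟩ hE
        simp only [not_or, not_and, not_not] at hE
        exact ⟨w1, w2, K1 x w x1 hE.2 fu (hE.1 w3 w1)⟩
    · obtain ⟨x1, _, x3, _, _, _⟩ := (hR x).1 hx
      have x3' : cnt (fun z => G.Adj x z ∧ ¬ FineE G e x z) ≤ e ^ 4 * nn V := x3
      refine two x hx (lam h + 1 + 1) (by omega) _ (fun z => G.Adj x z ∧ ¬ FineE G e x z)
        (by linarith) ?_
      rintro z ⟨zR, zx, zu, zc⟩ hE
      obtain ⟨z1, z2, _, _, z5, _⟩ := (hR z).1 zR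
      have fu := z5 zu
      have fz : FineE G e x z := by
        by_contra hf
        exact hE ⟨zx, hf⟩
      refine ⟨zx, z2.1, (EE.of_many' (p := z) x1 ?_).symm⟩
      have c2 := cnt_le_add4 (p := fun w => G.Adj x w ∧ G.Adj z w ∧ G.Adj u w)
        (q := fun w => Nice G e z x w ∧ EE G e T0 (lam h + 1) z w) (r := fun w => w ∈ T0)
        (s := fun w => G.Adj u w ∧ G.Adj z w ∧ ¬ Nice G e u z w)
        (t := fun w => G.Adj x w ∧ G.Adj z w ∧ ¬ Nice G e x z w) fun w hw => by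
          by_contra hc
          simp only [not_or, not_and, not_not] at hc
          exact hc.1 (hc.2.2.2 hw.1 hw.2.1).swap12
            (K1 z w z1 hc.2.1 fu (hc.2.2.1 hw.2.2 hw.2.1))
      linarith [fz.2, fu.2]
  · refine (EE.of_many' (k := j + 1) hx0 ?_).mono (by unfold lam; omega)
    have c1 := c.codeg_big yB x0
    have c2 := cnt_le_add3 (p := fun z => G.Adj x0 z ∧ G.Adj y z)
      (q := fun z => Nice G e y x0 z ∧ EE G e T0 (j + 1) y z)
      (r := fun z => G.Adj y z ∧ z ∉ R ∧ ¬ EE G e T0 (j + 1) y z)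
      (s := fun z => G.Adj y z ∧ G.Adj x0 z ∧ ¬ Nice G e y x0 z) fun z hz => by
        by_contra hc
        simp only [not_or, not_and, not_not] at hc
        exact hc.1 (hc.2.2 hz.2 hz.1) (hc.2.1 hz.2 fun hz' => hne ⟨z, hz'⟩)
    linarith [f0.2]

end Pool.Agent.MP_c1b6d0_co.H73.V2
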