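import Pool.Agent.MP_c1b6d0_co.V2.Stmt

/-! Part 2: the barrier graph, and the Posa-type condition excludes barriers. -/

open Finset
open scoped Classical

namespace Pool.Agent.MP_c1b6d0_co.H73.V2

/-- no plane graph with `3n - 6` edges splits into two non-adjacent parts and an independent rest -/
def CONV_stmt : Prop := ∀ (V : Type) [Fintype V] (H : SimpleGraph V) (pos : V → ℝ × ℝ),
  PlaneDrawing H pos → 3 ≤ Fintype.card V → H.edgeSet.ncard + 6 = 3 * Fintype.card V →
  ∀ A B : V → Prop, (∃ x, A x) → (∃ x, B x) → (∀ x, A x → ¬ B x) →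
  (∀ x y, A x → B y → ¬ H.Adj x y) → (∀ x y, H.Adj x y → A x ∨ B x ∨ A y ∨ B y) → False

/-- two cliques `A`, `B` and an independent set `C` joined to both -/
def barG {V : Type} (A B C : Finset V) : SimpleGraph V where
  Adj x y := x ≠ y ∧ ¬ (x ∈ A ∧ y ∈ B) ∧ ¬ (x ∈ B ∧ y ∈ A) ∧ ¬ (x ∈ C ∧ y ∈ C)
  symm := ⟨fun _ _ h => ⟨h.1.symm, fun k => h.2.2.1 k.symm, fun k => h.2.1 k.symm,
    fun k => h.2.2.2 k.symm⟩⟩
  loopless := ⟨fun _ h => h.1 rfl⟩

theorem card_compl_le_ncard {n : ℕ} (S : Finset (Fin n)) (N : Set (Fin n))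
    (h : ∀ x, x ∉ S → x ∈ N) : (n : ℝ) - S.card ≤ N.ncard := by
  have h1 : (Sᶜ).card ≤ N.ncard := by
    rw [← Set.ncard_coe_finset]
    exact Set.ncard_le_ncard (fun x hx => h x (mem_compl.1 hx)) (Set.toFinite _)
  have h2 : (Sᶜ).card + S.card = n := by rw [card_compl_add_card, Fintype.card_fin]
  have h3 : ((Sᶜ).card : ℝ) + S.card = n := by exact_mod_cast h2
  have h4 : ((Sᶜ).card : ℝ) ≤ N.ncard := by exact_mod_cast h1
  linarith

theorem not_barrier_of_forces (cv : CONV_stmt) {n : ℕ} (hn : 3 ≤ n) (d : Fin n → ℕ)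
    (hf : Forces d) : ¬ Barrier d 0 := by
  rintro ⟨A, B, C, a1, a2, a3, a4, a5, a6, a7, a8, a9⟩
  have hall : ∀ x, x ∈ A ∨ x ∈ B ∨ x ∈ C := by
    have h1 : (A ∪ B ∪ C).card = A.card + B.card + C.card := by
      rw [card_union_of_disjoint (disjoint_union_left.2 ⟨a4, a5⟩), card_union_of_disjoint a3]
    have h2 : n ≤ A.card + B.card + C.card := by
      rw [sub_zero] at a6; exact_mod_cast a6
    have h3 : A ∪ B ∪ C = univ :=
      eq_univ_of_card _ (le_antisymm (card_le_univ _) (by rw [h1, Fintype.card_fin]; exact h2))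
    intro x
    have := h3 ▸ mem_univ x
    simpa [or_assoc] using this
  have hd : ∀ v, d v ≤ ((barG A B C).neighborSet v).ncard := by
    intro v
    have key : (d v : ℝ) ≤ ((barG A B C).neighborSet v).ncard := by
      rcases hall v with hv | hv | hv
      · have h1 := card_compl_le_ncard (insert v B) ((barG A B C).neighborSet v) fun x hx => by
          rw [mem_insert, not_or] at hx
          exact ⟨fun k => hx.1 k.symm, fun k => hx.2 k.2, fun k => disjoint_left.1 a3 hv k.1,
            fun k => disjoint_left.1 a4 hv k.1⟩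
        rw [card_insert_of_notMem (disjoint_left.1 a3 hv)] at h1
        push_cast at h1
        linarith [a7 v hv]
      · have h1 := card_compl_le_ncard (insert v A) ((barG A B C).neighborSet v) fun x hx => by
          rw [mem_insert, not_or] at hx
          exact ⟨fun k => hx.1 k.symm, fun k => disjoint_left.1 a3 k.1 hv, fun k => hx.2 k.2,
            fun k => disjoint_left.1 a5 hv k.1⟩
        rw [card_insert_of_notMem (disjoint_right.1 a3 hv)] at h1
        push_cast at h1
        linarith [a8 v hv]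
      · have h1 := card_compl_le_ncard C ((barG A B C).neighborSet v) fun x hx =>
          ⟨fun k => hx (k ▸ hv), fun k => disjoint_left.1 a4 k.1 hv,
            fun k => disjoint_left.1 a5 k.1 hv, fun k => hx k.2⟩
        linarith [a9 v hv]
    exact_mod_cast key
  obtain ⟨H, hH, ⟨pos, hp⟩, he, -⟩ := hf _ hd
  refine cv (Fin n) H pos hp (by rwa [Fintype.card_fin]) (by rwa [Fintype.card_fin])
    (· ∈ A) (· ∈ B) a1 a2 (fun x hx => disjoint_left.1 a3 hx)
    (fun x y hx hy h => (hH h).2.1 ⟨hx, hy⟩) fun x y h => ?_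
  have h1 := (hH h).2.2.2
  have h2 := hall x
  have h3 := hall y
  tauto

theorem mono_le {n : ℕ} {d : Fin n → ℕ} (hd : Monotone d) (S : Finset (Fin n)) (i : Fin n)
    (hi : (i : ℕ) < S.card) {M : ℝ} (hM : ∀ v ∈ S, (d v : ℝ) ≤ M) : (d i : ℝ) ≤ M := by
  have : ¬ S ⊆ Iio i := fun h => by
    have := card_le_card h
    rw [Fin.card_Iio] at this
    omega
  obtain ⟨v, hv, hvi⟩ := not_subset.1 this
  have h1 : d i ≤ d v := hd (not_lt.1 fun k => hvi (mem_Iio.2 k))
  exact le_trans (by exact_mod_cast h1) (hM v hv)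

/-- the condition of Q1 with error `4t` excludes barriers with error `t` -/
theorem not_barrier_of_star {n : ℕ} {d : Fin n → ℕ} (hd : Monotone d) (t : ℝ) (ht : 1 ≤ t)
    (hn : 3 ≤ n)
    (h : ∀ i : Fin n, ((i : ℕ) + 1 : ℝ) ≤ n / 3 → n / 3 + ((i : ℕ) + 1) + 4 * t ≤ (d i : ℝ)) :
    ¬ Barrier d t := by
  have hm1 : n / 3 - 1 < n := by omega
  have hm2 : ((n / 3 - 1 : ℕ) : ℝ) + 1 ≤ n / 3 := by
    have : 3 * (n / 3 - 1 + 1) ≤ n := by omega
    have : (3 : ℝ) * (((n / 3 - 1 : ℕ) : ℝ) + 1) ≤ n := by exact_mod_cast this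
    linarith
  have hm3 : (n : ℝ) / 3 ≤ ((n / 3 - 1 : ℕ) : ℝ) + 2 := by
    have : n ≤ 3 * (n / 3 - 1 + 2) := by omega
    have : (n : ℝ) ≤ 3 * (((n / 3 - 1 : ℕ) : ℝ) + 2) := by exact_mod_cast this
    linarith
  have hm := h ⟨n / 3 - 1, hm1⟩ hm2
  simp only at hm
  have big : ∀ (S : Finset (Fin n)) (M : ℝ), (n : ℝ) / 3 ≤ S.card → (∀ v ∈ S, (d v : ℝ) ≤ M) →
      2 * n / 3 - 1 + 4 * t ≤ M := fun S M hS hM => by
    have := mono_le hd S ⟨n / 3 - 1, hm1⟩ (by
      have : ((n / 3 - 1 : ℕ) : ℝ) < S.card := by linarith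
      exact_mod_cast this) hM
    linarith
  have key : ∀ A B C : Finset (Fin n), A.card ≤ B.card → A.Nonempty →
      (n : ℝ) - t ≤ A.card + B.card + C.card → (∀ v ∈ A, (d v : ℝ) ≤ n - B.card - 1 + t) →
      (∀ v ∈ C, (d v : ℝ) ≤ n - C.card + t) → False := by
    intro A B C hAB hA a6 a7 a9
    have hAB' : (A.card : ℝ) ≤ B.card := by exact_mod_cast hAB
    rcases le_total (A.card : ℝ) (n / 3) with k | k
    · have h0 := card_pos.2 hA
      have h1 : A.card ≤ n := by simpa using card_le_univ A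
      have h2 : ((A.card - 1 : ℕ) : ℝ) + 1 = A.card := by
        rw [Nat.cast_sub h0]; simp
      have h3 := h ⟨A.card - 1, by omega⟩ (by simp only; linarith)
      have h4 := mono_le hd A ⟨A.card - 1, by omega⟩ (by simp only; omega) a7
      simp only at h3
      have := big C _ (by linarith) a9
      linarith
    · have := big A _ k a7
      linarith
  rintro ⟨A, B, C, a1, a2, -, -, -, a6, a7, a8, a9⟩
  rcases le_total A.card B.card with k | k
  · exact key A B C k a1 a6 a7 a9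
  · exact key B A C k a2 (by linarith) a8 a9

end Pool.Agent.MP_c1b6d0_co.H73.V2
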