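import Pool.Agent.MP_c1b6d0_co.H73.TUBE
import Pool.Agent.MP_c1b6d0_co.V2.Basic

/-! Part 2: tubes between two ports and the chain of tubes through all units. -/

open Finset
open scoped Classical

namespace Pool.Agent.MP_c1b6d0_co.H73.V2

namespace TUBEx

variable {V : Type} [Fintype V] {G : SimpleGraph V} {e b : ℝ}

/-- a base triangle outside a small set -/
theorem exists_base (hA : A1_stmt) (h : Ctx G e b) (W : Finset V)
    (hW : (W.card : ℝ) ≤ e ^ 423 * nn V / 8) :
    ∃ u a a', Base G e u a a' ∧ u ∉ W ∧ a ∉ W ∧ a' ∉ W := by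
  have g1 := h.gap1 (d := 423) (by norm_num)
  have g2 := h.gap (a := 61) (d := 423) (by norm_num)
  have g3 := h.gap1 (d := 4) (by norm_num)
  have g4 := h.s_large
  have g5 := h.scale (a := 423) (by norm_num)
  obtain ⟨u, ⟨hu1, hu2⟩, hu3⟩ := exists_avoid (p := fun x => TopU G e x ∧ FineV G e x) W (by
    have a1 : cnt (TopU G e) ≤ cnt (fun x => TopU G e x ∧ FineV G e x) +
        cnt (fun x => ¬ FineV G e x) :=
      cnt_le_add fun x hx => by by_cases hf : FineV G e x <;> simp [hx, hf]
    linarith [h.top, (hA V G e h.e_pos h.e_le).2.2])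
  obtain ⟨a, ⟨ha1, ha2⟩, ha3⟩ := exists_avoid (p := fun x => Big G e b x ∧ FineE G e u x) W (by
    have a1 : cnt (fun y => G.Adj u y ∧ Big G e b y) ≤
        cnt (fun x => Big G e b x ∧ FineE G e u x) + cnt (fun y => G.Adj u y ∧ ¬ FineE G e u y) :=
      cnt_le_add fun x hx => by by_cases hf : FineE G e u x <;> simp [hx.1, hx.2, hf]
    have a2 : cnt (fun y => G.Adj u y ∧ ¬ FineE G e u y) ≤ e ^ 4 * nn V := hu2
    linarith [h.big_nbrs u])
  obtain ⟨a', hb1, hb3⟩ := exists_avoid (p := fun x => Nice G e u a x) W (by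
    have a1 : cnt (fun z => G.Adj u z ∧ G.Adj a z) ≤ cnt (fun x => Nice G e u a x) +
        cnt (fun z => G.Adj u z ∧ G.Adj a z ∧ ¬ Nice G e u a z) :=
      cnt_le_add fun x hx => by by_cases hf : Nice G e u a x <;> simp [hx.1, hx.2, hf]
    linarith [h.codeg_big ha1 u, ha2.2])
  exact ⟨u, a, a', ⟨hb1, hu1, hu2, ha2⟩, hu3, ha3, hb3⟩

/-- the number of moves is small -/
theorem moves_le (h : Ctx G e b) : 13 * ((10 + 2 * kap e : ℕ) : ℝ) + 6 ≤ 40 * (1 / e) := by
  have h1 := kap_le h.e_pos
  have h2 : (1000 : ℝ) ≤ 1 / e := by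
    rw [le_div_iff₀ h.e_pos]
    linarith [h.e_le]
  push_cast
  linarith

theorem out_ne_in {g h u v : V} (hv : Port G e b g h v) (huv : u ≠ v) :
    ({g, h, v} : Finset V) ≠ {g, h, u} := fun hc => by
  have h1 : v ∈ ({g, h, u} : Finset V) := by rw [← hc]; simp
  simp only [mem_insert, mem_singleton] at h1
  rcases h1 with h1 | h1 | h1
  · exact hv.nice.2.1.ne h1.symm
  · exact hv.nice.2.2.1.ne h1.symm
  · exact huv h1.symm

end TUBEx

open TUBEx

theorem TUBE (hA : A1_stmt) (h1 : B1_stmt) (h4 : B4_stmt) : TUBE_stmt := by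
  intro V _ G e b hc g h p g' h' p' W hP hP' hd hs hs' hW
  obtain ⟨u, a, a', hB, hu, ha, ha'⟩ := exists_base hA hc W hW
  have hW0 : Disjoint W ({u, a, a'} : Finset V) := by
    refine disjoint_right.2 fun x hx => ?_
    simp only [mem_insert, mem_singleton] at hx
    rcases hx with rfl | rfl | rfl <;> assumption
  have hn : ∀ x ∈ W, x ∉ ({u, a, a'} : Finset V) := fun x hx => disjoint_left.1 hW0 hx
  have r1 := h4 V G e b hc u a a' hB g h p (hn _ (hs (by simp))) (hn _ (hs (by simp)))
    (hn _ (hs (by simp))) hP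
  have r2 := h4 V G e b hc u a a' hB g' h' p' (hn _ (hs' (by simp))) (hn _ (hs' (by simp)))
    (hn _ (hs' (by simp))) hP'
  have n1 : ({g, h, p} : Finset V) ≠ {u, a, a'} := fun hc =>
    hn g (hs (by simp)) (by rw [← hc]; simp)
  have n2 : ({g', h', p'} : Finset V) ≠ {u, a, a'} := fun hc =>
    hn g' (hs' (by simp)) (by rw [← hc]; simp)
  have hk := moves_le hc
  have hsc := inv_pow_le_scale hc.e_pos hc.e_le hc.large (a := 423) (c := 1) (by norm_num)
  rw [pow_one] at hsc
  have he : 0 < 1 / e := one_div_pos.2 hc.e_pos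
  generalize ({g, h, p} : Finset V) = T1 at *
  generalize ({g', h', p'} : Finset V) = T2 at *
  generalize ({u, a, a'} : Finset V) = T0 at *
  generalize 10 + 2 * kap e = k at *
  have hk0 : (0 : ℝ) ≤ k := Nat.cast_nonneg _
  obtain ⟨U1, p1, d1, c1⟩ := (h1 V G e hc.e_pos hc.e_le hc.large T0 k T1 (W \ T1) r1 sdiff_disjoint
    (hW0.mono_left sdiff_subset) (by
      have : ((W \ T1).card : ℝ) ≤ W.card := by exact_mod_cast card_le_card sdiff_subset
      linarith)).resolve_left n1
  have c1' : (U1.card : ℝ) ≤ 6 * k + 3 := by exact_mod_cast c1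
  obtain ⟨U2, p2, d2, c2⟩ := (h1 V G e hc.e_pos hc.e_le hc.large T0 k T2 (W \ T2 ∪ U1 \ T0) r2
    (disjoint_union_left.2 ⟨sdiff_disjoint, disjoint_left.2 fun x hx hx2 =>
      disjoint_left.1 d1 (mem_sdiff.1 hx).1
        (mem_sdiff.2 ⟨hs' hx2, fun hx1 => disjoint_left.1 hd hx1 hx2⟩)⟩)
    (disjoint_union_left.2 ⟨hW0.mono_left sdiff_subset, sdiff_disjoint⟩) (by
      have : ((W \ T2 ∪ U1 \ T0).card : ℝ) ≤ W.card + U1.card := by
        exact_mod_cast (card_union_le _ _).trans
          (Nat.add_le_add (card_le_card sdiff_subset) (card_le_card sdiff_subset))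
      linarith)).resolve_left n2
  have c2' : (U2.card : ℝ) ≤ 6 * k + 3 := by exact_mod_cast c2
  have hI : U1 ∩ U2 = T0 := by
    refine Subset.antisymm (fun x hx => ?_)
      (subset_inter (p1.face (by simp)).2 (p2.face (by simp)).2)
    by_contra hx0
    exact disjoint_left.1 d2 (mem_inter.1 hx).2
      (mem_union_right _ (mem_sdiff.2 ⟨(mem_inter.1 hx).1, hx0⟩))
  have pg := p1.glue2 p2.swap n1 n2 hI
  refine ⟨(U1 ∪ U2) \ (T1 ∪ T2), disjoint_left.2 fun x hx hxW => ?_, ?_, ?_⟩
  · obtain ⟨x1, x2⟩ := mem_sdiff.1 hx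
    rcases mem_union.1 x1 with x1 | x1
    · exact disjoint_left.1 d1 x1 (mem_sdiff.2 ⟨hxW, fun h => x2 (mem_union_left _ h)⟩)
    · exact disjoint_left.1 d2 x1
        (mem_union_left _ (mem_sdiff.2 ⟨hxW, fun h => x2 (mem_union_right _ h)⟩))
  · have a1 : (((U1 ∪ U2) \ (T1 ∪ T2)).card : ℝ) ≤ U1.card + U2.card := by
      exact_mod_cast (card_le_card sdiff_subset).trans (card_union_le _ _)
    have a2 : (1000 : ℝ) ≤ 1 / e := by
      rw [le_div_iff₀ hc.e_pos]
      linarith [hc.e_le]
    have a3 : 1 / e ^ 2 = 1 / e * (1 / e) := by ring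
    rw [a3]
    nlinarith
  · rw [union_sdiff_of_subset (union_subset (pg.face (by simp)).2 (pg.face (by simp)).2)]
    exact pg

theorem CHAIN (ht : TUBE_stmt) : CHAIN_stmt := by
  intro V _ G e b hc ι _ _ u v g h W hP hW hD hS
  have he : 0 < e ^ 2 := pow_pos hc.e_pos 2
  have key : ∀ s : Finset ι, s.Nonempty → ∃ l ∈ s, ∃ Y : Finset V, Disjoint Y W ∧
      (Y.card : ℝ) ≤ s.card / e ^ 2 ∧
      ∀ U : ι → Finset V, (∀ j j', j ≠ j' → Disjoint (U j) (U j')) → (∀ j, Disjoint (U j) Y) →
        (∀ j, Piece G (U j) {{g j, h j, u j}, {g j, h j, v j}}) →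
        Piece G (Y ∪ s.biUnion U) {{g l, h l, v l}} := by
    intro s hs
    induction hs using Finset.Nonempty.cons_induction with
    | singleton j =>
      refine ⟨j, mem_singleton_self _, ∅, disjoint_empty_left _, by simp [he.le], ?_⟩
      intro U _ _ hU
      rw [empty_union, singleton_biUnion]
      exact (hU j).mono (by simp)
    | cons j s hj hs ih =>
      obtain ⟨l, hl, Y, hYW, hYc, hY⟩ := ih
      have hlj : l ≠ j := fun h => hj (h ▸ hl)
      have s1 : ({g l, h l, v l} : Finset V) ⊆ {u l, v l, g l, h l} := by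
        intro x hx
        simp only [mem_insert, mem_singleton] at hx ⊢
        tauto
      have s2 : ({g j, h j, u j} : Finset V) ⊆ {u j, v j, g j, h j} := by
        intro x hx
        simp only [mem_insert, mem_singleton] at hx ⊢
        tauto
      have hd : Disjoint ({g l, h l, v l} : Finset V) {g j, h j, u j} := (hD l j hlj).mono s1 s2
      obtain ⟨Z, hZ, hZc, pZ⟩ := ht V G e b hc (g l) (h l) (v l) (g j) (h j) (u j) (W ∪ Y)
        (hP l).2.1 (hP j).1 hd ((s1.trans (hW l)).trans subset_union_left)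
        ((s2.trans (hW j)).trans subset_union_left) (by
          have a1 : ((W ∪ Y).card : ℝ) ≤ W.card + Y.card := by exact_mod_cast card_union_le _ _
          have a2 : (s.card : ℝ) / e ^ 2 ≤ nn ι / e ^ 2 :=
            div_le_div_of_nonneg_right (by unfold nn; exact_mod_cast card_le_univ s) he.le
          linarith)
      have n1 : ({g j, h j, u j} : Finset V) ≠ {g l, h l, v l} := fun hq =>
        disjoint_left.1 hd (show g j ∈ _ by rw [← hq]; simp) (by simp)
      have n2 := out_ne_in (hP j).2.1 (hP j).2.2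
      refine ⟨j, mem_cons_self _ _, Y ∪ Z,
        disjoint_union_left.2 ⟨hYW, hZ.mono_right subset_union_left⟩, ?_, fun U u1 u2 u3 => ?_⟩
      · have a1 : ((Y ∪ Z).card : ℝ) ≤ Y.card + Z.card := by exact_mod_cast card_union_le _ _
        rw [card_cons]
        push_cast
        rw [add_div]
        linarith
      · have pA := hY U u1 (fun i => (u2 i).mono_right subset_union_left) u3
        have f1 : ({g l, h l, v l} : Finset V) ⊆ U l := ((u3 l).face (by simp)).2
        have f2 : ({g j, h j, u j} : Finset V) ⊆ U j := ((u3 j).face (by simp)).2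
        have f3 := (pA.face (mem_singleton_self _)).2
        have hAj : ∀ x ∈ Y ∪ s.biUnion U, x ∉ U j := fun x hx hxj => by
          rcases mem_union.1 hx with hx | hx
          · exact disjoint_left.1 (u2 j) hxj (mem_union_left _ hx)
          · obtain ⟨i, hi, hx⟩ := mem_biUnion.1 hx
            exact disjoint_left.1 (u1 i j fun h => hj (h ▸ hi)) hx hxj
        have hAZ : ∀ x ∈ Y ∪ s.biUnion U, x ∉ Z := fun x hx hxz => by
          rcases mem_union.1 hx with hx | hx
          · exact disjoint_left.1 hZ hxz (mem_union_right _ hx)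
          · obtain ⟨i, _, hx⟩ := mem_biUnion.1 hx
            exact disjoint_left.1 (u2 i) hx (mem_union_right _ hxz)
        have p3 := u3 j
        generalize ({g l, h l, v l} : Finset V) = T1 at *
        generalize ({g j, h j, u j} : Finset V) = T2 at *
        have q1 := Pool.Agent.MP_c1b6d0_co.H73.TUBE.glue1 pA pZ n1 (by
          refine Subset.antisymm (fun x hx => ?_)
            (subset_inter f3 (subset_union_left.trans subset_union_left))
          obtain ⟨x1, x2⟩ := mem_inter.1 hx
          rcases mem_union.1 x2 with x2 | x2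
          · rcases mem_union.1 x2 with x2 | x2
            · exact x2
            · exact absurd (f2 x2) (hAj x x1)
          · exact absurd x2 (hAZ x x1))
        have q2 := Pool.Agent.MP_c1b6d0_co.H73.TUBE.glue1 q1 p3 n2 (by
          refine Subset.antisymm (fun x hx => ?_) (subset_inter
            ((subset_union_right.trans subset_union_left).trans subset_union_right) f2)
          obtain ⟨x1, x2⟩ := mem_inter.1 hx
          rcases mem_union.1 x1 with x1 | x1
          · exact absurd x2 (hAj x x1)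
          · rcases mem_union.1 x1 with x1 | x1
            · rcases mem_union.1 x1 with x1 | x1
              · exact absurd x2 (hAj x (f3 x1))
              · exact x1
            · exact absurd (mem_union_right _ x1) (disjoint_left.1 (u2 j) x2))
        have e1 : Y ∪ Z ∪ (cons j s hj).biUnion U = Y ∪ s.biUnion U ∪ (T1 ∪ T2 ∪ Z) ∪ U j := by
          rw [cons_eq_insert, biUnion_insert]
          ext x
          have b1 := @f3 x
          have b2 := @f2 x
          simp only [mem_union] at b1 ⊢
          tauto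
        rw [e1]
        exact q2
  obtain ⟨l, _, Y, y1, y2, y3⟩ := key univ univ_nonempty
  exact ⟨Y, y1, y2, fun U u1 u2 u3 => ⟨_, y3 U u1 u2 u3⟩⟩

end Pool.Agent.MP_c1b6d0_co.H73.V2
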