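import Pool.Agent.MP_c1b6d0_co.H73.Plane

namespace Pool.Agent.MP_c1b6d0_co.H73.V2

/-- `G` has a spanning triangulation: a spanning subgraph with a plane straight-line drawing and
`3n - 6` edges, no proper supergraph of which has such a drawing. -/
def HasTri {n : ℕ} (G : SimpleGraph (Fin n)) : Prop :=
  ∃ H : SimpleGraph (Fin n), H ≤ G ∧ (∃ pos, PlaneDrawing H pos) ∧ H.edgeSet.ncard + 6 = 3 * n ∧
    ∀ H' : SimpleGraph (Fin n), H < H' → ¬ ∃ pos, PlaneDrawing H' pos

/-- every graph whose degrees are pointwise at least `d` has a spanning triangulation -/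
def Forces {n : ℕ} (d : Fin n → ℕ) : Prop :=
  ∀ G : SimpleGraph (Fin n), (∀ v, d v ≤ (G.neighborSet v).ncard) → HasTri G

/-- up to the error `t`, the sequence `d` is dominated by the degrees of the graph made of two
cliques `A`, `B` with no edge between them and an independent set `C` joined to both -/
def Barrier {n : ℕ} (d : Fin n → ℕ) (t : ℝ) : Prop :=
  ∃ A B C : Finset (Fin n), A.Nonempty ∧ B.Nonempty ∧ Disjoint A B ∧ Disjoint A C ∧ Disjoint B C ∧
    (n : ℝ) - t ≤ A.card + B.card + C.card ∧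
    (∀ v ∈ A, (d v : ℝ) ≤ n - B.card - 1 + t) ∧ (∀ v ∈ B, (d v : ℝ) ≤ n - A.card - 1 + t) ∧
    ∀ v ∈ C, (d v : ℝ) ≤ n - C.card + t

end Pool.Agent.MP_c1b6d0_co.H73.V2
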