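import Pool.Agent.MP_c1b6d0_co.H73.Tr
import Pool.Agent.MP_c1b6d0_co.V2.Basic
import Pool.Agent.MP_c1b6d0_co.V2.Stmt

/-! Part 2: translation to `Ctx` and the assembly from the row statements. -/

open Finset
open scoped Classical

namespace Pool.Agent.MP_c1b6d0_co.H73.V2

theorem ctx_of_noBar {V : Type} [Fintype V] (G : SimpleGraph V) (e h : ℝ) (he : 0 < e)
    (h0 : 0 < h) (h1 : h ≤ 1 / 1000) (heh : e ≤ h ^ 5) (hl : 1 ≤ e ^ 10000 * nn V)
    (hb : ¬ Bar G (100 * (h * nn V))) : ∃ b, Ctx G e b := by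
  have hn : 0 < nn V := pos_of_large he hl
  have h5 : h ^ 5 ≤ h / 1000 := by
    have := pow_gap h0 h1 (a := 1) (c := 5) (by norm_num)
    rw [pow_one] at this; linarith
  have he1 : e ≤ 1 / 1000 := by linarith
  have hs : 1000 ≤ e * nn V := by
    have := large_scale he he1 hl (a := 1) (by norm_num)
    rwa [pow_one] at this
  have hen : 1000 * (e * nn V) ≤ h * nn V := by
    have := mul_le_mul_of_nonneg_right (show 1000 * e ≤ h by linarith) hn.le
    linarith
  have hhn : 1000 * (h * nn V) ≤ nn V := by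
    have := mul_le_mul_of_nonneg_right h1 hn.le
    linarith
  have hne : (univ : Finset V).Nonempty := by
    have : 0 < Fintype.card V := by unfold nn at hn; exact_mod_cast hn
    exact card_pos.1 this
  obtain ⟨v, -, hv⟩ := exists_min_image univ (dg G) hne
  have hv' : ∀ x, dg G v ≤ dg G x := fun x => hv x (mem_univ x)
  refine ⟨min (dg G v - 50 * (h * nn V)) (nn V / 2), h, he, h0, h1, heh, hl, ?_, fun x => ?_, ?_, hb⟩
  · linarith [min_le_right (dg G v - 50 * (h * nn V)) (nn V / 2)]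
  · linarith [min_le_left (dg G v - 50 * (h * nn V)) (nn V / 2), hv' x]
  clear hl
  rcases le_total (nn V / 2) (dg G v - 50 * (h * nn V)) with k | k
  · rw [min_eq_right k]
    refine le_trans (cnt_mono (q := fun _ => False) fun x hx => hx ?_) ?_
    · unfold Big; linarith [hv' x]
    · rw [cnt_false]; linarith
  · rw [min_eq_left k]
    obtain ⟨b, hbd⟩ : ∃ b, b = dg G v - 50 * (h * nn V) := ⟨_, rfl⟩
    rw [← hbd] at k ⊢
    by_contra hc
    rw [not_le] at hc
    apply hb
    set S := (univ.filter fun x => ¬ Big G e b x).erase v with hS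
    have hS1 : cnt (fun x => ¬ Big G e b x) - 1 ≤ S.card := by
      have a1 : cnt (fun x => ¬ Big G e b x) ≤ cnt (fun x => x ∈ S) + cnt (fun x => x = v) :=
        cnt_le_add fun x hx => by by_cases hxv : x = v <;> simp [hS, hx, hxv]
      rw [cnt_mem, cnt_eq_single] at a1
      linarith
    have hc1 : b - 1 < (⌊b - 1⌋₊ : ℝ) + 1 := Nat.lt_floor_add_one _
    have hc2 : (⌊b - 1⌋₊ : ℝ) ≤ max (b - 1) 0 := by
      rcases le_total (b - 1) 0 with a | a
      · rw [Nat.floor_of_nonpos a]; simp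
      · exact (Nat.floor_le a).trans (le_max_left _ _)
    have hc3 : ⌊b - 1⌋₊ ≤ S.card := by
      have : (⌊b - 1⌋₊ : ℝ) ≤ S.card := hc2.trans (max_le (by linarith) (Nat.cast_nonneg _))
      exact_mod_cast this
    obtain ⟨C, hCS, hC⟩ := exists_subset_card_eq hc3
    rw [← hC] at hc1 hc2
    have hvC : v ∉ C := fun a => (mem_erase.1 (hCS a)).1 rfl
    have hB : (((insert v C)ᶜ).card : ℝ) = nn V - (C.card + 1) := by
      rw [card_compl, card_insert_of_notMem hvC, Nat.cast_sub]
      · unfold nn; push_cast; ring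
      · rw [← card_insert_of_notMem hvC]; exact card_le_univ _
    have hCle : (C.card : ℝ) ≤ nn V / 2 := hc2.trans (max_le (by linarith) (by linarith))
    refine ⟨{v}, (insert v C)ᶜ, C, singleton_nonempty v, ?_, ?_, ?_, ?_, ?_, ?_, ?_, ?_⟩
    · have : (0 : ℝ) < ((insert v C)ᶜ).card := by rw [hB]; linarith
      exact card_pos.1 (by exact_mod_cast this)
    · simp
    · simpa using hvC
    · exact disjoint_left.2 fun x hx hx' => (mem_compl.1 hx) (mem_insert_of_mem hx')
    · rw [hB, card_singleton]; push_cast; linarith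
    · intro x hx
      rw [mem_singleton.1 hx, hB]; linarith
    · intro x _
      rw [card_singleton]; push_cast
      linarith [dg_le (G := G) x]
    · intro x hx
      have a1 : ¬ Big G e b x := (mem_filter.1 (mem_erase.1 (hCS hx)).2).2
      unfold Big at a1
      have a2 : (1 : ℝ) ≤ C.card := by exact_mod_cast card_pos.2 ⟨x, hx⟩
      rcases le_total (b - 1) 0 with a | a
      · rw [max_eq_right a] at hc2; linarith
      · rw [max_eq_left a] at hc2; linarith

theorem noBar_of_noBarrier {n : ℕ} (d : Fin n → ℕ) (G : SimpleGraph (Fin n)) (t t' : ℝ)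
    (ht : t' + 1 ≤ t) (hd : ∀ v, d v ≤ (G.neighborSet v).ncard) (hb : ¬ Barrier d t) :
    ¬ Bar G t' := by
  rintro ⟨A, B, C, a1, a2, a3, a4, a5, a6, a7, a8, a9⟩
  have hdg : ∀ x, (d x : ℝ) ≤ dg G x := fun x => by
    rw [show dg G x = ((G.neighborSet x).ncard : ℝ) from cnt_eq_ncard _]
    exact_mod_cast hd x
  rw [nn_fin] at a6 a7 a8 a9
  exact hb ⟨A, B, C, a1, a2, a3, a4, a5, by linarith, fun v hv => by linarith [hdg v, a7 v hv],
    fun v hv => by linarith [hdg v, a8 v hv], fun v hv => by linarith [hdg v, a9 v hv]⟩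

theorem assemble (p3 : P3_stmt) (eu : EUL_stmt) (se : SEL_stmt) (co : COV_stmt) (fi : FIN_stmt)
    {n : ℕ} (G : SimpleGraph (Fin n)) (e b : ℝ) (h : Ctx G e b) : HasTri G := by
  obtain ⟨σ⟩ := se _ G e b h
  obtain ⟨Q, hQ⟩ := co _ G e b h σ
  obtain ⟨T, hT⟩ := fi _ G e b h σ Q hQ
  obtain ⟨H, hH, pos, hp, hc⟩ := p3 _ G T hT
  have h3 : 3 ≤ Fintype.card (Fin n) := by
    have h1 := h.s_large
    have h2 := h.s_le
    have : (3 : ℝ) ≤ nn (Fin n) := by linarith
    unfold nn at this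
    exact_mod_cast this
  have h6 := eu _ H pos h3 hp
  refine ⟨H, hH, ⟨pos, hp⟩, by rw [Fintype.card_fin] at hc h6; omega, ?_⟩
  rintro H' hlt ⟨pos', hp'⟩
  have h4 := eu _ H' pos' h3 hp'
  have h5 : H.edgeSet.ncard < H'.edgeSet.ncard :=
    Set.ncard_lt_ncard (SimpleGraph.edgeSet_ssubset_edgeSet.2 hlt) (Set.toFinite _)
  omega

/-- the sufficient half, from the statement under `Ctx` -/
theorem forces_of (key : ∀ (n : ℕ) (G : SimpleGraph (Fin n)) (e b : ℝ), Ctx G e b → HasTri G)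
    (η : ℝ) (hη : 0 < η) (n : ℕ) (hn : (2 + 1 / η) ^ (50 * 10000) ≤ (n : ℝ)) (d : Fin n → ℕ)
    (hb : ¬ Barrier d (η * n)) : Forces d := by
  intro G hd
  obtain ⟨h, h0, h1, h2, h3⟩ := exists_small η hη
  have he : 0 < h ^ 5 := pow_pos h0 5
  have h4 : h ^ 5 * (2 + 1 / η) ^ 50 = 1 := by
    rw [show 50 = 10 * 5 by norm_num, pow_mul, ← mul_pow, h3, one_pow]
  have hl : 1 ≤ (h ^ 5) ^ 10000 * nn (Fin n) := by
    rw [nn_fin]; exact large_of_pow he h4 hn
  clear hn h3 h4
  have h5 : h ^ 5 ≤ h / 1000 := by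
    have := pow_gap h0 h1 (a := 1) (c := 5) (by norm_num)
    rw [pow_one] at this; linarith
  have hs := large_scale he (by linarith) hl (a := 1) (by norm_num)
  have hn0 := pos_of_large he hl
  rw [pow_one] at hs
  have ht : 100 * (h * nn (Fin n)) + 1 ≤ η * n := by
    clear hl
    rw [nn_fin] at hs hn0 ⊢
    have a1 := mul_le_mul_of_nonneg_right h5 hn0.le
    have a2 := mul_le_mul_of_nonneg_right h2 hn0.le
    linarith
  obtain ⟨b, hc⟩ := ctx_of_noBar G (h ^ 5) h he h0 h1 le_rfl hl (noBar_of_noBarrier d G _ _ ht hd hb)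
  exact key n G _ b hc

end Pool.Agent.MP_c1b6d0_co.H73.V2
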