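import Pool.Agent.MP_c1b6d0_co.H73.All
import Pool.Agent.MP_c1b6d0_co.V2.Tr
import Pool.Agent.MP_c1b6d0_co.V2.Sharp
import Pool.Agent.MP_c1b6d0_co.V2.F
import Pool.Agent.MP_c1b6d0_co.V2.CLQ
import Pool.Agent.MP_c1b6d0_co.V2.K0
import Pool.Agent.MP_c1b6d0_co.V2.COUNT
import Pool.Agent.MP_c1b6d0_co.V2.K2
import Pool.Agent.MP_c1b6d0_co.V2.B4
import Pool.Agent.MP_c1b6d0_co.V2.C1
import Pool.Agent.MP_c1b6d0_co.V2.C2
import Pool.Agent.MP_c1b6d0_co.V2.D1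
import Pool.Agent.MP_c1b6d0_co.V2.D4
import Pool.Agent.MP_c1b6d0_co.V2.TUBE
import Pool.Agent.MP_c1b6d0_co.V2.SEL
import Pool.Agent.MP_c1b6d0_co.V2.COV
import Pool.Agent.MP_c1b6d0_co.V2.FIN
import Pool.Agent.MP_c1b6d0_co.V2.CONV

namespace Pool.Agent.MP_c1b6d0_co.H73.V2

theorem chain : CHAIN_stmt :=
  CHAIN (TUBE A1 (B1 p4) (B4 (K2 A1 (K0 F3 F4) (COUNT F2 F4 CLQ))))

theorem tri_of_ctx (n : ℕ) (G : SimpleGraph (Fin n)) (e b : ℝ) (h : Ctx G e b) : HasTri G :=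
  assemble P3 EUL (SEL A3 (C1 A1 A2) JUNC (C2 A1 A2) chain)
    (COV (C1 A1 A2) D1 D2 D3 (D4 CLQ) TRIM) (FIN p4 (C3 p4) MERGE) G e b h

theorem conv : CONV_stmt := fun _ _ H pos hp h3 he A B hA hB hAB h1 h2 =>
  CONV H pos hp h3 he A B hA hB hAB h1 h2

theorem three_le {η : ℝ} (hη : 0 < η) {n K : ℕ} (hK : 2 ≤ K) (hn : (2 + 1 / η) ^ K ≤ (n : ℝ)) :
    3 ≤ n := by
  have h1 : (2 : ℝ) ≤ 2 + 1 / η := by have : 0 < 1 / η := by positivity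
                                      linarith
  have h2 : (2 : ℝ) ^ 2 ≤ (2 + 1 / η) ^ K :=
    (pow_le_pow_right₀ (by norm_num) hK).trans (pow_le_pow_left₀ (by norm_num) h1 K)
  have h3 : (3 : ℝ) ≤ n := le_trans (by norm_num) (h2.trans hn)
  exact_mod_cast h3

end Pool.Agent.MP_c1b6d0_co.H73.V2
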