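import Pool.Agent.MP_c1b6d0_co.H73.D1
import Pool.Agent.MP_c1b6d0_co.V2.Basic

/-! Row D1 of part 2: a spread fractional perfect matching from the robust Hall condition. -/

open Finset
open scoped Classical

namespace Pool.Agent.MP_c1b6d0_co.H73.V2

namespace D1x

variable {α : Type} [Fintype α] {H : α → α → Prop} {D : ℕ}

/-- Hall's condition for a symmetric relation follows from the one for independent sets. -/
theorem hall {K : α → α → Prop} (hs : ∀ x y, K x y → K y x)
    (h : ∀ I : Finset α, (∀ x ∈ I, ∀ y ∈ I, ¬ K x y) →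
      (I.card : ℝ) ≤ cnt fun y => ∃ x ∈ I, K x y) :
    ∃ f : α → α, Function.Injective f ∧ ∀ x, K x (f x) := by
  refine (Fintype.all_card_le_filter_rel_iff_exists_injective K).1 ?_
  intro A
  set N := univ.filter (fun b => ∃ a ∈ A, K a b) with hN
  have hm : ∀ b, b ∈ N ↔ ∃ a ∈ A, K a b := fun b => by
    simp only [hN, mem_filter, mem_univ, true_and]
  have h1 := h (A \ N) fun x hx y hy hk =>
    (mem_sdiff.1 hy).2 ((hm y).2 ⟨x, (mem_sdiff.1 hx).1, hk⟩)
  have h2 : cnt (fun y => ∃ x ∈ A \ N, K x y) ≤ (N \ A).card := by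
    refine cnt_le_card _ fun y hy => ?_
    obtain ⟨x, hx, hk⟩ := hy
    refine mem_sdiff.2 ⟨(hm y).2 ⟨x, (mem_sdiff.1 hx).1, hk⟩, fun hA => ?_⟩
    exact (mem_sdiff.1 hx).2 ((hm x).2 ⟨y, hA, hs _ _ hk⟩)
  have h3 : (A \ N).card ≤ (N \ A).card := by exact_mod_cast h1.trans h2
  have h5 := card_sdiff_add_card_inter A N
  have h6 := card_sdiff_add_card_inter N A
  rw [inter_comm] at h6
  have h7 : A.card ≤ N.card := by omega
  exact h7

theorem step (hs : ∀ x y, H x y → H y x) (h : RH H D) {i : ℕ} (hi : i < D) (s : ℕ → α → α)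
    (hinj : ∀ k < i, Function.Injective (s k)) :
    ∃ f : α → α, Function.Injective f ∧ ∀ x, H x (f x) ∧ ∀ k < i, s k x ≠ f x := by
  have hK : ∀ x y, (H x y ∧ (∀ k < i, s k x ≠ y) ∧ ∀ k < i, s k y ≠ x) →
      (H y x ∧ (∀ k < i, s k y ≠ x) ∧ ∀ k < i, s k x ≠ y) :=
    fun x y hk => ⟨hs _ _ hk.1, hk.2.2, hk.2.1⟩
  obtain ⟨f, hf, hf'⟩ := hall (K := fun x y => H x y ∧ (∀ k < i, s k x ≠ y) ∧ ∀ k < i, s k y ≠ x)
    hK (h _ hK (fun x y hk => hk.1) fun x => by
      refine (cnt_le_card ((range i).image (fun k => s k x) ∪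
        (range i).biUnion (fun k => univ.filter (fun a => s k a = x))) ?_).trans ?_
      · rintro y ⟨hy1, hy2⟩
        by_cases h2 : ∀ k < i, s k x ≠ y
        · refine mem_union_right _ ?_
          by_contra h3
          refine hy2 ⟨hy1, h2, fun k hk he => h3 ?_⟩
          exact mem_biUnion.2 ⟨k, mem_range.2 hk, mem_filter.2 ⟨mem_univ _, he⟩⟩
        · push Not at h2
          obtain ⟨k, hk, rfl⟩ := h2
          exact mem_union_left _ (mem_image.2 ⟨k, mem_range.2 hk, rfl⟩)
      have h4 : ((range i).image (fun k => s k x)).card ≤ i :=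
        card_image_le.trans (card_range i).le
      have h5 : ((range i).biUnion (fun k => univ.filter (fun a => s k a = x))).card ≤ i := by
        refine (card_biUnion_le_card_mul _ _ 1 fun k hk => ?_).trans (by simp)
        refine card_le_one.2 fun a ha b hb => hinj k (mem_range.1 hk) ?_
        rw [(mem_filter.1 ha).2, (mem_filter.1 hb).2]
      have h6 := (card_union_le _ _).trans ((Nat.add_le_add h4 h5).trans
        (show i + i ≤ 2 * D by omega))
      exact_mod_cast h6)
  exact ⟨f, hf, fun x => ⟨(hf' x).1, (hf' x).2.1⟩⟩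

theorem perms (hs : ∀ x y, H x y → H y x) (h : RH H D) : ∀ i ≤ D, ∃ s : ℕ → α → α,
    (∀ k < i, Function.Injective (s k)) ∧ (∀ k < i, ∀ x, H x (s k x)) ∧
      ∀ k < i, ∀ l < i, ∀ x, s k x = s l x → k = l := by
  intro i
  induction i with
  | zero => exact fun _ => ⟨fun _ => id, by simp, by simp, by simp⟩
  | succ i ih =>
    intro hi
    obtain ⟨s, h1, h2, h3⟩ := ih (by omega)
    obtain ⟨f, hf, hf'⟩ := step hs h (by omega : i < D) s h1
    refine ⟨fun k => if k < i then s k else f, fun k _ => ?_, fun k _ x => ?_,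
      fun k hk l hl x => ?_⟩
    · by_cases hk : k < i
      · simpa only [hk, if_true] using h1 k hk
      · simpa only [hk, if_false] using hf
    · by_cases hk : k < i
      · simpa only [hk, if_true] using h2 k hk x
      · simpa only [hk, if_false] using (hf' x).1
    · by_cases hk' : k < i <;> by_cases hl' : l < i <;> simp only [hk', hl', if_true, if_false]
      · exact h3 k hk' l hl' x
      · exact fun he => absurd he ((hf' x).2 k hk')
      · exact fun he => absurd he.symm ((hf' x).2 l hl')
      · intro _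
        omega

end D1x

theorem D1 : D1_stmt := by
  intro α _ H D hs hD h
  obtain ⟨s, h1, h2, h3⟩ := D1x.perms hs h D le_rfl
  have hD' : (0 : ℝ) < D := by exact_mod_cast hD
  let c : α → α → ℝ := fun x y => ∑ k ∈ range D, if s k x = y then 1 else 0
  have c0 : ∀ x y, 0 ≤ c x y := fun x y => sum_nonneg fun k _ => by split_ifs <;> norm_num
  have c1 : ∀ x y, c x y ≤ 1 := by
    intro x y
    have : ((range D).filter (fun k => s k x = y)).card ≤ 1 := by
      refine card_le_one.2 fun a ha b hb => ?_
      have ha := mem_filter.1 ha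
      have hb := mem_filter.1 hb
      exact h3 a (mem_range.1 ha.1) b (mem_range.1 hb.1) x (ha.2.trans hb.2.symm)
    simp only [c, sum_boole]
    exact_mod_cast this
  have c2 : ∀ x y, ¬ H x y → c x y = 0 := by
    intro x y hn
    refine sum_eq_zero fun k hk => if_neg fun he => hn ?_
    rw [← he]
    exact h2 k (mem_range.1 hk) x
  have c3 : ∀ x, ∑ y, c x y = D := by
    intro x
    simp only [c]
    rw [sum_comm]
    simp
  have c4 : ∀ x, ∑ y, c y x = D := by
    intro x
    simp only [c]
    rw [sum_comm]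
    have : ∀ k ∈ range D, (∑ y, if s k y = x then (1 : ℝ) else 0) = 1 := by
      intro k hk
      have hb := Finite.injective_iff_bijective.1 (h1 k (mem_range.1 hk))
      rw [hb.sum_comp (fun z => if z = x then (1 : ℝ) else 0)]
      simp
    rw [sum_congr rfl this]
    simp
  refine ⟨fun x y => (c x y + c y x) / (2 * D), fun x y => by simp only [add_comm], fun x y => ?_,
    fun x y => ?_, fun x y hw => ?_, fun x => ?_⟩
  · have := c0 x y
    have := c0 y x
    positivity
  · rw [div_le_div_iff₀ (by positivity) hD']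
    nlinarith [c1 x y, c1 y x]
  · by_contra hn
    exact hw (by simp only [c2 x y hn, c2 y x fun h' => hn (hs _ _ h'), add_zero, zero_div])
  · rw [← sum_div, sum_add_distrib, c3, c4]
    field_simp
    norm_num

end Pool.Agent.MP_c1b6d0_co.H73.V2
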