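import Pool.Agent.MP_c1b6d0_co.H73.Basic

/-! Part 2 (Chvatal-type theorem): definitions. Paper: team store, `MP_c1b6d0_h73_chvatal.md`.
Names in this namespace shadow the ones of part 1 (`Ctx`, `Port`, `Base`, `ColT`, `Good`, `AbsV`,
`AbsT`, `Sel`). -/

open Finset
open scoped Classical

namespace Pool.Agent.MP_c1b6d0_co.H73.V2

noncomputable section

section Graph
variable {V : Type} [Fintype V] (G : SimpleGraph V) (e b : ℝ)

/-- the degrees are dominated, up to `t`, by those of two cliques `A, B` joined to an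
independent set `C` -/
def Bar (t : ℝ) : Prop :=
  ∃ A B C : Finset V, A.Nonempty ∧ B.Nonempty ∧ Disjoint A B ∧ Disjoint A C ∧ Disjoint B C ∧
    nn V - t ≤ A.card + B.card + C.card ∧ (∀ v ∈ A, dg G v ≤ nn V - B.card + t) ∧
    (∀ v ∈ B, dg G v ≤ nn V - A.card + t) ∧ ∀ v ∈ C, dg G v ≤ nn V - C.card + t

/-- the standing hypotheses, with the coarse parameter `h` -/
structure Ctx2 (h : ℝ) : Prop where
  e_pos : 0 < e
  h_pos : 0 < h
  h_le : h ≤ 1 / 1000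
  e_h : e ≤ h ^ 5
  large : 1 ≤ e ^ 10000 * nn V
  b_le : 2 * b ≤ nn V
  mindeg : ∀ x, b + 50 * (h * nn V) ≤ dg G x
  small : cnt (fun x => ¬ Big G e b x) ≤ b
  noBar : ¬ Bar G (100 * (h * nn V))

/-- the standing hypotheses -/
def Ctx : Prop := ∃ h, Ctx2 G e b h

/-- more than `2 e^61 n` vertices have at least the degree of `x` -/
def NotExc (x : V) : Prop := 2 * e ^ 61 * nn V < cnt fun z => dg G x ≤ dg G z

/-- at most `2 e^61 n` vertices have larger degree than `u` -/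
def TopU (u : V) : Prop := cnt (fun z => dg G u < dg G z) ≤ 2 * e ^ 61 * nn V

/-- the base triangle `T0 = {u, a, a'}` -/
def Base (u a a' : V) : Prop :=
  Nice G e u a a' ∧ TopU G e u ∧ FineV G e u ∧ FineE G e u a

def PortA (g h p : V) : Prop :=
  Big G e b g ∧ FineV G e g ∧ NotExc G e g ∧ FineE G e g h ∧ Nice G e g h p

/-- a triangle `{g, h, p}` at which a tube can end -/
def Port (g h p : V) : Prop := PortA G e b g h p ∨ PortA G e b p g h

/-- colour tuple `(u, v, c, g0, g1, g2) = (f 0, ..., f 5)` -/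
def ColT (f : Fin 6 → V) : Prop :=
  Port G e b (f 3) (f 4) (f 0) ∧ Port G e b (f 3) (f 4) (f 1) ∧ G.Adj (f 4) (f 5) ∧
  e ^ 61 * nn V ≤ cnt (fun z => G.Adj (f 0) z ∧ G.Adj (f 1) z ∧ G.Adj (f 2) z) ∧
  Cl G e (f 0) (f 1) (f 2) (f 3) ∧ Cl G e (f 0) (f 1) (f 2) (f 5)

def Good (x y : V) : Prop :=
  e ^ 61 * nn V ^ 6 ≤ cnt fun f : Fin 6 → V => ColT G e b f ∧ Hit G e f x y

/-- absorber without its target: poles `f 0, f 1`, rim `f 2, ..., f 7`, chord `f 2 f 5` -/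
def AbsV (f : Fin 8 → V) : Prop :=
  Port G e b (f 6) (f 7) (f 0) ∧ Port G e b (f 6) (f 7) (f 1) ∧
  (∀ i : Fin 8, 2 ≤ i → G.Adj (f 0) (f i) ∧ G.Adj (f 1) (f i)) ∧
  G.Adj (f 2) (f 3) ∧ G.Adj (f 3) (f 4) ∧ G.Adj (f 4) (f 5) ∧ G.Adj (f 5) (f 6) ∧
  G.Adj (f 7) (f 2) ∧ G.Adj (f 2) (f 5)

/-- absorber for the vertex `x` -/
def AbsT (x : V) (f : Fin 8 → V) : Prop :=
  AbsV G e b f ∧ G.Adj x (f 2) ∧ G.Adj x (f 3) ∧ G.Adj x (f 4) ∧ G.Adj x (f 5)

/-- the neighbours `y` of `x` for which the pair `(x, y)` should be good -/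
def Cand (x y : V) : Prop :=
  G.Adj x y ∧ (Big G e b y ∨ e * nn V ≤ cnt fun z => G.Adj x z ∧ G.Adj y z ∧ Big G e b z)

end Graph

/-- levels used by one band -/
def lam (h : ℝ) : ℕ := ⌈2 / h ^ 2⌉₊ + 6

/-- the chosen colours, absorbers, tube vertices and reservoir -/
structure Sel {V : Type} [Fintype V] (G : SimpleGraph V) (e b : ℝ) where
  r : ℕ
  mA : ℕ
  mR : ℕ
  col : Fin (r ^ 2) → Fin 6 → V
  abs : Fin mA → Fin 8 → V
  res : Fin mR → Fin 3 → V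
  Y : Finset V
  r8 : (r : ℝ) ^ 8 ≤ nn V
  rlarge : 1 ≤ e ^ 1240 * r
  colInj : Function.Injective (Function.uncurry col)
  absInj : Function.Injective (Function.uncurry abs)
  resInj : Function.Injective (Function.uncurry res)
  col_abs : ∀ j i k l, col j i ≠ abs k l
  col_res : ∀ j i k l, col j i ≠ res k l
  abs_res : ∀ j i k l, abs j i ≠ res k l
  col_Y : ∀ j i, col j i ∉ Y
  abs_Y : ∀ j i, abs j i ∉ Y
  res_Y : ∀ j i, res j i ∉ Y
  colT : ∀ j, ColT G e b (col j)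
  hit : ∀ x y, Good G e b x y → ∃ j, Hit G e (col j) x y
  absV : ∀ k, AbsV G e b (abs k)
  absC : ∀ x, e ^ 490 * nn V ≤ cnt fun k => AbsT G e b x (abs k)
  resC : ∀ j z z', Cl G e (col j 0) (col j 1) (col j 2) z → Cl G e (col j 0) (col j 1) (col j 2) z' →
    e ^ 801 * nn V ≤
      cnt fun i => Junc G (fun x => G.Adj (col j 0) x ∧ G.Adj (col j 1) x) z z' (res i)
  size : (6 * (r ^ 2 : ℕ) + 8 * mA + Y.card + 3 * mR : ℝ) ≤ e ^ 424 * nn V
  size2 : ((r ^ 2 : ℕ) + 3 * mR : ℝ) ≤ e ^ 491 * nn V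
  size3 : ((r ^ 2 : ℕ) : ℝ) ≤ e ^ 803 * nn V
  chain : ∀ (U1 : Fin (r ^ 2) → Finset V) (U2 : Fin mA → Finset V),
    (∀ j j', j ≠ j' → Disjoint (U1 j) (U1 j')) → (∀ k k', k ≠ k' → Disjoint (U2 k) (U2 k')) →
    (∀ j k, Disjoint (U1 j) (U2 k)) → (∀ j, Disjoint (U1 j) Y) → (∀ k, Disjoint (U2 k) Y) →
    (∀ j, Piece G (U1 j) {{col j 3, col j 4, col j 0}, {col j 3, col j 4, col j 1}}) →
    (∀ k, Piece G (U2 k) {{abs k 6, abs k 7, abs k 0}, {abs k 6, abs k 7, abs k 1}}) →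
    ∃ T, Piece G (Y ∪ univ.biUnion U1 ∪ univ.biUnion U2) {T}

/-- vertices not used by the selection -/
def Sel.Free {V : Type} [Fintype V] {G : SimpleGraph V} {e b : ℝ} (σ : Sel G e b) (x : V) : Prop :=
  (∀ j i, x ≠ σ.col j i) ∧ (∀ j i, x ≠ σ.abs j i) ∧ (∀ j i, x ≠ σ.res j i) ∧ x ∉ σ.Y

end

end Pool.Agent.MP_c1b6d0_co.H73.V2
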