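import Pool.Agent.MP_c1b6d0_co.V2.Defs

/-! Part 2 (Chvatal-type theorem): row statements. -/

open Finset
open scoped Classical

namespace Pool.Agent.MP_c1b6d0_co.H73.V2

/-- F2: the class `B` comes for free -/
def F2_stmt : Prop := ∀ (V : Type) [Fintype V] (G : SimpleGraph V) (e b h : ℝ), Ctx2 G e b h →
  ∀ (u : V) (A C : Finset V), TopU G e u → A.Nonempty → Disjoint A C →
  (A.card : ℝ) ≤ nn V - dg G u → (A.card + C.card : ℝ) ≤ 9 * nn V / 10 →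
  (∀ v ∈ A, dg G v ≤ A.card + C.card + 100 * (h * nn V)) →
  (∀ v ∈ C, dg G v ≤ nn V - C.card + 100 * (h * nn V)) → False

/-- F3: the class `C` comes for free -/
def F3_stmt : Prop := ∀ (V : Type) [Fintype V] (G : SimpleGraph V) (e b h : ℝ), Ctx2 G e b h →
  ∀ (u : V) (P Q : Finset V), TopU G e u → P.Nonempty → Q.Nonempty → Disjoint P Q →
  nn V - P.card - Q.card ≤ nn V - dg G u + 50 * (h * nn V) →
  (∀ v ∈ P, dg G v ≤ nn V - Q.card + 100 * (h * nn V)) →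
  (∀ v ∈ Q, dg G v ≤ nn V - P.card + 100 * (h * nn V)) → False

/-- F4: top vertices have degree at least `2n/3`, and all degrees exceed `n - d(u)` -/
def F4_stmt : Prop := ∀ (V : Type) [Fintype V] (G : SimpleGraph V) (e b h : ℝ), Ctx2 G e b h →
  ∀ u : V, TopU G e u → nn V - dg G u ≤ nn V / 3 ∧
    ∀ x, nn V - dg G u + 100 * (h * nn V) ≤ dg G x

/-- CLQ: the clique lemma -/
def CLQ_stmt : Prop := ∀ (V : Type) [Fintype V] (A : Finset V) (J D : V → V → Prop)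
  (Z : V → Prop) (n h τ : ℝ), nn V ≤ n → 0 < h → h ≤ 1 / 1000 → A.Nonempty →
  (∀ x y, J x y → J y x) → (∀ x, ¬ J x x) → (∀ x ∈ A, ∀ z, D x z → Z z) →
  (∀ x ∈ A, ∀ y ∈ A, J x y → cnt (fun z => D x z ∧ D y z) ≤ h ^ 5 * n) → h * n ≤ τ →
  (∀ x ∈ A, cnt (fun y => y ∈ A ∧ ¬ J x y) + τ ≤ cnt (D x)) →
  A.card + τ - h * n ≤ cnt Z

/-- K0: all fine edges at the top vertex of the base triangle -/
def K0_stmt : Prop := ∀ (V : Type) [Fintype V] (G : SimpleGraph V) (e b h : ℝ), Ctx2 G e b h →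
  ∀ u a a' : V, Base G e u a a' → ∀ x, x ∉ ({u, a, a'} : Finset V) → FineE G e u x →
  EE G e {u, a, a'} (lam h) u x

/-- COUNT: the degree-counting contradiction of the band step -/
def COUNT_stmt : Prop := ∀ (V : Type) [Fintype V] (G : SimpleGraph V) (e b h : ℝ), Ctx2 G e b h →
  ∀ (u y : V) (D : ℝ) (R : Finset V), TopU G e u → Big G e b y → dg G y ≤ dg G u →
  D ≤ dg G y + h * nn V → R.Nonempty → (∀ x ∈ R, G.Adj y x ∧ dg G x < D) →
  (∀ x ∈ R, cnt (fun z => G.Adj x z ∧ G.Adj y z ∧ z ∉ R) ≤ h * nn V) →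
  (∀ x ∈ R, cnt (fun x' => x' ∈ R ∧ G.Adj x x' ∧
    e * nn V < cnt fun w => G.Adj x w ∧ G.Adj x' w ∧ D ≤ dg G w) ≤ e * nn V) →
  (∀ x ∈ R, G.Adj u x → cnt (fun w => G.Adj x w ∧ G.Adj y w ∧ G.Adj u w) ≤ e * nn V) →
  (∀ x ∈ R, cnt (fun z => z ∈ R ∧ G.Adj x z ∧ G.Adj u z ∧
    e * nn V < cnt fun w => G.Adj x w ∧ G.Adj z w ∧ G.Adj u w) ≤ e * nn V) → False

/-- K2: the band step -/
def K2_stmt : Prop := ∀ (V : Type) [Fintype V] (G : SimpleGraph V) (e b h : ℝ), Ctx2 G e b h →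
  ∀ u a a' : V, Base G e u a a' → ∀ (k : ℕ) (D : ℝ), lam h + 1 ≤ k →
  (∀ w, w ∉ ({u, a, a'} : Finset V) → Big G e b w → FineV G e w → NotExc G e w → D ≤ dg G w →
    ∀ x, x ∉ ({u, a, a'} : Finset V) → FineE G e w x → EE G e {u, a, a'} k w x) →
  ∀ y, y ∉ ({u, a, a'} : Finset V) → Big G e b y → FineV G e y → NotExc G e y →
    D ≤ dg G y + h * nn V →
    ∀ x, x ∉ ({u, a, a'} : Finset V) → FineE G e y x → EE G e {u, a, a'} (k + lam h) y x

/-- every port reaches the base triangle -/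
def B4_stmt : Prop := ∀ (V : Type) [Fintype V] (G : SimpleGraph V) (e b : ℝ), Ctx G e b →
  ∀ u a a' : V, Base G e u a a' → ∀ g h p, g ∉ ({u, a, a'} : Finset V) →
  h ∉ ({u, a, a'} : Finset V) → p ∉ ({u, a, a'} : Finset V) → Port G e b g h p →
  Reach G e {u, a, a'} (10 + 2 * kap e) {g, h, p}

/-- C1: every vertex has few candidate neighbours that are not good -/
def C1_stmt : Prop := ∀ (V : Type) [Fintype V] (G : SimpleGraph V) (e b : ℝ), Ctx G e b →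
  ∀ x, cnt (fun y => Cand G e b x y ∧ ¬ Good G e b x y) ≤ 2 * e ^ 3 * nn V

/-- the robust Hall condition used in D1 -/
def RH {α : Type} [Fintype α] (H : α → α → Prop) (D : ℕ) : Prop :=
  ∀ H' : α → α → Prop, (∀ x y, H' x y → H' y x) → (∀ x y, H' x y → H x y) →
    (∀ x, cnt (fun y => H x y ∧ ¬ H' x y) ≤ 2 * D) →
    ∀ I : Finset α, (∀ x ∈ I, ∀ y ∈ I, ¬ H' x y) → (I.card : ℝ) ≤ cnt fun y => ∃ x ∈ I, H' x y

/-- D1: spread fractional perfect matching -/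
def D1_stmt : Prop := ∀ (α : Type) [Fintype α] (H : α → α → Prop) (D : ℕ),
  (∀ x y, H x y → H y x) → 1 ≤ D → RH H D →
  ∃ w : α → α → ℝ, (∀ x y, w x y = w y x) ∧ (∀ x y, 0 ≤ w x y) ∧ (∀ x y, w x y ≤ 1 / D) ∧
    (∀ x y, w x y ≠ 0 → H x y) ∧ ∀ x, ∑ y, w x y = 1

/-- D4: the robust Hall condition holds for the good edges on any large vertex set -/
def D4_stmt : Prop := ∀ (V : Type) [Fintype V] (G : SimpleGraph V) (e b : ℝ), Ctx G e b →
  ∀ (Gd : V → V → Prop) (S : V → Prop) (D : ℕ),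
  (∀ x, cnt (fun y => Cand G e b x y ∧ ¬ Gd x y) ≤ 2 * e ^ 3 * nn V) →
  cnt (fun x => ¬ S x) ≤ e ^ 424 * nn V → (D : ℝ) ≤ e * nn V / 4 →
  RH (fun x y : {x // S x} => G.Adj x y ∧ (Gd x y ∨ Gd y x)) D

/-- a tube between two disjoint ports -/
def TUBE_stmt : Prop := ∀ (V : Type) [Fintype V] (G : SimpleGraph V) (e b : ℝ), Ctx G e b →
  ∀ (g h p g' h' p' : V) (W : Finset V), Port G e b g h p → Port G e b g' h' p' →
  Disjoint ({g, h, p} : Finset V) {g', h', p'} → ({g, h, p} : Finset V) ⊆ W →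
  ({g', h', p'} : Finset V) ⊆ W → (W.card : ℝ) ≤ e ^ 423 * nn V / 8 →
  ∃ Y : Finset V, Disjoint Y W ∧ (Y.card : ℝ) ≤ 1 / e ^ 2 ∧
    Piece G ({g, h, p} ∪ {g', h', p'} ∪ Y) {{g, h, p}, {g', h', p'}}

/-- a chain of tubes through all units -/
def CHAIN_stmt : Prop := ∀ (V : Type) [Fintype V] (G : SimpleGraph V) (e b : ℝ), Ctx G e b →
  ∀ (ι : Type) [Fintype ι] [Nonempty ι] (u v g h : ι → V) (W : Finset V),
  (∀ j, Port G e b (g j) (h j) (u j) ∧ Port G e b (g j) (h j) (v j) ∧ u j ≠ v j) →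
  (∀ j, ({u j, v j, g j, h j} : Finset V) ⊆ W) →
  (∀ j j', j ≠ j' → Disjoint ({u j, v j, g j, h j} : Finset V) {u j', v j', g j', h j'}) →
  W.card + nn ι / e ^ 2 ≤ e ^ 423 * nn V / 8 →
  ∃ Y : Finset V, Disjoint Y W ∧ (Y.card : ℝ) ≤ nn ι / e ^ 2 ∧
    ∀ U : ι → Finset V, (∀ j j', j ≠ j' → Disjoint (U j) (U j')) → (∀ j, Disjoint (U j) Y) →
      (∀ j, Piece G (U j) {{g j, h j, u j}, {g j, h j, v j}}) →
      ∃ T, Piece G (Y ∪ univ.biUnion U) {T}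

/-- C2: every vertex has many absorbers -/
def C2_stmt : Prop := ∀ (V : Type) [Fintype V] (G : SimpleGraph V) (e b : ℝ), Ctx G e b →
  ∀ x, e ^ 61 * nn V ^ 8 ≤ cnt (AbsT G e b x)

/-- C3: the two states of an absorber -/
def C3_stmt : Prop := ∀ (V : Type) [Fintype V] (G : SimpleGraph V) (e b : ℝ) (f : Fin 8 → V),
  Function.Injective f →
  (AbsV G e b f → Piece G (univ.image f) {{f 6, f 7, f 0}, {f 6, f 7, f 1}}) ∧
  ∀ x, AbsT G e b x f → (∀ i, x ≠ f i) →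
    Piece G (insert x (univ.image f)) {{f 6, f 7, f 0}, {f 6, f 7, f 1}}

/-- SEL: choose colours, absorbers, tubes and the reservoir -/
def SEL_stmt : Prop := ∀ (V : Type) [Fintype V] (G : SimpleGraph V) (e b : ℝ), Ctx G e b →
  Nonempty (Sel G e b)

/-- the output of COV -/
def Cover {V : Type} [Fintype V] {G : SimpleGraph V} {e b : ℝ} (σ : Sel G e b)
    (Q : List (Fin (σ.r ^ 2) × List V)) : Prop :=
  (flat Q).Nodup ∧ (∀ x ∈ flat Q, σ.Free x) ∧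
  (∀ p ∈ Q, PathOK G.Adj (fun x => G.Adj (σ.col p.1 0) x ∧ G.Adj (σ.col p.1 1) x)
    (Cl G e (σ.col p.1 0) (σ.col p.1 1) (σ.col p.1 2)) p.2) ∧
  (Q.length : ℝ) ≤ e ^ 803 * nn V ∧
  cnt (fun x => σ.Free x ∧ x ∉ flat Q) ≤ 2 * e ^ 803 * nn V

/-- COV: cover the free vertices by few monochromatic paths -/
def COV_stmt : Prop := ∀ (V : Type) [Fintype V] (G : SimpleGraph V) (e b : ℝ), Ctx G e b →
  ∀ σ : Sel G e b, ∃ Q, Cover σ Q

/-- FIN: close the cycles, absorb the leftover, glue along the chain -/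
def FIN_stmt : Prop := ∀ (V : Type) [Fintype V] (G : SimpleGraph V) (e b : ℝ), Ctx G e b →
  ∀ (σ : Sel G e b) (Q : List (Fin (σ.r ^ 2) × List V)), Cover σ Q → ∃ T, Piece G univ {T}

end Pool.Agent.MP_c1b6d0_co.H73.V2
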